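import Pool.Agent.H173R3.ZT.Val

/-!
# Choice of the reduction data
-/

set_option autoImplicit false

open MvPolynomial

namespace Pool.Agent.W282.ZP

/-- For every set `J` of `d + 1` coordinates there is a relation `f J` between the coordinates in
`J`, and integers `α_i`, `β_i` such that `f J` does not vanish at the corners. -/
theorem exists_corners {n d : ℕ} (P : Ideal (MvPolynomial (Fin n) ℂ)) [P.IsPrime]
    (hd : Algebra.trdeg ℂ (MvPolynomial (Fin n) ℂ ⧸ P) = d) :
    ∃ (f : ∀ J : Finset (Fin n), MvPolynomial J ℂ) (α β : Fin n → ℤ), (∀ i, α i ≠ β i) ∧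
      ∀ J : Finset (Fin n), J.card = d + 1 → rename (Subtype.val : J → Fin n) (f J) ∈ P ∧
        ∀ c : Fin n → Bool,
          eval (fun i : J => (((if c i then α i else β i : ℤ)) : ℂ)) (f J) ≠ 0 := by
  classical
  have h1 : ∀ J : Finset (Fin n), ∃ f : MvPolynomial J ℂ, f ≠ 0 ∧
      (J.card = d + 1 → rename (Subtype.val : J → Fin n) f ∈ P) := by
    intro J
    by_cases hJ : J.card = d + 1
    · have hdep : ¬ AlgebraicIndependent ℂ
          (fun i : J => (Ideal.Quotient.mk P (X (i : Fin n)) : MvPolynomial (Fin n) ℂ ⧸ P)) := by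
        intro h
        have h2 := h.cardinalMk_le_trdeg
        rw [hd, Cardinal.mk_fintype, Fintype.card_coe, hJ] at h2
        have h3 : d + 1 ≤ d := by exact_mod_cast h2
        omega
      rw [algebraicIndependent_iff] at hdep
      push Not at hdep
      obtain ⟨f, hf1, hf2⟩ := hdep
      refine ⟨f, hf2, fun _ => ?_⟩
      rw [← Ideal.Quotient.eq_zero_iff_mem, ← hf1]
      have h4 : (Ideal.Quotient.mkₐ ℂ P).comp (rename (Subtype.val : J → Fin n)) =
          aeval (fun i : J => (Ideal.Quotient.mk P (X (i : Fin n)))) := by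
        ext i
        simp
      exact DFunLike.congr_fun h4 f
    · exact ⟨1, one_ne_zero, fun h => absurd h hJ⟩
  choose f hf0 hfP using h1
  let F : MvPolynomial (Fin n × Bool) ℂ :=
    (∏ J : Finset (Fin n), ∏ c : Fin n → Bool, rename (fun i : J => ((i : Fin n), c i)) (f J)) *
      ∏ i : Fin n, (X (i, true) - X (i, false))
  have hF : F ≠ 0 := by
    refine mul_ne_zero (Finset.prod_ne_zero_iff.2 fun J _ => Finset.prod_ne_zero_iff.2
      fun c _ => ?_) (Finset.prod_ne_zero_iff.2 fun i _ => ?_)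
    · have hinj : Function.Injective (fun i : J => ((i : Fin n), c i)) := by
        intro i i' h
        exact Subtype.ext (congrArg Prod.fst h)
      intro h
      exact hf0 J (rename_injective _ hinj (by rw [h, map_zero]))
    · intro h
      rw [sub_eq_zero] at h
      have h2 : ((i, true) : Fin n × Bool) = (i, false) := X_injective h
      simp at h2
  obtain ⟨a, ha⟩ : ∃ a : Fin n × Bool → ℤ, eval (fun i => (a i : ℂ)) F ≠ 0 := by
    by_contra hcon
    push Not at hcon
    apply hF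
    refine MvPolynomial.funext_set (fun _ => Set.range fun k : ℤ => (k : ℂ)) (fun _ => ?_) ?_
    · exact Set.infinite_range_of_injective Int.cast_injective
    · intro x hx
      rw [map_zero]
      have h2 : ∀ i, ∃ k : ℤ, (k : ℂ) = x i := fun i => hx i (Set.mem_univ i)
      choose k hk using h2
      have h3 : x = fun i => (k i : ℂ) := funext fun i => (hk i).symm
      rw [h3]
      exact hcon k
  have hF' := ha
  simp only [F, map_mul, map_prod, map_sub, eval_X] at hF'
  have hA := left_ne_zero_of_mul hF'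
  have hB := right_ne_zero_of_mul hF'
  rw [Finset.prod_ne_zero_iff] at hA hB
  refine ⟨f, fun i => a (i, true), fun i => a (i, false), fun i => ?_, fun J hJ => ⟨hfP J hJ, ?_⟩⟩
  · have h2 := hB i (Finset.mem_univ i)
    intro h
    have h' : a (i, true) = a (i, false) := h
    rw [h', sub_self] at h2
    exact h2 rfl
  · intro c
    have h2 := hA J (Finset.mem_univ J)
    rw [Finset.prod_ne_zero_iff] at h2
    have h3 := h2 c (Finset.mem_univ c)
    rw [eval_rename] at h3
    have h4 : ((fun i => (a i : ℂ)) ∘ fun i : J => ((i : Fin n), c i)) =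
        fun i : J => (((if c i then a ((i : Fin n), true) else a ((i : Fin n), false) : ℤ)) : ℂ) := by
      funext i
      simp only [Function.comp_apply]
      cases c i <;> simp
    rw [h4] at h3
    exact h3

/-- Infinitely many primes with valuation rings of `ℂ` above them in which given elements are
units. -/
theorem exists_primes (s : Finset ℂ) (N : ℕ) :
    ∃ (p : ℕ → ℕ) (O : ℕ → ValuationSubring ℂ), Function.Injective p ∧
      ∀ m, (p m).Prime ∧ N < p m ∧ (O m).valuation ((p m : ℕ) : ℂ) < 1 ∧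
        ∀ u ∈ s, u ≠ 0 → (O m).valuation u = 1 := by
  obtain ⟨p, hp, h⟩ := Nat.exists_strictMono_subsequence
    (P := fun q => q.Prime ∧ N < q ∧ ∃ O : ValuationSubring ℂ, O.valuation ((q : ℕ) : ℂ) < 1 ∧
      ∀ u ∈ s, u ≠ 0 → O.valuation u = 1) (by
      intro L
      obtain ⟨O, q, hq, hN, hv, hs⟩ := H173R3.ZT.exists_valuationSubring s (max L N)
      exact ⟨q, lt_of_le_of_lt (le_max_left _ _) hN, hq, lt_of_le_of_lt (le_max_right _ _) hN,
        O, hv, hs⟩)
  choose h1 h2 O h3 h4 using h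
  exact ⟨p, O, hp.injective, fun m => ⟨h1 m, h2 m, h3 m, h4 m⟩⟩

/-- distinct primes as exponents -/
theorem exists_exponents (n : ℕ) : ∃ e : ℕ → Fin n → ℕ, (∀ m i, (e m i).Prime) ∧
    ∀ m i m' i', e m i = e m' i' → m = m' ∧ i = i' := by
  refine ⟨fun m i => Nat.nth Nat.Prime (m * n + i), fun m i => Nat.prime_nth_prime _, ?_⟩
  intro m i m' i' h
  have h1 : m * n + (i : ℕ) = m' * n + i' :=
    Nat.nth_injective Nat.infinite_setOf_prime h
  have hn : 0 < n := lt_of_le_of_lt (Nat.zero_le _) i.2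
  have h2 : m = m' := by
    have e1 : (m * n + (i : ℕ)) / n = m := by
      rw [mul_comm, Nat.mul_add_div hn, Nat.div_eq_of_lt i.2, add_zero]
    have e2 : (m' * n + (i' : ℕ)) / n = m' := by
      rw [mul_comm, Nat.mul_add_div hn, Nat.div_eq_of_lt i'.2, add_zero]
    rw [← e1, h1, e2]
  subst h2
  exact ⟨rfl, Fin.ext (by omega)⟩

/-- The congruence conditions. -/
def CongAt {n : ℕ} (p : ℕ) (e : Fin n → ℕ) (α β : Fin n → ℤ)
    (g : Fin n → Matrix (Fin 2) (Fin 2) ℤ) : Prop :=
  ∀ i, ((p : ℤ) ^ (e i + 1)) ∣ g i 0 0 - 1 ∧ ((p : ℤ) ^ (e i + 1)) ∣ g i 0 1 + α i ∧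
    ((p : ℤ) ^ (e i + 1)) ∣ g i 1 0 - p ^ e i ∧ ((p : ℤ) ^ (e i + 1)) ∣ g i 1 1 + p ^ e i * β i

theorem exists_residue_class {n M : ℕ} (α β : Fin n → ℤ) (p : Fin M → ℕ) (hp : ∀ m, (p m).Prime)
    (hinj : Function.Injective p) (e : Fin M → Fin n → ℕ) (Q₀ : ℕ) (hQ₀ : 0 < Q₀)
    (hlt : ∀ m, Q₀ < p m) (g₀ : Fin n → Matrix (Fin 2) (Fin 2) ℤ) :
    ∃ (Q : ℕ) (G : Fin n → Matrix (Fin 2) (Fin 2) ℤ), 0 < Q ∧
      ∀ g : Fin n → Matrix (Fin 2) (Fin 2) ℤ, (∀ i r s, (Q : ℤ) ∣ g i r s - G i r s) →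
        (∀ i r s, (Q₀ : ℤ) ∣ g i r s - g₀ i r s) ∧ ∀ m, CongAt (p m) (e m) α β g := by
  classical
  let tgt : Fin n → Option (Fin M) → Matrix (Fin 2) (Fin 2) ℤ := fun i o =>
    match o with
    | none => g₀ i
    | some m => !![1, -α i; (p m : ℤ) ^ e m i, -((p m : ℤ) ^ e m i * β i)]
  let md : Fin n → Option (Fin M) → ℤ := fun i o =>
    match o with
    | none => Q₀
    | some m => (p m : ℤ) ^ (e m i + 1)
  have hcop : ∀ i, Pairwise (Function.onFun IsCoprime fun o => Ideal.span {md i o}) := by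
    intro i o o' hne
    rw [Function.onFun, Ideal.isCoprime_span_singleton_iff]
    cases o with
    | none =>
      cases o' with
      | none => exact absurd rfl hne
      | some m =>
        change IsCoprime (Q₀ : ℤ) ((p m : ℤ) ^ (e m i + 1))
        apply IsCoprime.pow_right
        rw [Nat.isCoprime_iff_coprime, Nat.coprime_comm, (hp m).coprime_iff_not_dvd]
        intro h
        exact absurd (Nat.le_of_dvd hQ₀ h) (not_le.2 (hlt m))
    | some m =>
      cases o' with
      | none =>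
        change IsCoprime ((p m : ℤ) ^ (e m i + 1)) (Q₀ : ℤ)
        apply IsCoprime.pow_left
        rw [Nat.isCoprime_iff_coprime, (hp m).coprime_iff_not_dvd]
        intro h
        exact absurd (Nat.le_of_dvd hQ₀ h) (not_le.2 (hlt m))
      | some m' =>
        change IsCoprime ((p m : ℤ) ^ (e m i + 1)) ((p m' : ℤ) ^ (e m' i + 1))
        apply IsCoprime.pow
        rw [Nat.isCoprime_iff_coprime, Nat.coprime_primes (hp m) (hp m')]
        intro h
        exact hne (by rw [hinj h])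
  have hcrt : ∀ i r s, ∃ x : ℤ, ∀ o, md i o ∣ x - tgt i o r s := by
    intro i r s
    obtain ⟨x, hx⟩ := Ideal.exists_forall_sub_mem_ideal (hcop i) (fun o => tgt i o r s)
    exact ⟨x, fun o => Ideal.mem_span_singleton.1 (hx o)⟩
  choose G hG using hcrt
  let Q : ℕ := Q₀ * ∏ m, ∏ i, p m ^ (e m i + 1)
  have hQ : 0 < Q := Nat.mul_pos hQ₀ (Finset.prod_pos fun m _ => Finset.prod_pos fun i _ =>
    pow_pos (hp m).pos _)
  refine ⟨Q, fun i => Matrix.of fun r s => G i r s, hQ, fun g hg => ?_⟩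
  have hdvd : ∀ i o, md i o ∣ (Q : ℤ) := by
    intro i o
    cases o with
    | none =>
      change ((Q₀ : ℕ) : ℤ) ∣ (Q : ℤ)
      exact_mod_cast Dvd.intro _ rfl
    | some m =>
      change ((p m : ℤ) ^ (e m i + 1)) ∣ (Q : ℤ)
      have h1 : p m ^ (e m i + 1) ∣ Q :=
        ((Finset.dvd_prod_of_mem (fun i => p m ^ (e m i + 1)) (Finset.mem_univ i)).trans
          (Finset.dvd_prod_of_mem (fun m => ∏ i, p m ^ (e m i + 1)) (Finset.mem_univ m))).trans
          (Dvd.intro_left _ rfl)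
      exact_mod_cast h1
  have hall : ∀ i o r s, md i o ∣ g i r s - tgt i o r s := by
    intro i o r s
    have h1 := (hdvd i o).trans (hg i r s)
    have h2 := hG i r s o
    have h3 := dvd_add h1 h2
    simp only [Matrix.of_apply] at h3
    rwa [sub_add_sub_cancel] at h3
  refine ⟨fun i r s => hall i none r s, fun m i => ?_⟩
  have h00 := hall i (some m) 0 0
  have h01 := hall i (some m) 0 1
  have h10 := hall i (some m) 1 0
  have h11 := hall i (some m) 1 1
  simp only [tgt, md, Matrix.of_apply, Matrix.cons_val', Matrix.cons_val_zero, Matrix.cons_val_one,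
    Matrix.cons_val_fin_one, sub_neg_eq_add] at h00 h01 h10 h11
  exact ⟨h00, h01, h10, h11⟩

/-- A residue class has positive density. -/
theorem pos_proportion {n : ℕ} (Q : ℕ) (hQ : 0 < Q) (G : Fin n → Matrix (Fin 2) (Fin 2) ℤ)
    (Good : (Fin n → Matrix (Fin 2) (Fin 2) ℤ) → Prop)
    (h : ∀ g : Fin n → Matrix (Fin 2) (Fin 2) ℤ, (∀ i r s, (Q : ℤ) ∣ g i r s - G i r s) → Good g) :
    ∃ δ : ℝ, 0 < δ ∧ ∀ᶠ H : ℕ in Filter.atTop,
      δ * (H : ℝ) ^ (4 * n) ≤ Nat.card {g : Fin n → Matrix (Fin 2) (Fin 2) ℤ //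
        (∀ i r s, |g i r s| ≤ H) ∧ Good g} := by
  classical
  have hQr : (0 : ℝ) < Q := by exact_mod_cast hQ
  refine ⟨(1 / (2 * (Q : ℝ))) ^ (4 * n), by positivity, ?_⟩
  filter_upwards [Filter.eventually_ge_atTop Q] with H hH
  have hfin : Finite {g : Fin n → Matrix (Fin 2) (Fin 2) ℤ //
      (∀ i r s, |g i r s| ≤ H) ∧ Good g} := by
    have h1 : (Set.pi Set.univ fun _ : Fin n => Set.pi Set.univ fun _ : Fin 2 =>
        Set.pi Set.univ fun _ : Fin 2 => Set.Icc (-(H : ℤ)) H).Finite :=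
      Set.Finite.pi fun _ => Set.Finite.pi fun _ => Set.Finite.pi fun _ => Set.finite_Icc _ _
    exact Set.Finite.subset h1 fun g hg i _ r _ s _ => Set.mem_Icc.2 (abs_le.1 (hg.1 i r s))
  let φ : (Fin n → Fin 2 → Fin 2 → Fin (H / Q)) → {g : Fin n → Matrix (Fin 2) (Fin 2) ℤ //
      (∀ i r s, |g i r s| ≤ H) ∧ Good g} :=
    fun k => ⟨fun i => Matrix.of fun r s => G i r s % Q + Q * ((k i r s : ℕ) : ℤ), by
      refine ⟨fun i r s => ?_, h _ fun i r s => ?_⟩
      · have h0 := Int.emod_nonneg (G i r s) (by exact_mod_cast hQ.ne' : (Q : ℤ) ≠ 0)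
        have h1 := Int.emod_lt_of_pos (G i r s) (by exact_mod_cast hQ : (0 : ℤ) < Q)
        have h2 : (k i r s : ℕ) + 1 ≤ H / Q := (k i r s).2
        have h3 : Q * ((k i r s : ℕ) + 1) ≤ H :=
          (Nat.mul_le_mul_left Q h2).trans (Nat.mul_div_le H Q)
        have h4 : ((Q * ((k i r s : ℕ) + 1) : ℕ) : ℤ) ≤ H := by exact_mod_cast h3
        push_cast at h4
        have h5 : (0 : ℤ) ≤ Q * ((k i r s : ℕ) : ℤ) := by positivity
        change |G i r s % Q + Q * ((k i r s : ℕ) : ℤ)| ≤ H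
        rw [abs_le]
        constructor
        · linarith
        · linarith
      · change (Q : ℤ) ∣ G i r s % Q + Q * ((k i r s : ℕ) : ℤ) - G i r s
        have h6 := Int.emod_add_mul_ediv (G i r s) Q
        refine ⟨((k i r s : ℕ) : ℤ) - G i r s / Q, ?_⟩
        linear_combination h6⟩
  have hφ : Function.Injective φ := by
    intro k l hkl
    funext i r s
    have h1 := congrFun (congrFun (congrFun (congrArg Subtype.val hkl) i) r) s
    have h2 : G i r s % Q + Q * ((k i r s : ℕ) : ℤ) = G i r s % Q + Q * ((l i r s : ℕ) : ℤ) := h1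
    have h3 : (Q : ℤ) ≠ 0 := by exact_mod_cast hQ.ne'
    have h4 : ((k i r s : ℕ) : ℤ) = ((l i r s : ℕ) : ℤ) := mul_left_cancel₀ h3 (by linarith)
    exact Fin.ext (by exact_mod_cast h4)
  have hcard := Nat.card_le_card_of_injective φ hφ
  have hcard2 : Nat.card (Fin n → Fin 2 → Fin 2 → Fin (H / Q)) = (H / Q) ^ (4 * n) := by
    simp only [Nat.card_eq_fintype_card, Fintype.card_pi, Finset.prod_const, Finset.card_univ,
      Fintype.card_fin]
    rw [← pow_mul, ← pow_mul]
    congr 1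
    ring
  rw [hcard2] at hcard
  have h1 : (1 / (2 * (Q : ℝ))) * H ≤ ((H / Q : ℕ) : ℝ) := by
    have h2 : H < Q * (H / Q + 1) := Nat.lt_mul_div_succ H hQ
    have h3 : 1 ≤ H / Q := (Nat.one_le_div_iff hQ).2 hH
    have h4 : (H : ℝ) < Q * (((H / Q : ℕ) : ℝ) + 1) := by exact_mod_cast h2
    have h5 : (1 : ℝ) ≤ ((H / Q : ℕ) : ℝ) := by exact_mod_cast h3
    rw [div_mul_eq_mul_div, one_mul, div_le_iff₀ (by positivity)]
    nlinarith
  calc (1 / (2 * (Q : ℝ))) ^ (4 * n) * (H : ℝ) ^ (4 * n) =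
        ((1 / (2 * (Q : ℝ))) * H) ^ (4 * n) := by rw [mul_pow]
    _ ≤ (((H / Q : ℕ) : ℝ)) ^ (4 * n) := pow_le_pow_left₀ (by positivity) h1 _
    _ ≤ _ := by exact_mod_cast hcard

end Pool.Agent.W282.ZP
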