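import Pool.Agent.W282.ZP.Mix

/-!
# Ideals, generic points, and special subvarieties
-/

set_option autoImplicit false

namespace Pool.Agent.W282.ZP

open H294ZP UpperHalfPlane MvPolynomial

section Ideals

variable {ι : Type}

/-- The ideal of the polynomials vanishing on `A`; `A` is irreducible when it is prime. -/
noncomputable def idealOf (A : Set (ι → ℂ)) : Ideal (MvPolynomial ι ℂ) :=
  ⨅ x ∈ A, RingHom.ker (eval x : MvPolynomial ι ℂ →+* ℂ)

theorem mem_idealOf {A : Set (ι → ℂ)} {f : MvPolynomial ι ℂ} :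
    f ∈ idealOf A ↔ ∀ x ∈ A, eval x f = 0 := by
  simp [idealOf, Submodule.mem_iInf, RingHom.mem_ker]

/-- The Zariski closure. -/
def zcl (A : Set (ι → ℂ)) : Set (ι → ℂ) := {x | ∀ f ∈ idealOf A, eval x f = 0}

/-- The dimension of an irreducible set `A`: the transcendence degree of its coordinate ring. -/
noncomputable def zdim (A : Set (ι → ℂ)) : Cardinal :=
  Algebra.trdeg ℂ (MvPolynomial ι ℂ ⧸ idealOf A)

theorem idealOf_zcl (A : Set (ι → ℂ)) : idealOf (zcl A) = idealOf A := by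
  ext f
  constructor
  · intro h
    rw [mem_idealOf] at h ⊢
    intro x hx
    refine h x fun g hg => ?_
    exact mem_idealOf.1 hg x hx
  · intro h
    rw [mem_idealOf]
    intro x hx
    exact hx f h

theorem nonempty_of_prime {A : Set (ι → ℂ)} (hA : (idealOf A).IsPrime) : A.Nonempty := by
  rw [Set.nonempty_iff_ne_empty]
  rintro rfl
  apply hA.ne_top
  rw [Ideal.eq_top_iff_one, mem_idealOf]
  intro x hx
  exact absurd hx (Set.notMem_empty x)

/-- The generic point of a prime ideal and a transcendence basis among its coordinates. -/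
theorem generic_point [Finite ι] (Q : Ideal (MvPolynomial ι ℂ)) [Q.IsPrime] :
    ∃ (K : Type) (_ : Field K) (_ : Algebra ℂ K) (z : ι → K), (∀ f, aeval z f = 0 ↔ f ∈ Q) ∧
      ∃ T : Finset ι, AlgebraicIndependent ℂ (fun j : T => z j) ∧
        Algebra.trdeg ℂ (MvPolynomial ι ℂ ⧸ Q) ≤ (T.card : Cardinal) := by
  classical
  let B := MvPolynomial ι ℂ ⧸ Q
  let Ω := FractionRing B
  let ev : MvPolynomial ι ℂ →ₐ[ℂ] Ω :=
    (IsScalarTower.toAlgHom ℂ B Ω).comp (Ideal.Quotient.mkₐ ℂ Q)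
  have hev : ∀ f, ev f = 0 ↔ f ∈ Q := by
    intro f
    change algebraMap B Ω (Ideal.Quotient.mk Q f) = 0 ↔ _
    rw [← Ideal.Quotient.eq_zero_iff_mem]
    exact map_eq_zero_iff _ (IsFractionRing.injective B Ω)
  set z : ι → Ω := fun j => ev (X j) with hzdef
  have hevz : ∀ f, ev f = aeval z f := by
    intro f
    have h1 : ev = aeval z := by
      ext j
      simp [hzdef]
    rw [h1]
  -- a transcendence basis among the coordinates
  have hadj : ∀ f : B, algebraMap B Ω f ∈ Algebra.adjoin ℂ (Set.range z) := by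
    intro f
    obtain ⟨f, rfl⟩ := Ideal.Quotient.mk_surjective f
    have h1 : algebraMap B Ω (Ideal.Quotient.mk Q f) = aeval z f := hevz f
    rw [h1, Algebra.adjoin_range_eq_range_aeval]
    exact ⟨f, rfl⟩
  have halg : Algebra.IsAlgebraic (Algebra.adjoin ℂ (Set.range z)) Ω := by
    refine ⟨fun ω => ?_⟩
    obtain ⟨p, q, hq, rfl⟩ := IsFractionRing.div_surjective (A := B) ω
    rw [div_eq_mul_inv]
    have hp' : IsAlgebraic (Algebra.adjoin ℂ (Set.range z)) (algebraMap B Ω p) :=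
      isAlgebraic_algebraMap (⟨_, hadj p⟩ : Algebra.adjoin ℂ (Set.range z))
    have hq' : IsAlgebraic (Algebra.adjoin ℂ (Set.range z)) (algebraMap B Ω q) :=
      isAlgebraic_algebraMap (⟨_, hadj q⟩ : Algebra.adjoin ℂ (Set.range z))
    exact hp'.mul hq'.inv
  obtain ⟨t, hts, ht⟩ := exists_isTranscendenceBasis_subset (R := ℂ) (Set.range z)
  have hc : ∀ e : t, ∃ j, z j = e := fun e => hts e.2
  choose c hc using hc
  have hcinj : Function.Injective c := by
    intro e e' hee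
    exact Subtype.ext (by rw [← hc e, ← hc e', hee])
  have htfin : Finite t := Finite.of_injective c hcinj
  have : Fintype t := Fintype.ofFinite t
  set T : Finset ι := Finset.univ.image c with hT
  have hTt : ∀ j : T, ∃ e : t, c e = j := by
    rintro ⟨j, hj⟩
    obtain ⟨e, -, he⟩ := Finset.mem_image.1 hj
    exact ⟨e, he⟩
  choose φ hφ using hTt
  have hφinj : Function.Injective φ := by
    intro j j' hjj
    exact Subtype.ext (by rw [← hφ j, ← hφ j', hjj])
  have hzφ : (fun j : T => z j) = (fun e : t => (e : Ω)) ∘ φ := by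
    funext j
    simp only [Function.comp_apply]
    rw [← hc (φ j), hφ j]
  have hTind : AlgebraicIndependent ℂ (fun j : T => z j) := by
    rw [hzφ]
    exact ht.1.comp φ hφinj
  refine ⟨Ω, inferInstance, inferInstance, z, fun f => by rw [← hevz, hev], T, hTind, ?_⟩
  have h1 : Algebra.trdeg ℂ B ≤ Algebra.trdeg ℂ Ω :=
    trdeg_le_of_injective (IsScalarTower.toAlgHom ℂ B Ω) (IsFractionRing.injective B Ω)
  refine h1.trans (le_of_eq ?_)
  rw [← ht.cardinalMk_eq_trdeg, Cardinal.mk_fintype, hT,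
    Finset.card_image_of_injective _ hcinj, Finset.card_univ]

end Ideals

/-- Two points of the upper half plane in the same class are related by an integral matrix of
determinant `(det g) (det g')`. -/
theorem isogeny_rel {z w w' : ℍ} {g g' : Matrix (Fin 2) (Fin 2) ℤ} (hg : 0 < g.det)
    (hw : (w : ℂ) * (g 1 0 * z + g 1 1) = g 0 0 * z + g 0 1)
    (hw' : (w' : ℂ) * (g' 1 0 * z + g' 1 1) = g' 0 0 * z + g' 0 1) :
    ∃ a b c d : ℤ, a * d - b * c = g.det * g'.det ∧ (w' : ℂ) * (c * w + d) = a * w + b := by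
  rw [Matrix.det_fin_two] at hg
  have hn := denom_ne (z := z) hg
  refine ⟨g' 0 0 * g 1 1 - g' 0 1 * g 1 0, -(g' 0 0 * g 0 1) + g' 0 1 * g 0 0,
    g' 1 0 * g 1 1 - g' 1 1 * g 1 0, -(g' 1 0 * g 0 1) + g' 1 1 * g 0 0, ?_, ?_⟩
  · rw [Matrix.det_fin_two, Matrix.det_fin_two]
    ring
  · apply mul_right_cancel₀ hn
    push_cast
    linear_combination ((w' : ℂ) * ((g' 1 0 : ℂ) * g 1 1 - g' 1 1 * g 1 0) -
      ((g' 0 0 : ℂ) * g 1 1 - g' 0 1 * g 1 0)) * hw + ((g 0 0 : ℂ) * g 1 1 - g 0 1 * g 1 0) * hw'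

/-- the modular relation between two coordinates, as a polynomial -/
noncomputable def relPoly {ι : Type} (i i' : ι) (N : ℕ) : MvPolynomial ι ℂ :=
  Polynomial.eval₂ (Polynomial.aeval (X i) : Polynomial ℂ →ₐ[ℂ] MvPolynomial ι ℂ).toRingHom
    (X i') (Psi N)

theorem aeval_relPoly {ι : Type} (i i' : ι) (N : ℕ) {K : Type} [Field K] [Algebra ℂ K]
    (z : ι → K) : aeval z (relPoly i i' N) = Polynomial.eval₂
      (Polynomial.aeval (z i) : Polynomial ℂ →ₐ[ℂ] K).toRingHom (z i') (Psi N) := by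
  have h := Polynomial.hom_eval₂ (Psi N)
    (Polynomial.aeval (X i) : Polynomial ℂ →ₐ[ℂ] MvPolynomial ι ℂ).toRingHom
    (aeval z : MvPolynomial ι ℂ →ₐ[ℂ] K).toRingHom (X i')
  change aeval z (relPoly i i' N) = _ at h
  rw [h]
  have h2 : ((aeval z : MvPolynomial ι ℂ →ₐ[ℂ] K).toRingHom.comp
      (Polynomial.aeval (X i) : Polynomial ℂ →ₐ[ℂ] MvPolynomial ι ℂ).toRingHom) =
      (Polynomial.aeval (z i) : Polynomial ℂ →ₐ[ℂ] K).toRingHom := by
    have h3 : ((aeval z : MvPolynomial ι ℂ →ₐ[ℂ] K).comp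
      (Polynomial.aeval (X i) : Polynomial ℂ →ₐ[ℂ] MvPolynomial ι ℂ)) =
      (Polynomial.aeval (z i) : Polynomial ℂ →ₐ[ℂ] K) := by
      apply Polynomial.algHom_ext
      simp
    exact congrArg AlgHom.toRingHom h3
  rw [h2]
  congr 1
  exact aeval_X z i'

theorem eval_relPoly {ι : Type} (i i' : ι) (N : ℕ) (x : ι → ℂ) :
    eval x (relPoly i i' N) = Polynomial.eval₂
      (Polynomial.aeval (x i) : Polynomial ℂ →ₐ[ℂ] ℂ).toRingHom (x i') (Psi N) := by
  rw [← aeval_relPoly i i' N x, aeval_eq_eval]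

/-- the relation between two coordinates of the same class holds at the points of a special
subvariety -/
theorem eval_relPoly_eq_zero {ι : Type} {i i' : ι} {x : ι → ℂ} {z w w' : ℍ}
    {g g' : Matrix (Fin 2) (Fin 2) ℤ} (hg : 0 < g.det) (hg' : 0 < g'.det)
    (hw : (w : ℂ) * (g 1 0 * z + g 1 1) = g 0 0 * z + g 0 1)
    (hw' : (w' : ℂ) * (g' 1 0 * z + g' 1 1) = g' 0 0 * z + g' 0 1)
    (hx : x i = jj w) (hx' : x i' = jj w') :
    eval x (relPoly i i' (g.det * g'.det).toNat) = 0 := by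
  rw [eval_relPoly, hx, hx']
  obtain ⟨a, b, c, d, h1, h2⟩ := isogeny_rel hg hw hw'
  have hpos : 0 < g.det * g'.det := mul_pos hg hg'
  have hN : 0 < (g.det * g'.det).toNat := by omega
  refine (Psi_spec hN).2.1 w w' a b c d ?_ h2
  rw [h1, Int.toNat_of_nonneg hpos.le]

/-- characters of a generic point -/
theorem chi_generic {ι : Type} {k : ℕ} (s : Fin k → ι) {A : Set (ι → ℂ)} {K : Type} [Field K]
    [Algebra ℂ K] (z : ι → K) (hz : ∀ f, aeval z f = 0 ↔ f ∈ idealOf A)
    (hz0 : ∀ i, z (s i) ≠ 0) (a : Fin k → ℤ) (ε : ℂ)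
    (h : ∀ x ∈ A, (∀ i, x (s i) ≠ 0) ∧ chi (fun i => x (s i)) a = ε) :
    chi (fun i => z (s i)) a = algebraMap ℂ K ε := by
  classical
  have h1 : (∏ i, X (s i) ^ (a i).toNat - C ε * ∏ i, X (s i) ^ (-a i).toNat :
      MvPolynomial ι ℂ) ∈ idealOf A := by
    rw [mem_idealOf]
    intro x hx
    obtain ⟨hx0, h2⟩ := h x hx
    have h3 : (∏ i, x (s i) ^ (a i).toNat) = ε * ∏ i, x (s i) ^ (-a i).toNat := by
      rw [← h2, chi, ← Finset.prod_mul_distrib]
      refine Finset.prod_congr rfl fun i _ => ?_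
      rw [← zpow_natCast, ← zpow_natCast, ← zpow_add₀ (hx0 i)]
      congr 1
      omega
    simp only [map_sub, map_mul, map_prod, map_pow, eval_X, eval_C]
    rw [h3, sub_self]
  have h4 := (hz _).2 h1
  rw [map_sub, sub_eq_zero, map_mul, aeval_C] at h4
  simp only [map_prod, map_pow, aeval_X] at h4
  have h7 : chi (fun i => z (s i)) a * ∏ i, z (s i) ^ (-a i).toNat =
      ∏ i, z (s i) ^ (a i).toNat := by
    rw [chi, ← Finset.prod_mul_distrib]
    refine Finset.prod_congr rfl fun i _ => ?_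
    rw [← zpow_natCast, ← zpow_natCast, ← zpow_add₀ (hz0 i)]
    congr 1
    omega
  have h8 : (∏ i, z (s i) ^ (-a i).toNat) ≠ 0 :=
    Finset.prod_ne_zero_iff.2 fun i _ => pow_ne_zero _ (hz0 i)
  exact mul_right_cancel₀ h8 (h7.trans h4)

/-- The constants allowed in a special subvariety (with respect to a finite set `Γ`): the special
points `j(τ)`, `τ` a CM point, the `j(w)` with `w = (a τ + b) / (c τ + d)` and `j(τ)` in `Γ`
(isogenous to an element of `Γ`), and the numbers integral over `ℤ[Γ]`. -/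
def AllowedConst (Γ : Finset ℂ) (x : ℂ) : Prop :=
  (∃ τ : ℍ, IsCM τ ∧ x = jj τ) ∨
  (∃ (τ w : ℍ) (a b c d : ℤ), jj τ ∈ Γ ∧ 0 < a * d - b * c ∧
    (w : ℂ) * (c * τ + d) = a * τ + b ∧ x = jj w) ∨
  IsIntegral (Algebra.adjoin ℤ (Γ : Set ℂ)) x

theorem AllowedConst.isIntegral {Γ : Finset ℂ} {x : ℂ} (h : AllowedConst Γ x) :
    IsIntegral (Algebra.adjoin ℤ (Γ : Set ℂ)) x := by
  rcases h with ⟨τ, hτ, rfl⟩ | ⟨τ, w, a, b, c, d, hΓ, hdet, hw, rfl⟩ | h
  · exact (singular_modulus_integral τ hτ).tower_top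
  · obtain ⟨p, hp, hpe⟩ := isogenous_integral τ w a b c d hdet hw
    have hle : Algebra.adjoin ℤ {jj τ} ≤ Algebra.adjoin ℤ (Γ : Set ℂ) :=
      Algebra.adjoin_mono (Set.singleton_subset_iff.2 hΓ)
    refine ⟨p.map (Subalgebra.inclusion hle).toRingHom, hp.map _, ?_⟩
    rw [Polynomial.eval₂_map]
    exact hpe
  · exact h

end Pool.Agent.W282.ZP
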