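import Pool.Agent.W282.ZP.Red

/-!
# Pull-backs by rational functions in each coordinate
-/

set_option autoImplicit false

open MvPolynomial

namespace Pool.Agent.W282.ZP

/-- The value of the polynomial with integer coefficients `c 0, …, c m`. -/
def pev {R : Type*} [CommRing R] {m : ℕ} (c : Fin (m + 1) → ℤ) (x : R) : R :=
  ∑ k, (c k : R) * x ^ (k : ℕ)

theorem map_pev {R S : Type*} [CommRing R] [CommRing S] (φ : R →+* S) {m : ℕ}
    (c : Fin (m + 1) → ℤ) (x : R) : φ (pev c x) = pev c (φ x) := by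
  simp [pev]

/-- the coefficients of the numerators and denominators of rational functions of degree at most
`D i` in the coordinate `i` -/
abbrev Idx {ι : Type} (D : ι → ℕ) : Type := Σ i, Fin 2 × Fin (D i + 1)

/-- The polynomial `∑ coeff_k ∏ N_i(X_i)^(k_i) M_i(X_i)^(D - k_i)`, where `N_i / M_i` is the
rational function of the coordinate `i`. -/
noncomputable def rpull {ι : Type} {D : ι → ℕ} (c : Idx D → ℤ) {J : Finset ι}
    (f : MvPolynomial J ℂ) : MvPolynomial ι ℂ :=
  ∑ k ∈ f.support, C (f.coeff k) * ∏ i : J,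
    (pev (fun l => c ⟨i, 0, l⟩) (X (i : ι)) ^ (k i) *
      pev (fun l => c ⟨i, 1, l⟩) (X (i : ι)) ^ (f.totalDegree - k i))

theorem aeval_rpull {K : Type*} [Field K] [Algebra ℂ K] {ι : Type} {D : ι → ℕ}
    (c : Idx D → ℤ) {J : Finset ι} (f : MvPolynomial J ℂ) (z : ι → K)
    (ht : ∀ i ∈ J, pev (fun l => c ⟨i, 1, l⟩) (z i) ≠ 0) :
    aeval z (rpull c f) = (∏ i : J, pev (fun l => c ⟨i, 1, l⟩) (z i)) ^ f.totalDegree *
      aeval (fun i : J => pev (fun l => c ⟨i, 0, l⟩) (z i) /
        pev (fun l => c ⟨i, 1, l⟩) (z i)) f := by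
  classical
  have hpev : ∀ (i : ι) (s : Fin 2), aeval z (pev (fun l => c ⟨i, s, l⟩)
      (X i : MvPolynomial ι ℂ)) = pev (fun l => c ⟨i, s, l⟩) (z i) := by
    intro i s
    have h := map_pev (aeval z : MvPolynomial ι ℂ →ₐ[ℂ] K).toRingHom (fun l => c ⟨i, s, l⟩) (X i)
    change aeval z _ = pev _ (aeval z (X i)) at h
    rw [h, aeval_X]
  rw [rpull, map_sum, aeval_def, eval₂_eq', Finset.mul_sum]
  refine Finset.sum_congr rfl fun k hk => ?_
  rw [map_mul, map_prod, aeval_C]
  simp only [map_mul, map_pow, hpev]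
  rw [← Finset.prod_pow, mul_left_comm]
  congr 1
  rw [← Finset.prod_mul_distrib]
  refine Finset.prod_congr rfl fun i _ => ?_
  have hk' : k i ≤ f.totalDegree := by
    refine le_trans ?_ (le_totalDegree hk)
    rw [Finsupp.sum_fintype _ _ (fun _ => rfl)]
    exact Finset.single_le_sum (f := fun i => k i) (fun _ _ => Nat.zero_le _) (Finset.mem_univ i)
  have hti := ht i i.2
  rw [div_pow, ← mul_div_assoc, eq_div_iff (pow_ne_zero _ hti), mul_assoc, ← pow_add,
    Nat.sub_add_cancel hk', mul_comm]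

/-- a sum with one dominating term -/
theorem val_sum_sub_lt {K κ : Type*} [Field K] (B : ValuationSubring K) (s : Finset κ)
    (g : κ → K) (E : κ → ℕ) (w : K) (hw : B.valuation w < 1) (hg : ∀ k ∈ s, B.valuation (g k) ≤ 1)
    (k₀ : κ) (hk₀ : k₀ ∈ s) (h0 : E k₀ = 0) (hE : ∀ k ∈ s, k ≠ k₀ → E k ≠ 0) :
    B.valuation (∑ k ∈ s, g k * w ^ E k - g k₀) < 1 := by
  classical
  rw [← Finset.add_sum_erase s _ hk₀, h0, pow_zero, mul_one, add_sub_cancel_left]
  refine B.valuation.map_sum_lt one_ne_zero fun k hk => ?_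
  rw [Finset.mem_erase] at hk
  rw [map_mul, map_pow]
  calc B.valuation (g k) * B.valuation w ^ E k ≤ 1 * B.valuation w ^ E k := by
        gcongr; exact hg k hk.2
    _ = B.valuation w ^ E k := one_mul _
    _ < 1 := pow_lt_one₀ zero_le hw (hE k hk.2 hk.1)

/-- from congruences of numerator and denominator to a congruence of the quotient -/
theorem val_div_sub_lt {K : Type*} [Field K] (B : ValuationSubring K) (N M γ : K)
    (hγ : B.valuation γ ≤ 1) (hN : B.valuation (N - γ) < 1) (hM : B.valuation (M - 1) < 1) :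
    M ≠ 0 ∧ B.valuation (N / M - γ) < 1 := by
  have h1 : B.valuation M = 1 := by
    have h2 : M = 1 + (M - 1) := by ring
    rw [h2, Valuation.map_add_eq_of_lt_left, map_one]
    rw [map_one]; exact hM
  have h0 : M ≠ 0 := by
    rintro rfl
    rw [map_zero] at h1
    exact zero_ne_one h1
  refine ⟨h0, ?_⟩
  have h3 : N / M - γ = ((N - γ) - γ * (M - 1)) / M := by field_simp; ring
  rw [h3, map_div₀, h1, div_one]
  refine lt_of_le_of_lt (Valuation.map_sub _ _ _) (max_lt hN ?_)
  rw [map_mul]
  calc B.valuation γ * B.valuation (M - 1) ≤ 1 * B.valuation (M - 1) := by gcongr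
    _ = B.valuation (M - 1) := one_mul _
    _ < 1 := hM

/-- the residues of the coefficients -/
def tgt {m : ℕ} (x y : ℤ) (k : Fin (m + 1)) : ℤ :=
  if (k : ℕ) = 0 then x else if (k : ℕ) = m then y else 0

/-- The dichotomy at one coordinate: either the coordinate has a pole of exact order `e`, or its
image reduces to `α` or `β`. -/
theorem rtypical_or {K : Type*} [Field K] [CharZero K] (B : ValuationSubring K) (p e m : ℕ)
    (hm : 0 < m) (hp : B.valuation (p : K) < 1) (hp0 : p ≠ 0) (α β : ℤ)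
    (cn cd : Fin (m + 1) → ℤ)
    (hn : ∀ k : Fin (m + 1), ((p : ℤ) ^ (e * k + 1)) ∣ cn k - p ^ (e * k) * tgt α β k)
    (hd : ∀ k : Fin (m + 1), ((p : ℤ) ^ (e * k + 1)) ∣ cd k - p ^ (e * k) * tgt 1 1 k) (z : K) :
    B.valuation z * B.valuation (p : K) ^ e = 1 ∨ (pev cd z ≠ 0 ∧
      (B.valuation (pev cn z / pev cd z - (α : K)) < 1 ∨
       B.valuation (pev cn z / pev cd z - (β : K)) < 1)) := by
  set v := B.valuation with hv
  have hint : ∀ a : ℤ, v (a : K) ≤ 1 := fun a =>
    (B.valuation_le_one_iff _).2 (intCast_mem B a)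
  have hpK : (p : K) ≠ 0 := by exact_mod_cast hp0
  set t : K := (p : K) ^ e * z with ht
  have hvt : v t = v z * v (p : K) ^ e := by rw [ht, map_mul, map_pow, mul_comm]
  -- expansions in `t`
  have hexp : ∀ (c : Fin (m + 1) → ℤ) (x y : ℤ),
      (∀ k : Fin (m + 1), ((p : ℤ) ^ (e * k + 1)) ∣ c k - p ^ (e * k) * tgt x y k) →
      ∃ l : Fin (m + 1) → ℤ, pev c z = ∑ k : Fin (m + 1),
        (((tgt x y k + p * l k : ℤ)) : K) * t ^ (k : ℕ) := by
    intro c x y hc
    choose l hl using hc
    refine ⟨l, Finset.sum_congr rfl fun k _ => ?_⟩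
    have h1 : c k = p ^ (e * k) * (tgt x y k + p * l k) := by
      have := hl k
      rw [pow_succ] at this
      linear_combination this
    rw [h1, ht, mul_pow, ← pow_mul]
    push_cast
    ring
  obtain ⟨ln, hln⟩ := hexp cn α β hn
  obtain ⟨ld, hld⟩ := hexp cd 1 1 hd
  have hsmall : ∀ a b : ℤ, v ((a : K) - ((a + p * b : ℤ) : K)) < 1 := by
    intro a b
    have h1 : (a : K) - ((a + p * b : ℤ) : K) = -((p : K) * (b : K)) := by push_cast; ring
    rw [h1, Valuation.map_neg, map_mul]
    calc v (p : K) * v (b : K) ≤ v (p : K) * 1 := by gcongr; exact hint b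
      _ = v (p : K) := mul_one _
      _ < 1 := hp
  have hcomb : ∀ a b c : K, v (a - b) < 1 → v (c - b) < 1 → v (a - c) < 1 := by
    intro a b c h1 h2
    have h3 : a - c = (a - b) - (c - b) := by ring
    rw [h3]
    exact lt_of_le_of_lt (Valuation.map_sub _ _ _) (max_lt h1 h2)
  rcases lt_trichotomy (v t) 1 with h | h | h
  · -- the point reduces to `0`
    right
    have hres : ∀ (x y : ℤ) (l : Fin (m + 1) → ℤ), v ((∑ k : Fin (m + 1),
        (((tgt x y k + p * l k : ℤ)) : K) * t ^ (k : ℕ)) - (x : K)) < 1 := by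
      intro x y l
      have h1 := val_sum_sub_lt B Finset.univ (fun k : Fin (m + 1) =>
        (((tgt x y k + p * l k : ℤ)) : K)) (fun k => (k : ℕ)) t h (fun k _ => hint _) 0
        (Finset.mem_univ _) rfl (fun k _ hk => by
          intro h0; exact hk (Fin.ext h0))
      have h2 : tgt x y (0 : Fin (m + 1)) = x := by simp [tgt]
      rw [h2] at h1
      exact hcomb _ _ _ h1 (hsmall x _)
    have hN := hres α β ln
    have hD := hres 1 1 ld
    rw [← hln] at hN
    rw [← hld, Int.cast_one] at hD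
    obtain ⟨h3, h4⟩ := val_div_sub_lt B (pev cn z) (pev cd z) (α : K) (hint α) hN hD
    exact ⟨h3, Or.inl h4⟩
  · left
    rw [← hvt, h]
  · -- the point reduces to `∞`
    right
    have ht0 : t ≠ 0 := by
      rintro h0
      rw [h0, map_zero] at h
      exact absurd h (not_lt.2 zero_le_one)
    have hw : v t⁻¹ < 1 := by
      rw [map_inv₀]
      exact inv_lt_one_of_one_lt₀ h
    have hres : ∀ (x y : ℤ) (l : Fin (m + 1) → ℤ), v ((∑ k : Fin (m + 1),
        (((tgt x y k + p * l k : ℤ)) : K) * t ^ (k : ℕ)) / t ^ m - (y : K)) < 1 := by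
      intro x y l
      have h1 := val_sum_sub_lt B Finset.univ (fun k : Fin (m + 1) =>
        (((tgt x y k + p * l k : ℤ)) : K)) (fun k => m - (k : ℕ)) t⁻¹ hw (fun k _ => hint _)
        (Fin.last m) (Finset.mem_univ _) (by simp) (fun k _ hk => by
          intro h0
          apply hk
          apply Fin.ext
          have := k.2
          simp only [Fin.val_last]
          omega)
      have h2 : tgt x y (Fin.last m) = y := by
        simp [tgt, hm.ne']
      rw [h2] at h1
      have h3 : (∑ k : Fin (m + 1), (((tgt x y k + p * l k : ℤ)) : K) * t ^ (k : ℕ)) / t ^ m =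
          ∑ k : Fin (m + 1), (((tgt x y k + p * l k : ℤ)) : K) * t⁻¹ ^ (m - (k : ℕ)) := by
        rw [Finset.sum_div]
        refine Finset.sum_congr rfl fun k _ => ?_
        have hk : (k : ℕ) ≤ m := Nat.lt_succ_iff.1 k.2
        rw [mul_div_assoc]
        congr 1
        rw [inv_pow, ← one_div, div_eq_div_iff (pow_ne_zero _ ht0) (pow_ne_zero _ ht0), one_mul,
          ← pow_add, Nat.add_sub_cancel' hk]
      rw [h3]
      exact hcomb _ _ _ h1 (hsmall y _)
    have hN := hres α β ln
    have hD := hres 1 1 ld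
    rw [← hln] at hN
    rw [← hld, Int.cast_one] at hD
    obtain ⟨h3, h4⟩ := val_div_sub_lt B (pev cn z / t ^ m) (pev cd z / t ^ m) (β : K) (hint β)
      hN hD
    have htm : t ^ m ≠ 0 := pow_ne_zero _ ht0
    rw [div_div_div_cancel_right₀ htm] at h4
    refine ⟨?_, Or.inr h4⟩
    intro h5
    rw [h5, zero_div] at h3
    exact h3 rfl

/-- A valuation ring of `K` above a valuation ring of `ℂ`, in which given algebraically
independent elements are units. -/
theorem exists_above_unit {K ι : Type*} [Field K] [Algebra ℂ K] (O : ValuationSubring ℂ)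
    (y : ι → K) (hy : AlgebraicIndependent ℂ y) :
    ∃ B : ValuationSubring K, (∀ c : ℂ, O.valuation c ≤ 1 → B.valuation (algebraMap ℂ K c) ≤ 1) ∧
      (∀ c : ℂ, O.valuation c < 1 → B.valuation (algebraMap ℂ K c) < 1) ∧
      ∀ i, B.valuation (y i) = 1 := by
  set e : MvPolynomial ι O →+* K := eval₂Hom ((algebraMap ℂ K).comp O.subtype) y with he
  have hemap : ∀ r : MvPolynomial ι O, e r = aeval y (map O.subtype r) := by
    intro r
    rw [he, coe_eval₂Hom, aeval_def, eval₂_map]
  have heinj : Function.Injective e := by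
    intro a b h
    rw [hemap, hemap] at h
    exact map_injective O.subtype Subtype.val_injective (hy h)
  let e' : MvPolynomial ι O →+* e.range := e.rangeRestrict
  have hsurj : Function.Surjective e' := e.rangeRestrict_surjective
  have hinj : Function.Injective e' := fun a b h => heinj (congrArg Subtype.val h)
  let ρ : MvPolynomial ι O →+* IsLocalRing.ResidueField O :=
    (IsLocalRing.residue O).comp (eval fun _ => 1)
  let I : Ideal e.range := (RingHom.ker ρ).map e'
  have hI : I ≠ ⊤ := by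
    intro h
    have h1 : (1 : e.range) ∈ I := h ▸ Submodule.mem_top
    rw [Ideal.mem_map_iff_of_surjective e' hsurj] at h1
    obtain ⟨x, hx, hx1⟩ := h1
    have h2 : x = 1 := hinj (by rw [hx1, map_one])
    rw [h2, RingHom.mem_ker, map_one] at hx
    exact one_ne_zero hx
  obtain ⟨B, hB, hnon⟩ := Ideal.image_subset_nonunits_valuationSubring I hI
  have h1 : ∀ r : MvPolynomial ι O, B.valuation (e r) ≤ 1 := fun r =>
    (B.valuation_le_one_iff _).2 (hB ⟨r, rfl⟩)
  have h2 : ∀ r : MvPolynomial ι O, ρ r = 0 → B.valuation (e r) < 1 := by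
    intro r hr
    exact hnon ⟨e' r, Ideal.mem_map_of_mem _ (by rwa [RingHom.mem_ker]), rfl⟩
  refine ⟨B, ?_, ?_, ?_⟩
  · intro c hc
    have h3 := h1 (C ⟨c, (O.valuation_le_one_iff c).1 hc⟩)
    rwa [he, eval₂Hom_C] at h3
  · intro c hc
    have h3 := h2 (C ⟨c, (O.valuation_le_one_iff c).1 hc.le⟩) (by
      simp only [ρ, RingHom.comp_apply, eval_C]
      rw [IsLocalRing.residue_eq_zero_iff, ValuationSubring.valuation_lt_one_iff]
      exact hc)
    rwa [he, eval₂Hom_C] at h3
  · intro i
    have h3 := h2 (X i - 1) (by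
      simp only [ρ, RingHom.comp_apply, map_sub, eval_X, map_one, sub_self])
    rw [map_sub, map_one, he, eval₂Hom_X'] at h3
    have h4 : y i = 1 + (y i - 1) := by ring
    rw [h4, Valuation.map_add_eq_of_lt_left, map_one]
    rw [map_one]; exact h3

end Pool.Agent.W282.ZP
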