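import Pool.Agent.W282.ZP.Choice
import Pool.Agent.W282.ZP.Pull

/-!
# Choice of the reduction data, for rational functions of any degree
-/

set_option autoImplicit false

open MvPolynomial

namespace Pool.Agent.W282.ZP

/-- For every set `J` of `d + 1` coordinates there is a relation `f J` between the coordinates in
`J`, and integers `α_i`, `β_i` such that `f J` does not vanish at the corners. -/
theorem exists_corners' {ι : Type} [Fintype ι] {d : ℕ} (P : Ideal (MvPolynomial ι ℂ)) [P.IsPrime]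
    (hd : Algebra.trdeg ℂ (MvPolynomial ι ℂ ⧸ P) = d) :
    ∃ (f : ∀ J : Finset ι, MvPolynomial J ℂ) (α β : ι → ℤ), (∀ i, α i ≠ β i) ∧
      ∀ J : Finset ι, J.card = d + 1 → rename (Subtype.val : J → ι) (f J) ∈ P ∧
        ∀ c : ι → Bool,
          eval (fun i : J => (((if c i then α i else β i : ℤ)) : ℂ)) (f J) ≠ 0 := by
  classical
  have h1 : ∀ J : Finset ι, ∃ f : MvPolynomial J ℂ, f ≠ 0 ∧
      (J.card = d + 1 → rename (Subtype.val : J → ι) f ∈ P) := by
    intro J
    by_cases hJ : J.card = d + 1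
    · have hdep : ¬ AlgebraicIndependent ℂ
          (fun i : J => (Ideal.Quotient.mk P (X (i : ι)) : MvPolynomial ι ℂ ⧸ P)) := by
        intro h
        have h2 := h.cardinalMk_le_trdeg
        rw [hd, Cardinal.mk_fintype, Fintype.card_coe, hJ] at h2
        have h3 : d + 1 ≤ d := by exact_mod_cast h2
        omega
      rw [algebraicIndependent_iff] at hdep
      push Not at hdep
      obtain ⟨f, hf1, hf2⟩ := hdep
      refine ⟨f, hf2, fun _ => ?_⟩
      rw [← Ideal.Quotient.eq_zero_iff_mem, ← hf1]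
      have h4 : (Ideal.Quotient.mkₐ ℂ P).comp (rename (Subtype.val : J → ι)) =
          aeval (fun i : J => (Ideal.Quotient.mk P (X (i : ι)))) := by
        ext i
        simp
      exact DFunLike.congr_fun h4 f
    · exact ⟨1, one_ne_zero, fun h => absurd h hJ⟩
  choose f hf0 hfP using h1
  let F : MvPolynomial (ι × Bool) ℂ :=
    (∏ J : Finset ι, ∏ c : ι → Bool, rename (fun i : J => ((i : ι), c i)) (f J)) *
      ∏ i : ι, (X (i, true) - X (i, false))
  have hF : F ≠ 0 := by
    refine mul_ne_zero (Finset.prod_ne_zero_iff.2 fun J _ => Finset.prod_ne_zero_iff.2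
      fun c _ => ?_) (Finset.prod_ne_zero_iff.2 fun i _ => ?_)
    · have hinj : Function.Injective (fun i : J => ((i : ι), c i)) := by
        intro i i' h
        exact Subtype.ext (congrArg Prod.fst h)
      intro h
      exact hf0 J (rename_injective _ hinj (by rw [h, map_zero]))
    · intro h
      rw [sub_eq_zero] at h
      have h2 : ((i, true) : ι × Bool) = (i, false) := X_injective h
      simp at h2
  obtain ⟨a, ha⟩ : ∃ a : ι × Bool → ℤ, eval (fun i => (a i : ℂ)) F ≠ 0 := by
    by_contra hcon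
    push Not at hcon
    apply hF
    refine MvPolynomial.funext_set (fun _ => Set.range fun k : ℤ => (k : ℂ)) (fun _ => ?_) ?_
    · exact Set.infinite_range_of_injective Int.cast_injective
    · intro x hx
      rw [map_zero]
      have h2 : ∀ i, ∃ k : ℤ, (k : ℂ) = x i := fun i => hx i (Set.mem_univ i)
      choose k hk using h2
      have h3 : x = fun i => (k i : ℂ) := funext fun i => (hk i).symm
      rw [h3]
      exact hcon k
  simp only [F, map_mul, map_prod, map_sub, eval_X] at ha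
  have hA := left_ne_zero_of_mul ha
  have hB := right_ne_zero_of_mul ha
  rw [Finset.prod_ne_zero_iff] at hA hB
  refine ⟨f, fun i => a (i, true), fun i => a (i, false), fun i h => ?_, fun J hJ =>
    ⟨hfP J hJ, ?_⟩⟩
  · have h2 := hB i (Finset.mem_univ i)
    have h' : a (i, true) = a (i, false) := h
    rw [h', sub_self] at h2
    exact h2 rfl
  intro c
  have h2 := hA J (Finset.mem_univ J)
  rw [Finset.prod_ne_zero_iff] at h2
  have h3 := h2 c (Finset.mem_univ c)
  rw [eval_rename] at h3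
  have h4 : ((fun i => (a i : ℂ)) ∘ fun i : J => ((i : ι), c i)) =
      fun i : J => (((if c i then a ((i : ι), true) else a ((i : ι), false) : ℤ)) : ℂ) := by
    funext i
    simp only [Function.comp_apply]
    cases c i <;> simp
  rw [h4] at h3
  exact h3

/-- A residue class with prescribed residues modulo powers of finitely many primes and modulo
`Q₀`. -/
theorem exists_residue_class' {κ : Type} [Fintype κ] {M : ℕ} (p : Fin M → ℕ)
    (hp : ∀ m, (p m).Prime) (hinj : Function.Injective p) (E : Fin M → κ → ℕ) (t : Fin M → κ → ℤ)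
    (Q₀ : ℕ) (hQ₀ : 0 < Q₀) (hlt : ∀ m, Q₀ < p m) (g₀ : κ → ℤ) :
    ∃ (Q : ℕ) (G : κ → ℤ), 0 < Q ∧ ∀ g : κ → ℤ, (∀ i, (Q : ℤ) ∣ g i - G i) →
        (∀ i, (Q₀ : ℤ) ∣ g i - g₀ i) ∧ ∀ m i, (p m : ℤ) ^ E m i ∣ g i - t m i := by
  classical
  let tg : κ → Option (Fin M) → ℤ := fun i o =>
    match o with
    | none => g₀ i
    | some m => t m i
  let md : κ → Option (Fin M) → ℤ := fun i o =>
    match o with
    | none => Q₀
    | some m => (p m : ℤ) ^ E m i
  have hcop : ∀ i, Pairwise (Function.onFun IsCoprime fun o => Ideal.span {md i o}) := by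
    intro i o o' hne
    rw [Function.onFun, Ideal.isCoprime_span_singleton_iff]
    cases o with
    | none =>
      cases o' with
      | none => exact absurd rfl hne
      | some m =>
        change IsCoprime (Q₀ : ℤ) ((p m : ℤ) ^ E m i)
        apply IsCoprime.pow_right
        rw [Nat.isCoprime_iff_coprime, Nat.coprime_comm, (hp m).coprime_iff_not_dvd]
        intro h
        exact absurd (Nat.le_of_dvd hQ₀ h) (not_le.2 (hlt m))
    | some m =>
      cases o' with
      | none =>
        change IsCoprime ((p m : ℤ) ^ E m i) (Q₀ : ℤ)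
        apply IsCoprime.pow_left
        rw [Nat.isCoprime_iff_coprime, (hp m).coprime_iff_not_dvd]
        intro h
        exact absurd (Nat.le_of_dvd hQ₀ h) (not_le.2 (hlt m))
      | some m' =>
        change IsCoprime ((p m : ℤ) ^ E m i) ((p m' : ℤ) ^ E m' i)
        apply IsCoprime.pow
        rw [Nat.isCoprime_iff_coprime, Nat.coprime_primes (hp m) (hp m')]
        intro h
        exact hne (by rw [hinj h])
  have hcrt : ∀ i, ∃ x : ℤ, ∀ o, md i o ∣ x - tg i o := by
    intro i
    obtain ⟨x, hx⟩ := Ideal.exists_forall_sub_mem_ideal (hcop i) (fun o => tg i o)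
    exact ⟨x, fun o => Ideal.mem_span_singleton.1 (hx o)⟩
  choose G hG using hcrt
  let Q : ℕ := Q₀ * ∏ m, ∏ i, p m ^ E m i
  have hQ : 0 < Q := Nat.mul_pos hQ₀ (Finset.prod_pos fun m _ => Finset.prod_pos fun i _ =>
    pow_pos (hp m).pos _)
  refine ⟨Q, G, hQ, fun g hg => ?_⟩
  have hdvd : ∀ i o, md i o ∣ (Q : ℤ) := by
    intro i o
    cases o with
    | none =>
      change ((Q₀ : ℕ) : ℤ) ∣ (Q : ℤ)
      exact_mod_cast Dvd.intro _ rfl
    | some m =>
      change ((p m : ℤ) ^ E m i) ∣ (Q : ℤ)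
      have h1 : p m ^ E m i ∣ Q :=
        ((Finset.dvd_prod_of_mem (fun i => p m ^ E m i) (Finset.mem_univ i)).trans
          (Finset.dvd_prod_of_mem (fun m => ∏ i, p m ^ E m i) (Finset.mem_univ m))).trans
          (Dvd.intro_left _ rfl)
      exact_mod_cast h1
  have hall : ∀ i o, md i o ∣ g i - tg i o := by
    intro i o
    have h1 := (hdvd i o).trans (hg i)
    have h3 := dvd_add h1 (hG i o)
    rwa [sub_add_sub_cancel] at h3
  exact ⟨fun i => hall i none, fun m i => hall i (some m)⟩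

/-- A residue class has positive density in every box. -/
theorem pos_proportion' {κ : Type} [Fintype κ] (Q : ℕ) (hQ : 0 < Q) (G : κ → ℤ)
    (Good : (κ → ℤ) → Prop) (h : ∀ g : κ → ℤ, (∀ i, (Q : ℤ) ∣ g i - G i) → Good g)
    (u : κ → ℝ) (ε : ℝ) (hε : 0 < ε) :
    ∃ δ : ℝ, 0 < δ ∧ ∀ᶠ H : ℕ in Filter.atTop,
      δ * (H : ℝ) ^ Fintype.card κ ≤ Nat.card {g : κ → ℤ //
        (∀ i, |(g i : ℝ) - H * u i| ≤ ε * H) ∧ Good g} := by
  classical
  have hQr : (0 : ℝ) < Q := by exact_mod_cast hQ
  refine ⟨(ε / (2 * (Q : ℝ))) ^ Fintype.card κ, by positivity, ?_⟩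
  filter_upwards [Filter.eventually_ge_atTop ⌈(Q : ℝ) / ε⌉₊] with H hH
  have hHr : (Q : ℝ) / ε ≤ H := (Nat.le_ceil _).trans (by exact_mod_cast hH)
  have h1Q : 1 ≤ ε * H / Q := by
    rw [le_div_iff₀ hQr, one_mul]
    rw [div_le_iff₀ hε] at hHr
    linarith
  set L : ℕ := ⌊ε * H / Q⌋₊ with hL
  have hL1 : 1 ≤ L := by
    rw [hL, Nat.one_le_floor_iff]
    exact h1Q
  have hfin : Finite {g : κ → ℤ // (∀ i, |(g i : ℝ) - H * u i| ≤ ε * H) ∧ Good g} := by
    have h1 : (Set.pi Set.univ fun i : κ =>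
        Set.Icc ⌊(H * u i - ε * H : ℝ)⌋ ⌈(H * u i + ε * H : ℝ)⌉).Finite :=
      Set.Finite.pi fun _ => Set.finite_Icc _ _
    refine Set.Finite.subset h1 fun g hg i _ => ?_
    have h2 := abs_le.1 (hg.1 i)
    rw [Set.mem_Icc]
    constructor
    · have h3 : ((⌊(H * u i - ε * H : ℝ)⌋ : ℤ) : ℝ) ≤ g i := (Int.floor_le _).trans (by linarith)
      exact_mod_cast h3
    · have h3 : (g i : ℝ) ≤ ((⌈(H * u i + ε * H : ℝ)⌉ : ℤ) : ℝ) :=
        le_trans (by linarith) (Int.le_ceil _)
      exact_mod_cast h3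
  let base : κ → ℤ := fun i => G i + Q * ⌈((H : ℝ) * u i - G i) / Q⌉
  have hbase : ∀ i, (H : ℝ) * u i ≤ base i ∧ (base i : ℝ) ≤ H * u i + Q := by
    intro i
    have h2 := Int.le_ceil (((H : ℝ) * u i - G i) / Q)
    have h3 := Int.ceil_lt_add_one (((H : ℝ) * u i - G i) / Q)
    rw [div_le_iff₀ hQr] at h2
    have h4 : ((⌈((H : ℝ) * u i - G i) / Q⌉ : ℤ) : ℝ) - 1 < ((H : ℝ) * u i - G i) / Q := by
      linarith
    rw [lt_div_iff₀ hQr] at h4
    simp only [base]
    push_cast
    constructor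
    · nlinarith
    · nlinarith
  let φ : (κ → Fin L) → {g : κ → ℤ // (∀ i, |(g i : ℝ) - H * u i| ≤ ε * H) ∧ Good g} :=
    fun k => ⟨fun i => base i + Q * ((k i : ℕ) : ℤ), by
      refine ⟨fun i => ?_, h _ fun i => ?_⟩
      · obtain ⟨h2, h3⟩ := hbase i
        have h4 : ((k i : ℕ) : ℝ) + 1 ≤ L := by exact_mod_cast (k i).2
        have h5 : (L : ℝ) ≤ ε * H / Q := Nat.floor_le (by positivity)
        have h6 : (Q : ℝ) * L ≤ ε * H := by
          rw [le_div_iff₀ hQr] at h5
          linarith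
        have h7 : (0 : ℝ) ≤ ((k i : ℕ) : ℝ) := Nat.cast_nonneg _
        push_cast
        rw [abs_le]
        constructor
        · nlinarith
        · nlinarith
      · refine ⟨⌈((H : ℝ) * u i - G i) / Q⌉ + ((k i : ℕ) : ℤ), ?_⟩
        simp only [base]
        ring⟩
  have hφ : Function.Injective φ := by
    intro k l hkl
    funext i
    have h2 : base i + Q * ((k i : ℕ) : ℤ) = base i + Q * ((l i : ℕ) : ℤ) :=
      congrFun (congrArg Subtype.val hkl) i
    have h3 : (Q : ℤ) ≠ 0 := by exact_mod_cast hQ.ne'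
    have h4 : ((k i : ℕ) : ℤ) = ((l i : ℕ) : ℤ) := mul_left_cancel₀ h3 (by linarith)
    exact Fin.ext (by exact_mod_cast h4)
  have hcard := Nat.card_le_card_of_injective φ hφ
  have hcard2 : Nat.card (κ → Fin L) = L ^ Fintype.card κ := by
    simp [Nat.card_eq_fintype_card]
  rw [hcard2] at hcard
  have h1 : (ε / (2 * (Q : ℝ))) * H ≤ (L : ℝ) := by
    have h2 : ε * H / Q < (L : ℝ) + 1 := Nat.lt_floor_add_one _
    have h5 : (1 : ℝ) ≤ (L : ℝ) := by exact_mod_cast hL1
    have h6 : (ε / (2 * (Q : ℝ))) * H = (ε * H / Q) / 2 := by field_simp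
    rw [h6]
    linarith
  calc (ε / (2 * (Q : ℝ))) ^ Fintype.card κ * (H : ℝ) ^ Fintype.card κ =
        ((ε / (2 * (Q : ℝ))) * H) ^ Fintype.card κ := by rw [mul_pow]
    _ ≤ (L : ℝ) ^ Fintype.card κ := pow_le_pow_left₀ (by positivity) h1 _
    _ ≤ _ := by exact_mod_cast hcard

end Pool.Agent.W282.ZP
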