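import Pool.Agent.W282.ZP.Generic
import Pool.Agent.W282.ZP.Choice2

/-!
# Generic points of intersections with special subvarieties of `Y(1)^n × G_m^k`
-/

set_option autoImplicit false

namespace Pool.Agent.W282.ZP

open H294ZP UpperHalfPlane

/-- `x` is in the division hull of the group generated by the nonzero elements of `Γ`. -/
def DivHull (Γ : Finset ℂ) (x : ℂ) : Prop :=
  ∃ l : ℕ, 0 < l ∧ ∃ w : ℂ → ℤ, x ^ l = ∏ γ ∈ Γ.erase 0, γ ^ w γ

theorem DivHull.ne_zero {Γ : Finset ℂ} {x : ℂ} (h : DivHull Γ x) : x ≠ 0 := by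
  obtain ⟨l, hl, w, hw⟩ := h
  rintro rfl
  rw [zero_pow hl.ne'] at hw
  have h1 : ∏ γ ∈ Γ.erase 0, γ ^ w γ ≠ 0 :=
    Finset.prod_ne_zero_iff.2 fun γ hγ => zpow_ne_zero _ (Finset.mem_erase.1 hγ).1
  exact h1 hw.symm

theorem DivHull.val {Γ : Finset ℂ} {x : ℂ} (h : DivHull Γ x) (O : ValuationSubring ℂ)
    (hO : ∀ γ ∈ Γ, γ ≠ 0 → O.valuation γ = 1) : O.valuation x = 1 := by
  obtain ⟨l, hl, w, hw⟩ := h
  have h1 : O.valuation x ^ l = 1 := by
    rw [← map_pow, hw, map_prod]
    refine Finset.prod_eq_one fun γ hγ => ?_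
    rw [Finset.mem_erase] at hγ
    rw [map_zpow₀, hO γ hγ.2 hγ.1, one_zpow]
  rcases lt_trichotomy (O.valuation x) 1 with h2 | h2 | h2
  · exact absurd h1 (pow_lt_one₀ zero_le h2 hl.ne').ne
  · exact h2
  · exact absurd h1 (one_lt_pow₀ h2 hl.ne').ne'

/-- algebraically independent elements are multiplicatively independent modulo constants -/
theorem mult_indep' {F Ω ι : Type*} [Field F] [Field Ω] [Algebra F Ω] [Fintype ι] (y : ι → Ω)
    (hy : AlgebraicIndependent F y) (e : ι → ℤ) (c : F)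
    (h : ∏ i, y i ^ e i = algebraMap F Ω c) : e = 0 := by
  classical
  have hy0 : ∀ i, y i ≠ 0 := fun i => hy.ne_zero i
  have hc0 : c ≠ 0 := by
    rintro rfl
    rw [map_zero] at h
    exact Finset.prod_ne_zero_iff.2 (fun i _ => zpow_ne_zero _ (hy0 i)) h
  set α : ι →₀ ℕ := Finsupp.equivFunOnFinite.symm fun i => (e i).toNat with hα
  set β : ι →₀ ℕ := Finsupp.equivFunOnFinite.symm fun i => (-(e i)).toNat with hβ
  have hαβ : ∀ i, (α i : ℤ) - (β i : ℤ) = e i := by
    intro i
    change (((e i).toNat : ℕ) : ℤ) - (((-(e i)).toNat : ℕ) : ℤ) = e i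
    omega
  have h1 : (∏ i, y i ^ α i) = algebraMap F Ω c * ∏ i, y i ^ β i := by
    have h3 : (∏ i, y i ^ β i) ≠ 0 := Finset.prod_ne_zero_iff.2 fun i _ => pow_ne_zero _ (hy0 i)
    have h2 : (∏ i, y i ^ α i) / (∏ i, y i ^ β i) = algebraMap F Ω c := by
      rw [← Finset.prod_div_distrib, ← h]
      refine Finset.prod_congr rfl fun i _ => ?_
      rw [← zpow_natCast, ← zpow_natCast, ← zpow_sub₀ (hy0 i), hαβ]
    rwa [div_eq_iff h3] at h2
  have h2 : MvPolynomial.aeval y (MvPolynomial.monomial α (1 : F)) =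
      MvPolynomial.aeval y (MvPolynomial.monomial β c) := by
    rw [MvPolynomial.aeval_monomial, MvPolynomial.aeval_monomial, map_one, one_mul,
      Finsupp.prod_fintype, Finsupp.prod_fintype, h1]
    · intro i; exact pow_zero _
    · intro i; exact pow_zero _
  have h3 : MvPolynomial.monomial α (1 : F) = MvPolynomial.monomial β c := hy h2
  have h4 : α = β := by
    rw [MvPolynomial.monomial_eq_monomial_iff] at h3
    rcases h3 with h3 | h3
    · exact h3.1
    · exact absurd h3.1 one_ne_zero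
  funext i
  have h5 := hαβ i
  rw [h4, sub_self] at h5
  exact h5.symm

/-- the character `a` at the point `x` -/
noncomputable def chi {F : Type*} [CommGroupWithZero F] {k : ℕ} (x : Fin k → F)
    (a : Fin k → ℤ) : F := ∏ j, x j ^ a j

theorem chi_add {F : Type*} [CommGroupWithZero F] {k : ℕ} {x : Fin k → F} (hx : ∀ j, x j ≠ 0)
    (a b : Fin k → ℤ) : chi x (a + b) = chi x a * chi x b := by
  rw [chi, chi, chi, ← Finset.prod_mul_distrib]
  exact Finset.prod_congr rfl fun j _ => by rw [Pi.add_apply, zpow_add₀ (hx j)]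

theorem chi_zero {F : Type*} [CommGroupWithZero F] {k : ℕ} (x : Fin k → F) : chi x 0 = 1 := by
  simp [chi]

theorem chi_zsmul {F : Type*} [CommGroupWithZero F] {k : ℕ} (x : Fin k → F) (c : ℤ)
    (a : Fin k → ℤ) : chi x (c • a) = chi x a ^ c := by
  rw [chi, chi, ← Finset.prod_zpow]
  refine Finset.prod_congr rfl fun j _ => ?_
  rw [Pi.smul_apply, smul_eq_mul, mul_comm, zpow_mul]

theorem chi_single {F : Type*} [CommGroupWithZero F] {k : ℕ} (x : Fin k → F) (j : Fin k) :
    chi x (Pi.single j (1 : ℤ)) = x j := by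
  rw [chi, Finset.prod_eq_single j]
  · simp
  · intro i _ hi
    rw [Pi.single_eq_of_ne hi, zpow_zero]
  · intro h
    exact absurd (Finset.mem_univ _) h

theorem chi_sum {F ι : Type*} [CommGroupWithZero F] {k : ℕ} {x : Fin k → F} (hx : ∀ j, x j ≠ 0)
    (s : Finset ι) (v : ι → Fin k → ℤ) : chi x (∑ l ∈ s, v l) = ∏ l ∈ s, chi x (v l) := by
  classical
  induction s using Finset.induction_on with
  | empty => simp [chi_zero]
  | insert a s ha ih => rw [Finset.sum_insert ha, Finset.prod_insert ha, chi_add hx, ih]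

/-- the lattice of the characters with value one -/
def oneLat {F : Type*} [CommGroupWithZero F] {k : ℕ} (x : Fin k → F) (hx : ∀ j, x j ≠ 0) :
    Submodule ℤ (Fin k → ℤ) where
  carrier := {a | chi x a = 1}
  zero_mem' := chi_zero x
  add_mem' := by
    intro a b ha hb
    change chi x (a + b) = 1
    rw [chi_add hx, ha, hb, one_mul]
  smul_mem' := by
    intro c a ha
    change chi x (c • a) = 1
    rw [chi_zsmul, ha, one_zpow]

/-- rank of the relations together with `T` -/
theorem finrank_add_card' {F Ω : Type*} [Field F] [Field Ω] [Algebra F Ω] {k : ℕ} (z : Fin k → Ω)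
    (hz : ∀ j, z j ≠ 0) (T : Finset (Fin k)) (hT : AlgebraicIndependent F (fun j : T => z j))
    (Λ : Submodule ℤ (Fin k → ℤ)) (hΛ : ∀ a ∈ Λ, ∃ c : F, chi z a = algebraMap F Ω c)
    (Λ' : Submodule ℤ (Fin k → ℤ)) (h1 : Λ ≤ Λ') (h2 : ∀ j ∈ T, Pi.single j (1 : ℤ) ∈ Λ') :
    Module.finrank ℤ Λ + T.card ≤ Module.finrank ℤ Λ' := by
  classical
  let ψ : (Λ × (T → ℤ)) →ₗ[ℤ] (Fin k → ℤ) := Λ.subtype.coprod
    (Fintype.linearCombination ℤ (fun j : T => (Pi.single (j : Fin k) (1 : ℤ) : Fin k → ℤ)))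
  have hψ : ∀ a e, ψ (a, e) = (a : Fin k → ℤ) +
      ∑ j : T, e j • (Pi.single (j : Fin k) (1 : ℤ) : Fin k → ℤ) := by
    intro a e
    simp [ψ, Fintype.linearCombination_apply]
  have hinj : Function.Injective ψ := by
    rw [injective_iff_map_eq_zero]
    rintro ⟨a, e⟩ h
    rw [hψ] at h
    have h4 : (-(a : Fin k → ℤ)) = ∑ j : T, e j • (Pi.single (j : Fin k) (1 : ℤ) : Fin k → ℤ) := by
      rw [neg_eq_iff_add_eq_zero]
      exact h
    obtain ⟨c, h3⟩ := hΛ _ (Λ.neg_mem a.2)
    rw [h4, chi_sum hz] at h3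
    have h7 : ∀ j : T, chi z (e j • (Pi.single (j : Fin k) (1 : ℤ) : Fin k → ℤ)) =
        z j ^ e j := fun j => by rw [chi_zsmul, chi_single]
    simp only [h7] at h3
    have h8 := mult_indep' (fun j : T => z j) hT e c h3
    have h9 : (a : Fin k → ℤ) = 0 := by
      rw [h8] at h4
      simpa using h4
    exact Prod.ext (Subtype.ext h9) h8
  have hrange : LinearMap.range ψ ≤ Λ' := by
    rintro _ ⟨⟨a, e⟩, rfl⟩
    rw [hψ]
    exact Λ'.add_mem (h1 a.2) (Λ'.sum_mem fun j _ => Λ'.smul_mem _ (h2 j j.2))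
  have h3 := LinearMap.finrank_range_of_inj hinj
  rw [Module.finrank_prod, Module.finrank_fintype_fun_eq_card, Fintype.card_coe] at h3
  rw [← h3]
  exact Submodule.finrank_mono hrange

/-- a nonzero relation supported in a large set of coordinates -/
theorem exists_supported {k : ℕ} (Λ : Submodule ℤ (Fin k → ℤ)) (Y : Finset (Fin k))
    (h : k < Module.finrank ℤ Λ + Y.card) :
    ∃ a ∈ Λ, a ≠ 0 ∧ ∀ j, j ∉ Y → a j = 0 := by
  classical
  let ρ : Λ →ₗ[ℤ] ({j // j ∉ Y} → ℤ) :=
    { toFun := fun a j => (a : Fin k → ℤ) j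
      map_add' := fun _ _ => rfl
      map_smul' := fun _ _ => rfl }
  by_contra hcon
  push Not at hcon
  have hinj : Function.Injective ρ := by
    rw [injective_iff_map_eq_zero]
    intro a ha
    by_contra hne
    obtain ⟨j, hj, hj0⟩ := hcon a a.2 (fun h0 => hne (Subtype.ext h0))
    exact hj0 (congrFun ha ⟨j, hj⟩)
  have h1 := LinearMap.finrank_le_finrank_of_injective hinj
  rw [Module.finrank_fintype_fun_eq_card] at h1
  have h2 : Fintype.card {j // j ∉ Y} = k - Y.card := by
    rw [Fintype.card_subtype_compl, Fintype.card_fin, Fintype.card_coe]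
  have h3 : Y.card ≤ k := by simpa using Y.card_le_univ
  omega

/-- The congruence conditions at the prime `p` with exponents `e`. -/
def RCong {ι : Type} {D : ι → ℕ} (p : ℕ) (e : ι → ℕ) (α β : ι → ℤ) (c : Idx D → ℤ) : Prop :=
  ∀ (i : ι) (k : Fin (D i + 1)),
    ((p : ℤ) ^ (e i * k + 1)) ∣ c ⟨i, 0, k⟩ - p ^ (e i * k) * tgt (α i) (β i) k ∧
    ((p : ℤ) ^ (e i * k + 1)) ∣ c ⟨i, 1, k⟩ - p ^ (e i * k) * tgt 1 1 k

/-- One prime: at most `d` coordinates are atypical. -/
theorem card_atypical' {ι : Type} {D : ι → ℕ} (hD : ∀ i, 0 < D i) {d : ℕ}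
    {K : Type} [Field K] [Algebra ℂ K] (O : ValuationSubring ℂ) (B : ValuationSubring K)
    (hOB : ∀ c : ℂ, O.valuation c ≤ 1 → B.valuation (algebraMap ℂ K c) ≤ 1)
    (hOB' : ∀ c : ℂ, O.valuation c < 1 → B.valuation (algebraMap ℂ K c) < 1)
    (p : ℕ) (hp : p.Prime) (hpO : O.valuation ((p : ℕ) : ℂ) < 1)
    (f : ∀ J : Finset ι, MvPolynomial J ℂ) (α β : ι → ℤ)
    (hf : ∀ J : Finset ι, J.card = d + 1 → ∀ k, O.valuation ((f J).coeff k) ≤ 1)
    (hcor : ∀ J : Finset ι, J.card = d + 1 → ∀ c : ι → Bool, O.valuation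
      (MvPolynomial.eval (fun i : J => (((if c i then α i else β i : ℤ)) : ℂ)) (f J)) = 1)
    (e : ι → ℕ) (c : Idx D → ℤ) (hc : RCong p e α β c)
    (z : ι → K) (hz : ∀ J : Finset ι, J.card = d + 1 →
      MvPolynomial.aeval z (rpull c (f J)) = 0) (A : Finset ι)
    (hA : ∀ i ∈ A, B.valuation (z i) * B.valuation ((p : ℕ) : K) ^ e i ≠ 1) : A.card ≤ d := by
  classical
  have hchar : CharZero K := charZero_of_injective_algebraMap (algebraMap ℂ K).injective
  by_contra hcon
  push Not at hcon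
  obtain ⟨J, hJA, hJ⟩ := Finset.exists_subset_card_eq (Nat.succ_le_of_lt hcon)
  have hunit : ∀ c : ℂ, O.valuation c = 1 → B.valuation (algebraMap ℂ K c) = 1 := by
    intro c hc
    have hc0 : c ≠ 0 := by
      rintro rfl
      rw [map_zero] at hc
      exact zero_ne_one hc
    refine le_antisymm (hOB c hc.le) ?_
    have h1 := hOB c⁻¹ (by rw [map_inv₀, hc, inv_one])
    have h2 : B.valuation (algebraMap ℂ K c) * B.valuation (algebraMap ℂ K c⁻¹) = 1 := by
      rw [← map_mul, ← map_mul, mul_inv_cancel₀ hc0, map_one, map_one]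
    calc (1 : B.ValueGroup) = B.valuation (algebraMap ℂ K c) * B.valuation (algebraMap ℂ K c⁻¹) :=
          h2.symm
      _ ≤ B.valuation (algebraMap ℂ K c) * 1 := by gcongr
      _ = _ := mul_one _
  have hpB : B.valuation ((p : ℕ) : K) < 1 := by
    have := hOB' _ hpO
    rwa [map_natCast] at this
  set x : ι → K := fun i => pev (fun l => c ⟨i, 0, l⟩) (z i) / pev (fun l => c ⟨i, 1, l⟩) (z i)
    with hx
  have hty : ∀ i ∈ J, pev (fun l => c ⟨i, 1, l⟩) (z i) ≠ 0 ∧
      (B.valuation (x i - (α i : K)) < 1 ∨ B.valuation (x i - (β i : K)) < 1) := by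
    intro i hi
    rcases rtypical_or B p (e i) (D i) (hD i) hpB hp.ne_zero (α i) (β i)
      (fun l => c ⟨i, 0, l⟩) (fun l => c ⟨i, 1, l⟩) (fun k => (hc i k).1) (fun k => (hc i k).2)
      (z i) with h5 | h5
    · exact absurd h5 (hA i (hJA hi))
    · exact h5
  let b : ι → Bool := fun i => decide (B.valuation (x i - (α i : K)) < 1)
  have hb : ∀ i ∈ J, B.valuation (x i - (((if b i then α i else β i : ℤ)) : K)) < 1 := by
    intro i hi
    by_cases h1 : B.valuation (x i - (α i : K)) < 1
    · simp [b, h1]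
    · have h2 := (hty i hi).2.resolve_left h1
      simpa [b, h1] using h2
  have h1 := hz J hJ
  rw [aeval_rpull c (f J) z (fun i hi => (hty i hi).1)] at h1
  have h2 : MvPolynomial.aeval (fun i : J => x i) (f J) = 0 := by
    refine (mul_eq_zero.1 h1).resolve_left (pow_ne_zero _ ?_)
    exact Finset.prod_ne_zero_iff.2 fun i _ => (hty i i.2).1
  have h3 := val_aeval_sub_lt B (f J) (fun k => hOB _ (hf J hJ k)) (fun i : J => x i)
    (fun i : J => (((if b i then α i else β i : ℤ)) : K)) (fun i => hb i i.2)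
    (fun i => (B.valuation_le_one_iff _).2 (intCast_mem B _))
  rw [h2, zero_sub, Valuation.map_neg] at h3
  have h4 : MvPolynomial.aeval (fun i : J => (((if b i then α i else β i : ℤ)) : K)) (f J) =
      algebraMap ℂ K (MvPolynomial.eval
        (fun i : J => (((if b i then α i else β i : ℤ)) : ℂ)) (f J)) := by
    rw [← MvPolynomial.aeval_eq_eval, ← MvPolynomial.aeval_algebraMap_apply]
    congr 2
    funext i
    exact (map_intCast (algebraMap ℂ K) _).symm
  rw [h4, hunit _ (hcor J hJ b)] at h3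
  exact lt_irrefl _ h3

/-- the exponents -/
theorem exists_exponents' (n k : ℕ) : ∃ e : ℕ → Fin n ⊕ Fin k → ℕ, (∀ m i, 0 < e m i) ∧
    (∀ m i, (e m (Sum.inl i)).Prime) ∧
    (∀ m i m' i', e m (Sum.inl i) = e m' (Sum.inl i') → m = m' ∧ i = i') ∧
    ∀ (s : Finset ℕ) (a : Fin k → ℤ), k ≤ s.card →
      (∀ m ∈ s, ∑ i, a i * (e m (Sum.inr i) : ℤ) = 0) → a = 0 := by
  classical
  obtain ⟨e, he1, he2⟩ := exists_exponents n
  refine ⟨fun m => Sum.elim (e m) (fun i => (m + 1) ^ (i : ℕ)), ?_, fun m i => he1 m i,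
    fun m i m' i' h => he2 m i m' i' h, ?_⟩
  · rintro m (i | i)
    · exact (he1 m i).pos
    · exact pow_pos (Nat.succ_pos m) _
  · intro s a hs ha
    let P : Polynomial ℤ := ∑ i : Fin k, Polynomial.C (a i) * Polynomial.X ^ (i : ℕ)
    have hcoeff : ∀ i : Fin k, P.coeff i = a i := by
      intro i
      rw [Polynomial.finsetSum_coeff, Finset.sum_eq_single i]
      · simp
      · intro j _ hj
        rw [Polynomial.coeff_C_mul, Polynomial.coeff_X_pow, if_neg, mul_zero]
        intro h
        exact hj (Fin.ext h.symm)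
      · intro h; exact absurd (Finset.mem_univ i) h
    have hP : P = 0 := by
      by_cases hk : k = 0
      · subst hk
        simp [P]
      · refine Polynomial.eq_zero_of_natDegree_lt_card_of_eval_eq_zero' P
          (s.image fun m : ℕ => ((m : ℤ) + 1)) ?_ ?_
        · intro x hx
          obtain ⟨m, hm, rfl⟩ := Finset.mem_image.1 hx
          rw [Polynomial.eval_finsetSum, ← ha m hm]
          refine Finset.sum_congr rfl fun i _ => ?_
          simp
        · have hdeg : P.natDegree < k := by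
            refine lt_of_le_of_lt (Polynomial.natDegree_sum_le_of_forall_le (n := k - 1)
              Finset.univ _ ?_) (by omega)
            intro i _
            refine (Polynomial.natDegree_C_mul_X_pow_le _ _).trans ?_
            have := i.2
            omega
          rw [Finset.card_image_of_injective _ (fun m m' h => by
            have h' : ((m : ℤ) + 1) = (m' : ℤ) + 1 := h
            have : (m : ℤ) = m' := by linarith
            exact_mod_cast this)]
          omega
    funext i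
    rw [← hcoeff i, hP]
    rfl

/-- in a totally ordered group, a power of an element smaller than one is one only for the
exponent zero -/
theorem zpow_eq_one {K : Type*} [Field K] (B : ValuationSubring K) (w : B.ValueGroup) (hw0 : 0 < w)
    (hw1 : w < 1) {a : ℤ} (h : w ^ a = 1) : a = 0 := by
  rcases Int.lt_trichotomy a 0 with h1 | h1 | h1
  · exfalso
    obtain ⟨b, rfl⟩ : ∃ b : ℕ, a = -(b : ℤ) := ⟨a.natAbs, by omega⟩
    rw [zpow_neg, zpow_natCast, inv_eq_one] at h
    exact absurd h (pow_lt_one₀ zero_le hw1 (by omega)).ne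
  · exact h1
  · exfalso
    obtain ⟨b, rfl⟩ : ∃ b : ℕ, a = (b : ℤ) := ⟨a.natAbs, by omega⟩
    rw [zpow_natCast] at h
    exact absurd h (pow_lt_one₀ zero_le hw1 (by omega)).ne

/-- the data at the primes: residue class, valuation rings, relations -/
theorem exists_data {n k d : ℕ} (D : Fin n ⊕ Fin k → ℕ)
    (P : Ideal (MvPolynomial (Fin n ⊕ Fin k) ℂ)) [P.IsPrime]
    (hd : Algebra.trdeg ℂ (MvPolynomial (Fin n ⊕ Fin k) ℂ ⧸ P) = d) (Γ : Finset ℂ)
    (M : ℕ) (e : ℕ → Fin n ⊕ Fin k → ℕ)
    (Q₀ : ℕ) (hQ₀ : 0 < Q₀) (c₀ : Idx D → ℤ) :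
    ∃ (Q : ℕ) (G : Idx D → ℤ) (p : Fin M → ℕ) (O : Fin M → ValuationSubring ℂ)
      (f : ∀ J : Finset (Fin n ⊕ Fin k), MvPolynomial J ℂ) (α β : Fin n ⊕ Fin k → ℤ), 0 < Q ∧
      (∀ m, (p m).Prime ∧ (O m).valuation ((p m : ℕ) : ℂ) < 1 ∧
        (∀ γ ∈ Γ, γ ≠ 0 → (O m).valuation γ = 1) ∧
        (∀ c : ℂ, IsIntegral (Algebra.adjoin ℤ (Γ : Set ℂ)) c → (O m).valuation c ≤ 1) ∧
        (∀ J : Finset (Fin n ⊕ Fin k), J.card = d + 1 → ∀ l,
          (O m).valuation ((f J).coeff l) ≤ 1) ∧
        (∀ J : Finset (Fin n ⊕ Fin k), J.card = d + 1 → ∀ c : Fin n ⊕ Fin k → Bool,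
          (O m).valuation
            (MvPolynomial.eval (fun i : J => (((if c i then α i else β i : ℤ)) : ℂ)) (f J)) =
              1)) ∧
      (∀ J : Finset (Fin n ⊕ Fin k), J.card = d + 1 →
        MvPolynomial.rename (Subtype.val : J → Fin n ⊕ Fin k) (f J) ∈ P) ∧
      (∀ m i, ¬ ((p m : ℕ) : ℤ) ∣ α i - β i) ∧
      ∀ c : Idx D → ℤ, (∀ i, (Q : ℤ) ∣ c i - G i) → (∀ i, (Q₀ : ℤ) ∣ c i - c₀ i) ∧
        ∀ m, RCong (p m) (e m) α β c := by
  classical
  obtain ⟨f, α, β, hαβ, hcor⟩ := exists_corners' P hd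
  let s : Finset ℂ := (Finset.univ.biUnion fun J : Finset (Fin n ⊕ Fin k) =>
      (f J).support.image (f J).coeff) ∪
    (Finset.univ.biUnion fun J : Finset (Fin n ⊕ Fin k) =>
      Finset.univ.image fun c : Fin n ⊕ Fin k → Bool =>
      MvPolynomial.eval (fun i : J => (((if c i then α i else β i : ℤ)) : ℂ)) (f J)) ∪ Γ ∪
    Finset.univ.image fun i : Fin n ⊕ Fin k => (((α i - β i : ℤ)) : ℂ)
  obtain ⟨p, O, hpinj, hpO⟩ := exists_primes s Q₀
  obtain ⟨Q, G, hQ, hclass⟩ := exists_residue_class' (κ := Idx D) (M := M) (fun m => p m)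
    (fun m => (hpO m).1) (fun m m' h => Fin.ext (hpinj h))
    (fun m x => e m x.1 * (x.2.2 : ℕ) + 1)
    (fun m x => (p m : ℤ) ^ (e m x.1 * (x.2.2 : ℕ)) *
      (if x.2.1 = 0 then tgt (α x.1) (β x.1) x.2.2 else tgt 1 1 x.2.2)) Q₀ hQ₀
    (fun m => (hpO m).2.1) c₀
  have hunit : ∀ m : ℕ, ∀ u ∈ s, u ≠ 0 → (O m).valuation u = 1 := fun m => (hpO m).2.2.2
  have hf : ∀ m : ℕ, ∀ J : Finset (Fin n ⊕ Fin k), ∀ l, (O m).valuation ((f J).coeff l) ≤ 1 := by
    intro m J l
    by_cases h0 : (f J).coeff l = 0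
    · rw [h0, map_zero]; exact zero_le_one
    · refine (hunit m _ ?_ h0).le
      refine Finset.mem_union_left _ (Finset.mem_union_left _ (Finset.mem_union_left _ ?_))
      exact Finset.mem_biUnion.2 ⟨J, Finset.mem_univ _, Finset.mem_image_of_mem _
        (MvPolynomial.mem_support_iff.2 h0)⟩
  have hcorv : ∀ m : ℕ, ∀ J : Finset (Fin n ⊕ Fin k), J.card = d + 1 →
      ∀ c : Fin n ⊕ Fin k → Bool, (O m).valuation
        (MvPolynomial.eval (fun i : J => (((if c i then α i else β i : ℤ)) : ℂ)) (f J)) = 1 := by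
    intro m J hJ c
    refine hunit m _ ?_ ((hcor J hJ).2 c)
    refine Finset.mem_union_left _ (Finset.mem_union_left _ (Finset.mem_union_right _ ?_))
    exact Finset.mem_biUnion.2 ⟨J, Finset.mem_univ _, Finset.mem_image_of_mem
      (fun c : Fin n ⊕ Fin k → Bool =>
        MvPolynomial.eval (fun i : J => (((if c i then α i else β i : ℤ)) : ℂ)) (f J))
      (Finset.mem_univ c)⟩
  have hΓ : ∀ m : ℕ, ∀ c : ℂ, IsIntegral (Algebra.adjoin ℤ (Γ : Set ℂ)) c →
      (O m).valuation c ≤ 1 := by
    intro m c hc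
    have hle : ∀ y ∈ Algebra.adjoin ℤ (Γ : Set ℂ), y ∈ O m := by
      intro y hy
      induction hy using Algebra.adjoin_induction with
      | mem t ht =>
        rw [← (O m).valuation_le_one_iff]
        by_cases h0 : t = 0
        · rw [h0, map_zero]; exact zero_le_one
        · exact (hunit m t (Finset.mem_union_left _ (Finset.mem_union_right _ ht)) h0).le
      | algebraMap t => exact intCast_mem (O m) t
      | add s t _ _ hs ht => exact (O m).add_mem _ _ hs ht
      | mul s t _ _ hs ht => exact (O m).mul_mem _ _ hs ht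
    obtain ⟨q, hq, hqe⟩ := hc
    let φ : Algebra.adjoin ℤ (Γ : Set ℂ) →+* O m :=
      { toFun := fun y => ⟨y, hle y y.2⟩
        map_one' := rfl
        map_mul' := fun _ _ => rfl
        map_zero' := rfl
        map_add' := fun _ _ => rfl }
    have hB : IsIntegral (O m) c := by
      refine ⟨q.map φ, hq.map φ, ?_⟩
      rw [Polynomial.eval₂_map]
      exact hqe
    obtain ⟨y, hy⟩ := IsIntegrallyClosed.isIntegral_iff.1 hB
    rw [← hy]
    exact ((O m).valuation_le_one_iff _).2 y.2
  refine ⟨Q, G, fun m => p m, fun m => O m, f, α, β, hQ, fun m => ⟨(hpO m).1, (hpO m).2.2.1,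
    fun γ hγ h0 => hunit m γ (Finset.mem_union_left _ (Finset.mem_union_right _ hγ)) h0, hΓ m,
    fun J _ => hf m J, hcorv m⟩, fun J hJ => (hcor J hJ).1, ?_, fun c hc => ?_⟩
  · rintro m i ⟨b, hb⟩
    have h1 : (O m).valuation (((α i - β i : ℤ)) : ℂ) = 1 := by
      refine hunit m _ (Finset.mem_union_right _ ?_) (by exact_mod_cast sub_ne_zero.2 (hαβ i))
      exact Finset.mem_image_of_mem (fun i : Fin n ⊕ Fin k => (((α i - β i : ℤ)) : ℂ))
        (Finset.mem_univ i)
    rw [hb, Int.cast_mul, map_mul, Int.cast_natCast] at h1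
    have h2 : (O m).valuation ((b : ℤ) : ℂ) ≤ 1 :=
      ((O m).valuation_le_one_iff _).2 (intCast_mem (O m) b)
    have h3 : (O m).valuation ((p m : ℕ) : ℂ) * (O m).valuation ((b : ℤ) : ℂ) < 1 := by
      calc (O m).valuation ((p m : ℕ) : ℂ) * (O m).valuation ((b : ℤ) : ℂ)
          ≤ (O m).valuation ((p m : ℕ) : ℂ) * 1 := by gcongr
        _ = (O m).valuation ((p m : ℕ) : ℂ) := mul_one _
        _ < 1 := (hpO m).2.2.1
    rw [h1] at h3
    exact lt_irrefl _ h3
  obtain ⟨h1, h2⟩ := hclass c hc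
  refine ⟨h1, fun m i l => ⟨?_, ?_⟩⟩
  · have h3 := h2 m ⟨i, 0, l⟩
    simpa using h3
  · have h3 := h2 m ⟨i, 1, l⟩
    simpa using h3

/-- **Main theorem for generic points** of intersections with special subvarieties of
`Y(1)^n × G_m^k`. -/
theorem exists_class_mix {n k d : ℕ} (D : Fin n ⊕ Fin k → ℕ) (hD : ∀ i, 0 < D i)
    (P : Ideal (MvPolynomial (Fin n ⊕ Fin k) ℂ)) [P.IsPrime]
    (hd : Algebra.trdeg ℂ (MvPolynomial (Fin n ⊕ Fin k) ℂ ⧸ P) = d) (Γ : Finset ℂ)
    (Q₀ : ℕ) (hQ₀ : 0 < Q₀) (c₀ : Idx D → ℤ) :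
    ∃ (Q : ℕ) (G : Idx D → ℤ), 0 < Q ∧
      ∀ c : Idx D → ℤ, (∀ i, (Q : ℤ) ∣ c i - G i) → (∀ i, (Q₀ : ℤ) ∣ c i - c₀ i) ∧
        (∀ i, c ⟨i, 0, 0⟩ * c ⟨i, 1, Fin.last (D i)⟩ ≠ c ⟨i, 0, Fin.last (D i)⟩ * c ⟨i, 1, 0⟩) ∧
        ∀ (K : Type) [Field K] [Algebra ℂ K] (z : Fin n ⊕ Fin k → K),
          (∀ (J : Finset (Fin n ⊕ Fin k)) (f : MvPolynomial J ℂ),
            MvPolynomial.rename (Subtype.val : J → Fin n ⊕ Fin k) f ∈ P →
              MvPolynomial.aeval z (rpull c f) = 0) →
          ∀ (r : ℕ) (cls : Fin n → Option (Fin r)) (N : Fin n → Fin n → ℕ), (∀ i i', 0 < N i i') →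
          (∀ i, cls i = none → ∃ c : ℂ, IsIntegral (Algebra.adjoin ℤ (Γ : Set ℂ)) c ∧
            z (Sum.inl i) = algebraMap ℂ K c) →
          (∀ i i' l, cls i = some l → cls i' = some l → Polynomial.eval₂
            (Polynomial.aeval (z (Sum.inl i)) : Polynomial ℂ →ₐ[ℂ] K).toRingHom (z (Sum.inl i'))
              (Psi (N i i')) = 0) →
          (∀ i, z (Sum.inr i) ≠ 0) →
          ∀ (Λ : Submodule ℤ (Fin k → ℤ)) (η : Fin k → ℂ), (∀ i, DivHull Γ (η i)) →
          (∀ a ∈ Λ, chi (fun i => z (Sum.inr i)) a = algebraMap ℂ K (chi η a)) →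
          ∀ T : Finset (Fin n ⊕ Fin k), AlgebraicIndependent ℂ (fun j : T => z j) →
            T.card + n + Module.finrank ℤ Λ ≤ r + d := by
  classical
  obtain ⟨e, he0, heprime, heinj, hevan⟩ := exists_exponents' n k
  set L := k + 1 with hL
  set M := (n * n + 2 ^ k) * L + 1 with hM
  obtain ⟨Q, G, p, O, f, α, β, hQ, hpO, hfP, hpαβ, hclass⟩ :=
    exists_data D P hd Γ M e Q₀ hQ₀ c₀
  refine ⟨Q, G, hQ, fun c hc => ⟨(hclass c hc).1, ?_, ?_⟩⟩
  · intro i heq
    have hm0 : 0 < M := Nat.succ_pos _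
    obtain ⟨⟨x1, h1⟩, x2, h2⟩ := (hclass c hc).2 ⟨0, hm0⟩ i 0
    obtain ⟨⟨x3, h3⟩, x4, h4⟩ := (hclass c hc).2 ⟨0, hm0⟩ i (Fin.last (D i))
    have hDi := (hD i).ne'
    simp only [tgt, Fin.val_zero, mul_zero, pow_zero, zero_add, pow_one, one_mul, if_true,
      Fin.val_last, if_neg hDi] at h1 h2 h3 h4
    set q : ℤ := ((p ⟨0, hm0⟩ : ℕ) : ℤ) with hq
    set E : ℕ := e 0 i * D i with hE
    have hq0 : q ^ E ≠ 0 := pow_ne_zero _ (by rw [hq]; exact_mod_cast (hpO ⟨0, hm0⟩).1.ne_zero)
    apply hpαβ ⟨0, hm0⟩ i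
    have h5 : q ^ E * ((α i + q * x1) * (1 + q * x4)) = q ^ E * ((β i + q * x3) * (1 + q * x2)) := by
      have e1 : c ⟨i, 0, 0⟩ = α i + q * x1 := by linarith
      have e2 : c ⟨i, 1, 0⟩ = 1 + q * x2 := by linarith
      have e3 : c ⟨i, 0, Fin.last (D i)⟩ = q ^ E * (β i + q * x3) := by
        have := h3
        rw [pow_succ] at this
        linear_combination this
      have e4 : c ⟨i, 1, Fin.last (D i)⟩ = q ^ E * (1 + q * x4) := by
        have := h4
        rw [pow_succ] at this
        linear_combination this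
      rw [e1, e2, e3, e4] at heq
      linear_combination heq
    have h6 := mul_left_cancel₀ hq0 h5
    refine ⟨x3 + β i * x2 + q * x3 * x2 - x1 - α i * x4 - q * x1 * x4, ?_⟩
    linear_combination h6
  have hcong := (hclass c hc).2
  intro K _ _ z hz r cls N hN hconst hrel hz0 Λ η hη hΛ T hT
  have hchar : CharZero K := charZero_of_injective_algebraMap (algebraMap ℂ K).injective
  -- the modular part of `T`
  have hTsome : ∀ t : T.toLeft, ∃ l, cls t = some l := by
    intro t
    cases hc : cls t with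
    | none =>
      obtain ⟨c, -, hc2⟩ := hconst t hc
      have h1 := hT.transcendental ⟨Sum.inl (t : Fin n), Finset.mem_toLeft.1 t.2⟩
      exact absurd (hc2 ▸ isAlgebraic_algebraMap c) h1
    | some l => exact ⟨l, rfl⟩
  choose κ hκ using hTsome
  have hκinj : Function.Injective κ := by
    intro t t' htt
    by_contra hne
    have h1 := hrel t t' (κ t) (hκ t) (by rw [htt]; exact hκ t')
    have h2 := hT.transcendental_adjoin (s := {⟨Sum.inl (t : Fin n), Finset.mem_toLeft.1 t.2⟩})
      (i := ⟨Sum.inl (t' : Fin n), Finset.mem_toLeft.1 t'.2⟩) (by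
      intro h
      rw [Set.mem_singleton_iff] at h
      have h3 := Sum.inl_injective (congrArg Subtype.val h)
      exact hne (Subtype.ext h3.symm))
    apply h2
    rw [Set.image_singleton]
    set y : K := z (Sum.inl (t : Fin n)) with hy
    have hmem : y ∈ Algebra.adjoin ℂ {y} := Algebra.subset_adjoin rfl
    let ψ : Polynomial ℂ →ₐ[ℂ] Algebra.adjoin ℂ {y} := Polynomial.aeval ⟨y, hmem⟩
    have hcomp : ((Algebra.adjoin ℂ {y}).val.comp ψ) =
        (Polynomial.aeval y : Polynomial ℂ →ₐ[ℂ] K) := by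
      apply Polynomial.algHom_ext
      simp [ψ]
    have hint : IsIntegral (Algebra.adjoin ℂ {y}) (z (Sum.inl (t' : Fin n))) := by
      refine ⟨(Psi (N t t')).map ψ.toRingHom, (Psi_spec (hN t t')).1.map _, ?_⟩
      rw [Polynomial.eval₂_map, ← h1]
      congr 1
      exact congrArg AlgHom.toRingHom hcomp
    exact hint.isAlgebraic
  -- the torus part of `T`
  set zt : Fin k → K := fun i => z (Sum.inr i) with hzt
  have hTind : AlgebraicIndependent ℂ (fun j : T.toRight => zt j) := by
    have h1 := hT.comp (fun j : T.toRight =>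
      (⟨Sum.inr (j : Fin k), Finset.mem_toRight.1 j.2⟩ : T)) (by
        intro j j' h
        have h3 := Sum.inr_injective (congrArg Subtype.val h)
        exact Subtype.ext h3)
    exact h1
  set Λ' : Submodule ℤ (Fin k → ℤ) := Λ ⊔ Submodule.span ℤ
    ((fun j : Fin k => (Pi.single j (1 : ℤ) : Fin k → ℤ)) '' (T.toRight : Set (Fin k))) with hΛ'
  have hrank : Module.finrank ℤ Λ + T.toRight.card ≤ Module.finrank ℤ Λ' := by
    refine finrank_add_card' zt hz0 T.toRight hTind Λ (fun a ha => ⟨_, hΛ a ha⟩) Λ' le_sup_left ?_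
    intro j hj
    exact Submodule.mem_sup_right (Submodule.subset_span ⟨j, hj, rfl⟩)
  have hTcard : T.toLeft.card + T.toRight.card = T.card := Finset.card_toLeft_add_card_toRight
  by_contra hcon
  push Not at hcon
  -- supported relations
  have hsup : ∀ Y : Finset (Fin k), ∃ a : Fin k → ℤ, a ∈ Λ' ∧
      (k < Module.finrank ℤ Λ' + Y.card → a ≠ 0) ∧ ∀ j, j ∉ Y → a j = 0 := by
    intro Y
    by_cases hY : k < Module.finrank ℤ Λ' + Y.card
    · obtain ⟨a, h1, h2, h3⟩ := exists_supported Λ' Y hY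
      exact ⟨a, h1, fun _ => h2, h3⟩
    · exact ⟨0, Λ'.zero_mem, fun h => absurd h hY, fun _ _ => rfl⟩
  choose A hAΛ hA0 hAY using hsup
  -- one prime
  have hone : ∀ m : Fin M, ∃ q : (Fin n × Fin n) ⊕ Finset (Fin k),
      (∀ i i', q = Sum.inl (i, i') → i ≠ i' ∧
        IsSquare (N i i' * (e m (Sum.inl i) * e m (Sum.inl i')))) ∧
      (∀ Y, q = Sum.inr Y → A Y ≠ 0 ∧ ∑ i, A Y i * (e m (Sum.inr i) : ℤ) = 0) := by
    intro m
    obtain ⟨hpp, hpv, hΓu, hΓi, hfc, hfcor⟩ := hpO m
    obtain ⟨B, hB1, hB2, hB3⟩ := exists_above_unit (O m) (fun j : T => z j) hT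
    have hpB : B.valuation ((p m : ℕ) : K) < 1 := by
      have := hB2 _ hpv
      rwa [map_natCast] at this
    have hpB0 : 0 < B.valuation ((p m : ℕ) : K) := by
      rw [zero_lt_iff, Valuation.ne_zero_iff]
      exact_mod_cast hpp.ne_zero
    set w := B.valuation ((p m : ℕ) : K) with hw
    let At : Finset (Fin n ⊕ Fin k) := Finset.univ.filter fun i =>
      B.valuation (z i) * w ^ e m i ≠ 1
    let Ty : Finset (Fin n ⊕ Fin k) := Finset.univ.filter fun i =>
      B.valuation (z i) * w ^ e m i = 1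
    have hAcard : At.card ≤ d := card_atypical' hD (O m) B hB1 hB2 (p m) hpp hpv f α β
      hfc hfcor (e m) c (hcong m) z
      (fun J hJ => hz J (f J) (hfP J hJ)) At (fun i hi => (Finset.mem_filter.1 hi).2)
    have hcards : Ty.card + At.card = n + k := by
      have := Finset.card_filter_add_card_filter_not (s := (Finset.univ : Finset (Fin n ⊕ Fin k)))
        (fun i => B.valuation (z i) * w ^ e m i = 1)
      rw [Finset.card_univ, Fintype.card_sum, Fintype.card_fin, Fintype.card_fin] at this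
      exact this
    have hTycard : Ty.toLeft.card + Ty.toRight.card = Ty.card :=
      Finset.card_toLeft_add_card_toRight
    have hTy : ∀ i ∈ Ty, 1 < B.valuation (z i) := by
      intro i hi
      have h1 := (Finset.mem_filter.1 hi).2
      by_contra h2
      push Not at h2
      have h3 : w ^ e m i < 1 := pow_lt_one₀ zero_le hpB (he0 m i).ne'
      have h4 : B.valuation (z i) * w ^ e m i < 1 := by
        calc B.valuation (z i) * w ^ e m i ≤ 1 * w ^ e m i := by gcongr
          _ = w ^ e m i := one_mul _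
          _ < 1 := h3
      rw [h1] at h4
      exact lt_irrefl _ h4
    by_cases hcase : r < Ty.toLeft.card + T.toLeft.card
    · -- the modular part is atypical
      let Fr : Finset (Option (Fin r)) := (Finset.univ.filter fun l : Fin r =>
        l ∉ Finset.univ.image κ).image some
      have hFr : Fr.card + T.toLeft.card = r := by
        have h1 : Fr.card = (Finset.univ.filter fun l : Fin r =>
            l ∉ Finset.univ.image κ).card :=
          Finset.card_image_of_injective _ (Option.some_injective _)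
        have h2 : (Finset.univ.filter fun l : Fin r => l ∈ Finset.univ.image κ).card =
            T.toLeft.card := by
          have h3 : (Finset.univ.filter fun l : Fin r => l ∈ Finset.univ.image κ) =
              Finset.univ.image κ := by
            ext l; simp
          rw [h3, Finset.card_image_of_injective _ hκinj, Finset.card_univ, Fintype.card_coe]
        have := Finset.card_filter_add_card_filter_not (s := (Finset.univ : Finset (Fin r)))
          (fun l => l ∈ Finset.univ.image κ)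
        rw [Finset.card_univ, Fintype.card_fin] at this
        rw [h1]
        omega
      have hmaps : ∀ i ∈ Ty.toLeft, cls i ∈ Fr := by
        intro i hi
        have h1 := hTy _ (Finset.mem_toLeft.1 hi)
        cases hc : cls i with
        | none =>
          obtain ⟨c, hc1, hc2⟩ := hconst i hc
          have h2 := hB1 c (hΓi c hc1)
          rw [← hc2] at h2
          exact absurd h1 (not_lt.2 h2)
        | some l =>
          refine Finset.mem_image_of_mem _ (Finset.mem_filter.2 ⟨Finset.mem_univ _, ?_⟩)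
          intro hk
          obtain ⟨t, -, ht⟩ := Finset.mem_image.1 hk
          have h2 := hrel t i l (ht ▸ hκ t) hc
          have h4 : B.valuation (z (Sum.inl (t : Fin n))) = 1 :=
            hB3 ⟨Sum.inl (t : Fin n), Finset.mem_toLeft.1 t.2⟩
          have h3 := (((Psi_spec (hN t i)).2.2 K B _ _ h2).1) h4.le
          exact absurd h1 (not_lt.2 h3)
      obtain ⟨i, hi, i', hi', hne, hcls⟩ := Finset.exists_ne_map_eq_of_card_lt_of_maps_to
        (s := Ty.toLeft) (t := Fr) (by omega) (f := cls) hmaps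
      refine ⟨Sum.inl (i, i'), ?_, fun Y h => absurd h (by simp)⟩
      rintro j j' hjj
      obtain ⟨rfl, rfl⟩ := Prod.mk.injEq .. ▸ Sum.inl_injective hjj
      refine ⟨hne, ?_⟩
      obtain ⟨l, -, hk⟩ := Finset.mem_image.1 (hmaps i hi)
      have h2 := hrel i i' l hk.symm (hcls ▸ hk.symm)
      obtain ⟨a, ha⟩ := (((Psi_spec (hN i i')).2.2 K B _ _ h2).2) (hTy _ (Finset.mem_toLeft.1 hi))
      have h3 := (Finset.mem_filter.1 (Finset.mem_toLeft.1 hi)).2
      have h4 := (Finset.mem_filter.1 (Finset.mem_toLeft.1 hi')).2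
      have h5 : w ^ (e m (Sum.inl i') * N i i') = w ^ (e m (Sum.inl i) * a ^ 2) := by
        have h6 : (B.valuation (z (Sum.inl i')) * w ^ e m (Sum.inl i')) ^ N i i' = 1 := by
          rw [h4, one_pow]
        have h7 : (B.valuation (z (Sum.inl i)) * w ^ e m (Sum.inl i)) ^ (a ^ 2) = 1 := by
          rw [h3, one_pow]
        rw [mul_pow, ← pow_mul] at h6 h7
        rw [ha] at h6
        have h8 : B.valuation (z (Sum.inl i)) ^ (a ^ 2) ≠ 0 :=
          pow_ne_zero _ (zero_lt_one.trans (hTy _ (Finset.mem_toLeft.1 hi))).ne'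
        exact mul_left_cancel₀ h8 (h6.trans h7.symm)
      have h6 := exponent_eq B w hpB0 hpB h5
      refine ⟨e m (Sum.inl i) * a, ?_⟩
      calc N i i' * (e m (Sum.inl i) * e m (Sum.inl i')) =
            e m (Sum.inl i) * (e m (Sum.inl i') * N i i') := by ring
        _ = e m (Sum.inl i) * (e m (Sum.inl i) * a ^ 2) := by rw [h6]
        _ = _ := by ring
    · -- the torus part is atypical
      refine ⟨Sum.inr Ty.toRight, fun i i' h => absurd h (by simp), ?_⟩
      rintro Y hY
      obtain rfl := Sum.inr_injective hY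
      have hbig : k < Module.finrank ℤ Λ' + Ty.toRight.card := by omega
      refine ⟨hA0 _ hbig, ?_⟩
      set a := A Ty.toRight with ha
      -- the valuations of the torus coordinates
      have hv0 : ∀ i, B.valuation (zt i) ≠ 0 := fun i => (Valuation.ne_zero_iff _).2 (hz0 i)
      have hle : Λ' ≤ oneLat (fun i => B.valuation (zt i)) hv0 := by
        refine sup_le ?_ (Submodule.span_le.2 ?_)
        · intro b hb
          change chi (fun i => B.valuation (zt i)) b = 1
          have h1 : chi (fun i => B.valuation (zt i)) b = B.valuation (chi zt b) := by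
            simp [chi]
          rw [h1, hΛ b hb]
          have h2 : ∀ i, B.valuation (algebraMap ℂ K (η i)) = 1 := by
            intro i
            have h3 := (hη i).val (O m) hΓu
            have h4 := (hη i).ne_zero
            refine le_antisymm (hB1 _ h3.le) ?_
            have h5 := hB1 (η i)⁻¹ (by rw [map_inv₀, h3, inv_one])
            have h6 : B.valuation (algebraMap ℂ K (η i)) *
                B.valuation (algebraMap ℂ K (η i)⁻¹) = 1 := by
              rw [← map_mul, ← map_mul, mul_inv_cancel₀ h4, map_one, map_one]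
            calc (1 : B.ValueGroup) = _ := h6.symm
              _ ≤ B.valuation (algebraMap ℂ K (η i)) * 1 := by gcongr
              _ = _ := mul_one _
          simp only [chi, map_prod, map_zpow₀, h2, one_zpow, Finset.prod_const_one]
        · rintro _ ⟨j, hj, rfl⟩
          change chi (fun i => B.valuation (zt i)) (Pi.single j (1 : ℤ)) = 1
          rw [chi_single]
          exact hB3 ⟨Sum.inr j, Finset.mem_toRight.1 hj⟩
      have h1 : chi (fun i => B.valuation (zt i)) a = 1 := hle (hAΛ _)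
      have h2 : chi (fun i => B.valuation (zt i)) a = w ^ (-∑ i, a i * (e m (Sum.inr i) : ℤ)) := by
        have hw0 : w ≠ 0 := hpB0.ne'
        have h3 : ∀ i, B.valuation (zt i) ^ a i = w ^ (-(a i * (e m (Sum.inr i) : ℤ))) := by
          intro i
          by_cases hi : i ∈ Ty.toRight
          · have h4 := (Finset.mem_filter.1 (Finset.mem_toRight.1 hi)).2
            have h5 : B.valuation (zt i) = w ^ (-(e m (Sum.inr i) : ℤ)) := by
              rw [zpow_neg, zpow_natCast]
              exact eq_inv_of_mul_eq_one_left h4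
            rw [h5, ← zpow_mul]
            congr 1
            ring
          · rw [ha, hAY _ i hi]
            simp
        have h4 : (-∑ i, a i * (e m (Sum.inr i) : ℤ)) =
            ∑ i, -(a i * (e m (Sum.inr i) : ℤ)) := by
          rw [Finset.sum_neg_distrib]
        rw [h4, chi, Finset.prod_congr rfl fun i _ => h3 i]
        have h5 : ∀ s : Finset (Fin k), ∏ i ∈ s, w ^ (-(a i * (e m (Sum.inr i) : ℤ))) =
            w ^ (∑ i ∈ s, -(a i * (e m (Sum.inr i) : ℤ))) := by
          intro s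
          induction s using Finset.induction_on with
          | empty => simp
          | insert j s hj ih =>
            rw [Finset.prod_insert hj, Finset.sum_insert hj, zpow_add₀ hw0, ih]
        exact h5 _
      rw [h2] at h1
      have h3 := zpow_eq_one B w hpB0 hpB h1
      exact neg_eq_zero.1 h3
  choose q hq1 hq2 using hone
  obtain ⟨y, hy⟩ := Fintype.exists_lt_card_fiber_of_mul_lt_card q (n := L) (by
    rw [Fintype.card_sum, Fintype.card_prod, Fintype.card_fin, Fintype.card_fin,
      Fintype.card_finset, Fintype.card_fin]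
    omega)
  rcases y with ⟨i, i'⟩ | Y
  · -- two primes with the same pair
    obtain ⟨m, hm, m', hm', hmm⟩ := Finset.one_lt_card.1 (show 1 <
      (Finset.univ.filter fun m => q m = Sum.inl (i, i')).card by omega)
    have h1 := hq1 m i i' (Finset.mem_filter.1 hm).2
    have h2 := hq1 m' i i' (Finset.mem_filter.1 hm').2
    refine four_primes (hN i i') (heprime m i) (heprime m i') (heprime m' i) (heprime m' i')
      ?_ ?_ ?_ h1.2 h2.2
    · intro h
      exact h1.1 (heinj _ _ _ _ h).2
    · intro h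
      exact hmm (Fin.ext (heinj _ _ _ _ h).1)
    · intro h
      exact hmm (Fin.ext (heinj _ _ _ _ h).1)
  · -- many primes with the same set
    set S := Finset.univ.filter fun m => q m = Sum.inr Y with hS
    have h1 : 0 < S.card := by omega
    obtain ⟨m₀, hm₀⟩ := Finset.card_pos.1 h1
    have h2 := (hq2 m₀ Y (Finset.mem_filter.1 hm₀).2).1
    apply h2
    refine hevan (S.image fun m : Fin M => (m : ℕ)) (A Y) ?_ ?_
    · rw [Finset.card_image_of_injective _ Fin.val_injective]
      omega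
    · intro m hm
      obtain ⟨m', hm', rfl⟩ := Finset.mem_image.1 hm
      exact (hq2 m' Y (Finset.mem_filter.1 hm').2).2

end Pool.Agent.W282.ZP
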