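import Pool.Agent.H173R3.ZT.Val

/-!
# Reduction of Möbius translates modulo a prime
-/

set_option autoImplicit false

open MvPolynomial

namespace Pool.Agent.W282.ZP

/-- The polynomial `∑ coeff_k ∏ (d_i X_i - b_i)^(k_i) (a_i - c_i X_i)^(D - k_i)`, which vanishes at
the Möbius translates of the zeros of `f`. -/
noncomputable def pull {n : ℕ} (g : Fin n → Matrix (Fin 2) (Fin 2) ℤ) {J : Finset (Fin n)}
    (f : MvPolynomial J ℂ) : MvPolynomial (Fin n) ℂ :=
  ∑ k ∈ f.support, C (f.coeff k) * ∏ i : J,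
    ((C ((g i 1 1 : ℤ) : ℂ) * X (i : Fin n) - C ((g i 0 1 : ℤ) : ℂ)) ^ (k i) *
      (C ((g i 0 0 : ℤ) : ℂ) - C ((g i 1 0 : ℤ) : ℂ) * X (i : Fin n)) ^ (f.totalDegree - k i))

theorem aeval_pull {K : Type*} [Field K] [Algebra ℂ K] {n : ℕ}
    (g : Fin n → Matrix (Fin 2) (Fin 2) ℤ) {J : Finset (Fin n)} (f : MvPolynomial J ℂ)
    (z : Fin n → K) (ht : ∀ i ∈ J, ((g i 0 0 : ℤ) : K) - ((g i 1 0 : ℤ) : K) * z i ≠ 0) :
    aeval z (pull g f) = (∏ i : J, (((g i 0 0 : ℤ) : K) - ((g i 1 0 : ℤ) : K) * z i)) ^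
      f.totalDegree * aeval (fun i : J => (((g i 1 1 : ℤ) : K) * z i - ((g i 0 1 : ℤ) : K)) /
        (((g i 0 0 : ℤ) : K) - ((g i 1 0 : ℤ) : K) * z i)) f := by
  classical
  rw [pull, map_sum, aeval_def, eval₂_eq', Finset.mul_sum]
  refine Finset.sum_congr rfl fun k hk => ?_
  rw [map_mul, map_prod, aeval_C]
  simp only [map_mul, map_pow, map_sub, aeval_C, aeval_X, map_intCast]
  rw [← Finset.prod_pow, mul_left_comm]
  congr 1
  rw [← Finset.prod_mul_distrib]
  refine Finset.prod_congr rfl fun i _ => ?_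
  have hk' : k i ≤ f.totalDegree := by
    refine le_trans ?_ (le_totalDegree hk)
    rw [Finsupp.sum_fintype _ _ (fun _ => rfl)]
    exact Finset.single_le_sum (f := fun i => k i) (fun _ _ => Nat.zero_le _) (Finset.mem_univ i)
  have hti := ht i i.2
  rw [div_pow, ← mul_div_assoc, eq_div_iff (pow_ne_zero _ hti), mul_assoc, ← pow_add,
    Nat.sub_add_cancel hk', mul_comm]

/-- The dichotomy at one coordinate: either the coordinate has a pole of exact order `e`, or the
inverse image reduces to `α` or `β`. -/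
theorem typical_or {K : Type*} [Field K] [CharZero K] (B : ValuationSubring K) (p e : ℕ)
    (hp : B.valuation (p : K) < 1) (α β a b c d : ℤ)
    (hαβ : B.valuation (((α - β : ℤ)) : K) = 1)
    (hp0 : p ≠ 0) (ha : ((p : ℤ) ^ (e + 1)) ∣ a - 1) (hb : ((p : ℤ) ^ (e + 1)) ∣ b + α)
    (hc : ((p : ℤ) ^ (e + 1)) ∣ c - p ^ e) (hd : ((p : ℤ) ^ (e + 1)) ∣ d + p ^ e * β) (z : K) :
    B.valuation z * B.valuation (p : K) ^ e = 1 ∨ ((a : K) - c * z ≠ 0 ∧
      (B.valuation (((d : K) * z - b) / ((a : K) - c * z) - (α : K)) < 1 ∨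
       B.valuation (((d : K) * z - b) / ((a : K) - c * z) - (β : K)) < 1)) := by
  set v := B.valuation with hv
  have hint : ∀ m : ℤ, v (m : K) ≤ 1 := fun m =>
    (B.valuation_le_one_iff _).2 (intCast_mem B m)
  have hpK : (p : K) ≠ 0 := by exact_mod_cast hp0
  have hvp : 0 < v (p : K) := zero_lt_iff.2 ((Valuation.ne_zero_iff _).2 hpK)
  have hdvd : ∀ m : ℤ, ((p : ℤ) ^ (e + 1)) ∣ m → v (m : K) ≤ v (p : K) ^ (e + 1) := by
    rintro m ⟨k, rfl⟩
    push_cast
    rw [map_mul, map_pow]
    calc v (p : K) ^ (e + 1) * v (k : K) ≤ v (p : K) ^ (e + 1) * 1 := by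
          gcongr; exact hint k
      _ = _ := mul_one _
  have hlt : v (p : K) ^ (e + 1) < v (p : K) ^ e := by
    rw [pow_succ]
    calc v (p : K) ^ e * v (p : K) < v (p : K) ^ e * 1 := by
          apply mul_lt_mul_of_pos_left hp (pow_pos hvp e)
      _ = _ := mul_one _
  have hle1 : v (p : K) ^ e ≤ 1 := pow_le_one' hp.le e
  set u : K := (d : K) * z - b with hu
  set t : K := (a : K) - c * z with ht
  have e1 : (a : K) * u + b * t = ((a * d - b * c : ℤ) : K) * z := by
    rw [hu, ht]; push_cast; ring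
  have e2 : (c : K) * u + d * t = ((a * d - b * c : ℤ) : K) := by
    rw [hu, ht]; push_cast; ring
  -- the determinant
  have hdet : v ((a * d - b * c : ℤ) : K) = v (p : K) ^ e := by
    have h1 : (a * d - b * c : ℤ) = p ^ e * (α - β) + ((a - 1) * d + (d + p ^ e * β) -
        (b + α) * c + α * (c - p ^ e)) := by ring
    have h2 : v ((((a - 1) * d + (d + p ^ e * β) - (b + α) * c + α * (c - p ^ e) : ℤ)) : K) ≤
        v (p : K) ^ (e + 1) := by
      apply hdvd
      exact dvd_add (dvd_sub (dvd_add (ha.mul_right d) hd) (hb.mul_right c)) (hc.mul_left α)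
    have h3 : v ((p ^ e * (α - β) : ℤ) : K) = v (p : K) ^ e := by
      push_cast
      rw [map_mul, map_pow]
      have : v ((α : K) - β) = 1 := by rw [← hαβ]; push_cast; rfl
      rw [this, mul_one]
    rw [h1, Int.cast_add, Valuation.map_add_eq_of_lt_left, h3]
    rw [h3]
    exact lt_of_le_of_lt h2 hlt
  have hdet0 : ((a * d - b * c : ℤ) : K) ≠ 0 := by
    intro h
    rw [h, map_zero] at hdet
    exact (pow_pos hvp e).ne hdet
  set M := max (v u) (v t) with hM
  have hMpos : 0 < M := by
    rw [zero_lt_iff]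
    intro h0
    have hu0 : u = 0 := by
      have : v u ≤ 0 := h0 ▸ le_max_left _ _
      exact (Valuation.zero_iff _).1 (le_zero_iff.1 this)
    have ht0 : t = 0 := by
      have : v t ≤ 0 := h0 ▸ le_max_right _ _
      exact (Valuation.zero_iff _).1 (le_zero_iff.1 this)
    rw [hu0, ht0, mul_zero, mul_zero, add_zero] at e2
    exact hdet0 e2.symm
  have hsmall : ∀ γ : ℤ, v (u - γ * t) < M → t ≠ 0 ∧ v (u / t - (γ : K)) < 1 := by
    intro γ h
    have h1 : v ((γ : K) * t) ≤ v t := by
      rw [map_mul]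
      calc v (γ : K) * v t ≤ 1 * v t := by gcongr; exact hint γ
        _ = v t := one_mul _
    have h2 : v t = M := by
      refine le_antisymm (le_max_right _ _) ?_
      by_contra hcon
      push Not at hcon
      have h3 : v u = M := by
        rcases max_choice (v u) (v t) with h4 | h4
        · exact h4.symm
        · rw [← hM] at h4
          exact absurd hcon (by rw [h4]; exact lt_irrefl _)
      have h4 : v (u - γ * t) = v u := by
        rw [sub_eq_add_neg]
        apply Valuation.map_add_eq_of_lt_left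
        rw [Valuation.map_neg, h3]
        exact lt_of_le_of_lt h1 hcon
      rw [h4, h3] at h
      exact lt_irrefl _ h
    have ht0 : t ≠ 0 := by
      rintro h0
      rw [h0, map_zero] at h2
      exact hMpos.ne h2
    refine ⟨ht0, ?_⟩
    have h3 : u / t - (γ : K) = (u - γ * t) / t := by field_simp
    rw [h3, map_div₀, h2]
    exact (div_lt_one₀ hMpos).2 h
  by_cases hα : v (u - α * t) < M
  · obtain ⟨h1, h2⟩ := hsmall α hα
    exact Or.inr ⟨h1, Or.inl h2⟩
  by_cases hβ : v (u - β * t) < M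
  · obtain ⟨h1, h2⟩ := hsmall β hβ
    exact Or.inr ⟨h1, Or.inr h2⟩
  left
  have huM : v u ≤ M := le_max_left _ _
  have htM : v t ≤ M := le_max_right _ _
  have hub : ∀ γ : ℤ, v (u - γ * t) ≤ M := by
    intro γ
    refine (Valuation.map_sub _ _ _).trans (max_le huM ?_)
    rw [map_mul]
    calc v (γ : K) * v t ≤ 1 * M := by gcongr; exact hint γ
      _ = M := one_mul _
  have hαM : v (u - α * t) = M := le_antisymm (hub α) (not_lt.1 hα)
  have hβM : v (u - β * t) = M := le_antisymm (hub β) (not_lt.1 hβ)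
  have hsm : ∀ m1 m2 : ℤ, ((p : ℤ) ^ (e + 1)) ∣ m1 → ((p : ℤ) ^ (e + 1)) ∣ m2 →
      v ((m1 : K) * u + (m2 : K) * t) ≤ v (p : K) ^ (e + 1) * M := by
    intro m1 m2 h1 h2
    refine (Valuation.map_add _ _ _).trans (max_le ?_ ?_)
    · rw [map_mul]
      exact mul_le_mul' (hdvd m1 h1) huM
    · rw [map_mul]
      exact mul_le_mul' (hdvd m2 h2) htM
  have hltM : v (p : K) ^ (e + 1) * M < v (p : K) ^ e * M := mul_lt_mul_of_pos_right hlt hMpos
  have hltM' : v (p : K) ^ (e + 1) * M < M := by
    refine lt_of_lt_of_le hltM ?_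
    calc v (p : K) ^ e * M ≤ 1 * M := by gcongr
      _ = M := one_mul _
  have e3 : v ((a : K) * u + b * t) = M := by
    have h1 : (a : K) * u + b * t = (u - α * t) + (((a - 1 : ℤ) : K) * u + ((b + α : ℤ) : K) * t) := by
      push_cast; ring
    rw [h1, Valuation.map_add_eq_of_lt_left, hαM]
    rw [hαM]
    exact lt_of_le_of_lt (hsm _ _ ha hb) hltM'
  have e4 : v ((c : K) * u + d * t) = v (p : K) ^ e * M := by
    have h1 : (c : K) * u + d * t = (p : K) ^ e * (u - β * t) + (((c - p ^ e : ℤ) : K) * u +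
        ((d + p ^ e * β : ℤ) : K) * t) := by
      push_cast; ring
    have h2 : v ((p : K) ^ e * (u - β * t)) = v (p : K) ^ e * M := by
      rw [map_mul, map_pow, hβM]
    rw [h1, Valuation.map_add_eq_of_lt_left, h2]
    rw [h2]
    exact lt_of_le_of_lt (hsm _ _ hc hd) hltM
  rw [e1, map_mul] at e3
  rw [e2] at e4
  rw [e4] at e3
  have : M * (v z * v (p : K) ^ e) = M * 1 := by
    rw [mul_one]
    calc M * (v z * v (p : K) ^ e) = v (p : K) ^ e * M * v z := by
          rw [mul_comm (v z), ← mul_assoc, mul_comm M]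
      _ = M := e3
  exact mul_left_cancel₀ hMpos.ne' this

/-- A polynomial with coefficients in `B` has congruent values at congruent points. -/
theorem val_aeval_sub_lt {K ι : Type*} [Field K] [Algebra ℂ K] [Fintype ι] (B : ValuationSubring K)
    (f : MvPolynomial ι ℂ) (hf : ∀ k, B.valuation (algebraMap ℂ K (f.coeff k)) ≤ 1)
    (x y : ι → K) (hx : ∀ i, B.valuation (x i - y i) < 1) (hy : ∀ i, B.valuation (y i) ≤ 1) :
    B.valuation (aeval x f - aeval y f) < 1 := by
  classical
  have hxB : ∀ i, x i ∈ B := by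
    intro i
    have h1 : x i - y i ∈ B := (B.valuation_le_one_iff _).1 (hx i).le
    have h2 : y i ∈ B := (B.valuation_le_one_iff _).1 (hy i)
    have := B.add_mem _ _ h1 h2
    rwa [sub_add_cancel] at this
  have hyB : ∀ i, y i ∈ B := fun i => (B.valuation_le_one_iff _).1 (hy i)
  have hfB : ∀ k, algebraMap ℂ K (f.coeff k) ∈ B := fun k => (B.valuation_le_one_iff _).1 (hf k)
  let F : (ι → B) → B := fun w => ∑ k ∈ f.support, (⟨_, hfB k⟩ : B) * ∏ i, w i ^ k i
  have hF : ∀ w : ι → B, ((F w : B) : K) = aeval (fun i => (w i : K)) f := by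
    intro w
    rw [aeval_def, eval₂_eq']
    simp only [F]
    rw [← ValuationSubring.coe_subtype, map_sum]
    refine Finset.sum_congr rfl fun k _ => ?_
    rw [map_mul, map_prod]
    simp only [map_pow]
    rfl
  have hres : IsLocalRing.residue B (F fun i => ⟨x i, hxB i⟩) =
      IsLocalRing.residue B (F fun i => ⟨y i, hyB i⟩) := by
    simp only [F, map_sum, map_mul, map_prod, map_pow]
    refine Finset.sum_congr rfl fun k _ => ?_
    congr 1
    refine Finset.prod_congr rfl fun i _ => ?_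
    congr 1
    rw [← sub_eq_zero, ← map_sub, IsLocalRing.residue_eq_zero_iff,
      ValuationSubring.valuation_lt_one_iff]
    exact hx i
  rw [← sub_eq_zero, ← map_sub, IsLocalRing.residue_eq_zero_iff,
    ValuationSubring.valuation_lt_one_iff] at hres
  have h3 : (((F fun i => ⟨x i, hxB i⟩) - (F fun i => ⟨y i, hyB i⟩) : B) : K) =
      aeval x f - aeval y f := by
    rw [← ValuationSubring.coe_subtype, map_sub]
    simp only [ValuationSubring.coe_subtype]
    rw [hF, hF]
  rw [h3] at hres
  exact hres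

/-- A valuation ring of `K` above a valuation ring of `ℂ`, containing given algebraically
independent elements. -/
theorem exists_above {K ι : Type*} [Field K] [Algebra ℂ K] (O : ValuationSubring ℂ) (y : ι → K)
    (hy : AlgebraicIndependent ℂ y) :
    ∃ B : ValuationSubring K, (∀ c : ℂ, O.valuation c ≤ 1 → B.valuation (algebraMap ℂ K c) ≤ 1) ∧
      (∀ c : ℂ, O.valuation c < 1 → B.valuation (algebraMap ℂ K c) < 1) ∧
      ∀ i, B.valuation (y i) ≤ 1 := by
  set e : MvPolynomial ι O →+* K := eval₂Hom ((algebraMap ℂ K).comp O.subtype) y with he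
  have hemap : ∀ r : MvPolynomial ι O, e r = aeval y (map O.subtype r) := by
    intro r
    rw [he, coe_eval₂Hom, aeval_def, eval₂_map]
  have heinj : Function.Injective e := by
    intro a b h
    rw [hemap, hemap] at h
    exact map_injective O.subtype Subtype.val_injective (hy h)
  let e' : MvPolynomial ι O →+* e.range := e.rangeRestrict
  have hsurj : Function.Surjective e' := e.rangeRestrict_surjective
  have hinj : Function.Injective e' := fun a b h => heinj (congrArg Subtype.val h)
  let ρ : MvPolynomial ι O →+* IsLocalRing.ResidueField O :=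
    (IsLocalRing.residue O).comp (constantCoeff)
  let I : Ideal e.range := (RingHom.ker ρ).map e'
  have hI : I ≠ ⊤ := by
    intro h
    have h1 : (1 : e.range) ∈ I := h ▸ Submodule.mem_top
    rw [Ideal.mem_map_iff_of_surjective e' hsurj] at h1
    obtain ⟨x, hx, hx1⟩ := h1
    have h2 : x = 1 := hinj (by rw [hx1, map_one])
    rw [h2, RingHom.mem_ker, map_one] at hx
    exact one_ne_zero hx
  obtain ⟨B, hB, hnon⟩ := Ideal.image_subset_nonunits_valuationSubring I hI
  have h1 : ∀ r : MvPolynomial ι O, B.valuation (e r) ≤ 1 := fun r =>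
    (B.valuation_le_one_iff _).2 (hB ⟨r, rfl⟩)
  have h2 : ∀ r : MvPolynomial ι O, ρ r = 0 → B.valuation (e r) < 1 := by
    intro r hr
    exact hnon ⟨e' r, Ideal.mem_map_of_mem _ (by rwa [RingHom.mem_ker]), rfl⟩
  refine ⟨B, ?_, ?_, ?_⟩
  · intro c hc
    have h3 := h1 (C ⟨c, (O.valuation_le_one_iff c).1 hc⟩)
    rwa [he, eval₂Hom_C] at h3
  · intro c hc
    have h3 := h2 (C ⟨c, (O.valuation_le_one_iff c).1 hc.le⟩) (by
      simp only [ρ, RingHom.comp_apply, constantCoeff_C]
      rw [IsLocalRing.residue_eq_zero_iff, ValuationSubring.valuation_lt_one_iff]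
      exact hc)
    rwa [he, eval₂Hom_C] at h3
  · intro i
    have h3 := h1 (X i)
    rwa [he, eval₂Hom_X'] at h3

end Pool.Agent.W282.ZP
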