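import Pool.Agent.W282.ZP.LV
import Pool.Agent.W282.ZP.Red
import Pool.Agent.W282.ZP.Choice

/-!
# Generic points of intersections with special subvarieties
-/

set_option autoImplicit false

namespace Pool.Agent.W282.ZP

open H294ZP UpperHalfPlane

/-- the modular polynomial of level `N`, as a polynomial in `Y` over `ℂ[X]` -/
noncomputable def Psi (N : ℕ) : Polynomial (Polynomial ℂ) :=
  if h : 0 < N then (modular_relation N h).choose else 0

theorem Psi_spec {N : ℕ} (hN : 0 < N) : (Psi N).Monic ∧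
    (∀ (τ w : ℍ) (a b c d : ℤ), a * d - b * c = N → (w : ℂ) * (c * τ + d) = a * τ + b →
      Polynomial.eval₂ (Polynomial.aeval (jj τ) : Polynomial ℂ →ₐ[ℂ] ℂ).toRingHom (jj w)
        (Psi N) = 0) ∧
    ∀ (K : Type) [Field K] [Algebra ℂ K] (B : ValuationSubring K) (z₁ z₂ : K),
      Polynomial.eval₂ (Polynomial.aeval z₁ : Polynomial ℂ →ₐ[ℂ] K).toRingHom z₂ (Psi N) = 0 →
      (B.valuation z₁ ≤ 1 → B.valuation z₂ ≤ 1) ∧
      (1 < B.valuation z₁ → ∃ a : ℕ, B.valuation z₂ ^ N = B.valuation z₁ ^ (a ^ 2)) := by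
  rw [Psi, dif_pos hN]
  exact (modular_relation N hN).choose_spec

theorem four_primes {N x y x' y' : ℕ} (hN : 0 < N) (hx : x.Prime) (hy : y.Prime) (hx' : x'.Prime)
    (hy' : y'.Prime) (h1 : x ≠ y) (h2 : x ≠ x') (h3 : x ≠ y') (hs : IsSquare (N * (x * y)))
    (hs' : IsSquare (N * (x' * y'))) : False := by
  obtain ⟨s, hs⟩ := hs
  obtain ⟨s', hs'⟩ := hs'
  have e1 : (s * s') ^ 2 = N ^ 2 * (x * y * (x' * y')) := by
    calc (s * s') ^ 2 = (s * s) * (s' * s') := by ring
      _ = (N * (x * y)) * (N * (x' * y')) := by rw [hs, hs']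
      _ = _ := by ring
  have e2 : N ∣ s * s' := by
    rw [← Nat.pow_dvd_pow_iff two_ne_zero, e1]
    exact Dvd.intro _ rfl
  obtain ⟨t, ht⟩ := e2
  have e3 : t ^ 2 = x * y * (x' * y') := by
    have hN2 : 0 < N ^ 2 := by positivity
    apply Nat.eq_of_mul_eq_mul_left hN2
    rw [← e1, ht]; ring
  have e4 : x ∣ t := by
    apply hx.dvd_of_dvd_pow (n := 2)
    rw [e3, mul_assoc]
    exact Dvd.intro _ rfl
  obtain ⟨u, hu⟩ := e4
  have e5 : x * u ^ 2 = y * (x' * y') := by
    apply Nat.eq_of_mul_eq_mul_left hx.pos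
    calc x * (x * u ^ 2) = t ^ 2 := by rw [hu]; ring
      _ = _ := by rw [e3]; ring
  have e6 : x ∣ y * (x' * y') := e5 ▸ Dvd.intro _ rfl
  rcases (hx.dvd_mul).1 e6 with h | h
  · exact h1 ((Nat.prime_dvd_prime_iff_eq hx hy).1 h)
  · rcases (hx.dvd_mul).1 h with h | h
    · exact h2 ((Nat.prime_dvd_prime_iff_eq hx hx').1 h)
    · exact h3 ((Nat.prime_dvd_prime_iff_eq hx hy').1 h)

/-- the valuation is determined by the exponent -/
theorem exponent_eq {K : Type*} [Field K] (B : ValuationSubring K) (w : B.ValueGroup) (hw0 : 0 < w)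
    (hw1 : w < 1) {a b : ℕ} (h : w ^ a = w ^ b) : a = b := by
  rcases lt_trichotomy a b with h1 | h1 | h1
  · exact absurd h (pow_lt_pow_right_of_lt_one₀ hw0 hw1 h1).ne'
  · exact h1
  · exact absurd h (pow_lt_pow_right_of_lt_one₀ hw0 hw1 h1).ne

/-- One prime: the typical coordinates are at least `n - d` in number. -/
theorem card_atypical {n d : ℕ} {K : Type} [Field K] [Algebra ℂ K] (O : ValuationSubring ℂ)
    (B : ValuationSubring K)
    (hOB : ∀ c : ℂ, O.valuation c ≤ 1 → B.valuation (algebraMap ℂ K c) ≤ 1)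
    (hOB' : ∀ c : ℂ, O.valuation c < 1 → B.valuation (algebraMap ℂ K c) < 1)
    (p : ℕ) (hp : p.Prime) (hpO : O.valuation ((p : ℕ) : ℂ) < 1)
    (f : ∀ J : Finset (Fin n), MvPolynomial J ℂ) (α β : Fin n → ℤ)
    (hf : ∀ J : Finset (Fin n), J.card = d + 1 → ∀ k, O.valuation ((f J).coeff k) ≤ 1)
    (hcor : ∀ J : Finset (Fin n), J.card = d + 1 → ∀ c : Fin n → Bool, O.valuation
      (MvPolynomial.eval (fun i : J => (((if c i then α i else β i : ℤ)) : ℂ)) (f J)) = 1)
    (hαβ : ∀ i, O.valuation (((α i - β i : ℤ)) : ℂ) = 1)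
    (e : Fin n → ℕ) (g : Fin n → Matrix (Fin 2) (Fin 2) ℤ) (hg : CongAt p e α β g)
    (z : Fin n → K) (hz : ∀ J : Finset (Fin n), J.card = d + 1 →
      MvPolynomial.aeval z (pull g (f J)) = 0) (A : Finset (Fin n))
    (hA : ∀ i ∈ A, B.valuation (z i) * B.valuation ((p : ℕ) : K) ^ e i ≠ 1) : A.card ≤ d := by
  classical
  have hchar : CharZero K := charZero_of_injective_algebraMap (algebraMap ℂ K).injective
  by_contra hcon
  push Not at hcon
  obtain ⟨J, hJA, hJ⟩ := Finset.exists_subset_card_eq (Nat.succ_le_of_lt hcon)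
  have hunit : ∀ c : ℂ, O.valuation c = 1 → B.valuation (algebraMap ℂ K c) = 1 := by
    intro c hc
    have hc0 : c ≠ 0 := by
      rintro rfl
      rw [map_zero] at hc
      exact zero_ne_one hc
    refine le_antisymm (hOB c hc.le) ?_
    have h1 := hOB c⁻¹ (by rw [map_inv₀, hc, inv_one])
    have h2 : B.valuation (algebraMap ℂ K c) * B.valuation (algebraMap ℂ K c⁻¹) = 1 := by
      rw [← map_mul, ← map_mul, mul_inv_cancel₀ hc0, map_one, map_one]
    calc (1 : B.ValueGroup) = B.valuation (algebraMap ℂ K c) * B.valuation (algebraMap ℂ K c⁻¹) :=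
          h2.symm
      _ ≤ B.valuation (algebraMap ℂ K c) * 1 := by gcongr
      _ = _ := mul_one _
  have hpB : B.valuation ((p : ℕ) : K) < 1 := by
    have := hOB' _ hpO
    rwa [map_natCast] at this
  set x : Fin n → K := fun i => (((g i 1 1 : ℤ) : K) * z i - ((g i 0 1 : ℤ) : K)) /
    (((g i 0 0 : ℤ) : K) - ((g i 1 0 : ℤ) : K) * z i) with hx
  have hty : ∀ i ∈ J, ((g i 0 0 : ℤ) : K) - ((g i 1 0 : ℤ) : K) * z i ≠ 0 ∧
      (B.valuation (x i - (α i : K)) < 1 ∨ B.valuation (x i - (β i : K)) < 1) := by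
    intro i hi
    obtain ⟨h1, h2, h3, h4⟩ := hg i
    have hab : B.valuation (((α i - β i : ℤ)) : K) = 1 := by
      have := hunit _ (hαβ i)
      rwa [map_intCast] at this
    rcases typical_or B p (e i) hpB (α i) (β i) (g i 0 0) (g i 0 1) (g i 1 0) (g i 1 1) hab
      hp.ne_zero h1 h2 h3 h4 (z i) with h5 | h5
    · exact absurd h5 (hA i (hJA hi))
    · exact h5
  let c : Fin n → Bool := fun i => decide (B.valuation (x i - (α i : K)) < 1)
  have hc : ∀ i ∈ J, B.valuation (x i - (((if c i then α i else β i : ℤ)) : K)) < 1 := by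
    intro i hi
    by_cases h1 : B.valuation (x i - (α i : K)) < 1
    · simp [c, h1]
    · have h2 := (hty i hi).2.resolve_left h1
      simpa [c, h1] using h2
  have h1 := hz J hJ
  rw [aeval_pull g (f J) z (fun i hi => (hty i hi).1)] at h1
  have h2 : MvPolynomial.aeval (fun i : J => x i) (f J) = 0 := by
    refine (mul_eq_zero.1 h1).resolve_left (pow_ne_zero _ ?_)
    exact Finset.prod_ne_zero_iff.2 fun i _ => (hty i i.2).1
  have h3 := val_aeval_sub_lt B (f J) (fun k => hOB _ (hf J hJ k)) (fun i : J => x i)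
    (fun i : J => (((if c i then α i else β i : ℤ)) : K)) (fun i => hc i i.2)
    (fun i => (B.valuation_le_one_iff _).2 (intCast_mem B _))
  rw [h2, zero_sub, Valuation.map_neg] at h3
  have h4 : MvPolynomial.aeval (fun i : J => (((if c i then α i else β i : ℤ)) : K)) (f J) =
      algebraMap ℂ K (MvPolynomial.eval
        (fun i : J => (((if c i then α i else β i : ℤ)) : ℂ)) (f J)) := by
    rw [← MvPolynomial.aeval_eq_eval, ← MvPolynomial.aeval_algebraMap_apply]
    congr 2
    funext i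
    exact (map_intCast (algebraMap ℂ K) _).symm
  rw [h4, hunit _ (hcor J hJ c)] at h3
  exact lt_irrefl _ h3

/-- **Main theorem for generic points.** -/
theorem exists_class {n d : ℕ} (P : Ideal (MvPolynomial (Fin n) ℂ)) [P.IsPrime]
    (hd : Algebra.trdeg ℂ (MvPolynomial (Fin n) ℂ ⧸ P) = d) (Γ : Finset ℂ) (Q₀ : ℕ) (hQ₀ : 0 < Q₀)
    (g₀ : Fin n → Matrix (Fin 2) (Fin 2) ℤ) :
    ∃ (Q : ℕ) (G : Fin n → Matrix (Fin 2) (Fin 2) ℤ), 0 < Q ∧
      ∀ g : Fin n → Matrix (Fin 2) (Fin 2) ℤ, (∀ i r s, (Q : ℤ) ∣ g i r s - G i r s) →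
        (∀ i r s, (Q₀ : ℤ) ∣ g i r s - g₀ i r s) ∧ (∀ i, (g i).det ≠ 0) ∧
        ∀ (K : Type) [Field K] [Algebra ℂ K] (z : Fin n → K),
          (∀ (J : Finset (Fin n)) (f : MvPolynomial J ℂ),
            MvPolynomial.rename (Subtype.val : J → Fin n) f ∈ P →
              MvPolynomial.aeval z (pull g f) = 0) →
          ∀ (r : ℕ) (cls : Fin n → Option (Fin r)) (N : Fin n → Fin n → ℕ), (∀ i i', 0 < N i i') →
          (∀ i, cls i = none → ∃ c : ℂ, IsIntegral (Algebra.adjoin ℤ (Γ : Set ℂ)) c ∧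
            z i = algebraMap ℂ K c) →
          (∀ i i' k, cls i = some k → cls i' = some k → Polynomial.eval₂
            (Polynomial.aeval (z i) : Polynomial ℂ →ₐ[ℂ] K).toRingHom (z i')
              (Psi (N i i')) = 0) →
          ∀ T : Finset (Fin n), AlgebraicIndependent ℂ (fun j : T => z j) →
            T.card + n ≤ r + d := by
  classical
  obtain ⟨f, α, β, hαβ, hcor⟩ := exists_corners P hd
  -- the elements that have to be units
  let s : Finset ℂ := (Finset.univ.biUnion fun J : Finset (Fin n) =>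
      (f J).support.image (f J).coeff) ∪
    (Finset.univ.biUnion fun J : Finset (Fin n) => Finset.univ.image fun c : Fin n → Bool =>
      MvPolynomial.eval (fun i : J => (((if c i then α i else β i : ℤ)) : ℂ)) (f J)) ∪
    (Finset.univ.image fun i : Fin n => (((α i - β i : ℤ)) : ℂ)) ∪ Γ
  obtain ⟨p, O, hpinj, hpO⟩ := exists_primes s Q₀
  obtain ⟨e, heprime, heinj⟩ := exists_exponents n
  set M := n * n + 1 with hM
  obtain ⟨Q, G, hQ, hclass⟩ := exists_residue_class (M := M) α β (fun m => p m)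
    (fun m => (hpO m).1) (fun m m' h => Fin.ext (hpinj h)) (fun m => e m) Q₀ hQ₀
    (fun m => (hpO m).2.1) g₀
  refine ⟨Q, G, hQ, fun g hg => ?_⟩
  obtain ⟨hg0, hgm⟩ := hclass g hg
  have hunit : ∀ m : ℕ, ∀ u ∈ s, u ≠ 0 → (O m).valuation u = 1 := fun m => (hpO m).2.2.2
  have hf : ∀ m : ℕ, ∀ J : Finset (Fin n), ∀ k, (O m).valuation ((f J).coeff k) ≤ 1 := by
    intro m J k
    by_cases h0 : (f J).coeff k = 0
    · rw [h0, map_zero]; exact zero_le_one
    · refine (hunit m _ ?_ h0).le
      refine Finset.mem_union_left _ (Finset.mem_union_left _ (Finset.mem_union_left _ ?_))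
      exact Finset.mem_biUnion.2 ⟨J, Finset.mem_univ _, Finset.mem_image_of_mem _
        (MvPolynomial.mem_support_iff.2 h0)⟩
  have hcorv : ∀ m : ℕ, ∀ J : Finset (Fin n), J.card = d + 1 → ∀ c : Fin n → Bool,
      (O m).valuation
        (MvPolynomial.eval (fun i : J => (((if c i then α i else β i : ℤ)) : ℂ)) (f J)) = 1 := by
    intro m J hJ c
    refine hunit m _ ?_ ((hcor J hJ).2 c)
    refine Finset.mem_union_left _ (Finset.mem_union_left _ (Finset.mem_union_right _ ?_))
    exact Finset.mem_biUnion.2 ⟨J, Finset.mem_univ _, Finset.mem_image_of_mem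
      (fun c : Fin n → Bool =>
        MvPolynomial.eval (fun i : J => (((if c i then α i else β i : ℤ)) : ℂ)) (f J))
      (Finset.mem_univ c)⟩
  have hαβv : ∀ m : ℕ, ∀ i, (O m).valuation (((α i - β i : ℤ)) : ℂ) = 1 := by
    intro m i
    refine hunit m _ ?_ (by exact_mod_cast sub_ne_zero.2 (hαβ i))
    refine Finset.mem_union_left _ (Finset.mem_union_right _ ?_)
    exact Finset.mem_image_of_mem (fun i : Fin n => (((α i - β i : ℤ)) : ℂ)) (Finset.mem_univ i)
  have hΓ : ∀ m : ℕ, ∀ c : ℂ, IsIntegral (Algebra.adjoin ℤ (Γ : Set ℂ)) c →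
      (O m).valuation c ≤ 1 := by
    intro m c hc
    have hle : ∀ y ∈ Algebra.adjoin ℤ (Γ : Set ℂ), y ∈ O m := by
      intro y hy
      induction hy using Algebra.adjoin_induction with
      | mem t ht =>
        rw [← (O m).valuation_le_one_iff]
        by_cases h0 : t = 0
        · rw [h0, map_zero]; exact zero_le_one
        · exact (hunit m t (Finset.mem_union_right _ ht) h0).le
      | algebraMap t => exact intCast_mem (O m) t
      | add s t _ _ hs ht => exact (O m).add_mem _ _ hs ht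
      | mul s t _ _ hs ht => exact (O m).mul_mem _ _ hs ht
    obtain ⟨q, hq, hqe⟩ := hc
    let φ : Algebra.adjoin ℤ (Γ : Set ℂ) →+* O m :=
      { toFun := fun y => ⟨y, hle y y.2⟩
        map_one' := rfl
        map_mul' := fun _ _ => rfl
        map_zero' := rfl
        map_add' := fun _ _ => rfl }
    have hB : IsIntegral (O m) c := by
      refine ⟨q.map φ, hq.map φ, ?_⟩
      rw [Polynomial.eval₂_map]
      exact hqe
    obtain ⟨y, hy⟩ := IsIntegrallyClosed.isIntegral_iff.1 hB
    rw [← hy]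
    exact ((O m).valuation_le_one_iff _).2 y.2
  have hdet : ∀ i, (g i).det ≠ 0 := by
    intro i h0
    have hm0 : 0 < M := Nat.succ_pos _
    obtain ⟨h1, h2, h3, h4⟩ := hgm ⟨0, hm0⟩ i
    rw [Matrix.det_fin_two] at h0
    have hp := (hpO 0).1
    change ((p 0 : ℕ) : ℤ) ^ (e 0 i + 1) ∣ g i 0 0 - 1 at h1
    change ((p 0 : ℕ) : ℤ) ^ (e 0 i + 1) ∣ g i 0 1 + α i at h2
    change ((p 0 : ℕ) : ℤ) ^ (e 0 i + 1) ∣ g i 1 0 - (p 0 : ℤ) ^ e 0 i at h3
    change ((p 0 : ℕ) : ℤ) ^ (e 0 i + 1) ∣ g i 1 1 + (p 0 : ℤ) ^ e 0 i * β i at h4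
    have h5 : ((p 0 : ℕ) : ℤ) ^ (e 0 i + 1) ∣ (p 0 : ℤ) ^ e 0 i * (α i - β i) := by
      have h6 : (p 0 : ℤ) ^ e 0 i * (α i - β i) = -((g i 0 0 - 1) * g i 1 1 +
          (g i 1 1 + (p 0 : ℤ) ^ e 0 i * β i) - (g i 0 1 + α i) * g i 1 0 +
          α i * (g i 1 0 - (p 0 : ℤ) ^ e 0 i)) := by linear_combination h0
      rw [h6, dvd_neg]
      exact dvd_add (dvd_sub (dvd_add (h1.mul_right _) h4) (h2.mul_right _)) (h3.mul_left _)
    rw [pow_succ] at h5
    have h7 : ((p 0 : ℕ) : ℤ) ∣ α i - β i :=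
      (mul_dvd_mul_iff_left (pow_ne_zero _ (by exact_mod_cast hp.ne_zero))).1 h5
    obtain ⟨k, hk⟩ := h7
    have h8 := hαβv 0 i
    rw [hk, Int.cast_mul, map_mul, Int.cast_natCast] at h8
    have h9 : (O 0).valuation ((k : ℤ) : ℂ) ≤ 1 :=
      ((O 0).valuation_le_one_iff _).2 (intCast_mem (O 0) k)
    have h10 : (O 0).valuation ((p 0 : ℕ) : ℂ) * (O 0).valuation ((k : ℤ) : ℂ) < 1 := by
      calc (O 0).valuation ((p 0 : ℕ) : ℂ) * (O 0).valuation ((k : ℤ) : ℂ)
          ≤ (O 0).valuation ((p 0 : ℕ) : ℂ) * 1 := by gcongr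
        _ = (O 0).valuation ((p 0 : ℕ) : ℂ) := mul_one _
        _ < 1 := (hpO 0).2.2.1
    rw [h8] at h10
    exact lt_irrefl _ h10
  refine ⟨hg0, hdet, ?_⟩
  intro K _ _ z hz r cls N hN hconst hrel T hT
  have hchar : CharZero K := charZero_of_injective_algebraMap (algebraMap ℂ K).injective
  -- the classes of the coordinates in `T`
  have hTsome : ∀ t : T, ∃ k, cls t = some k := by
    intro t
    cases hc : cls t with
    | none =>
      obtain ⟨c, -, hc2⟩ := hconst t hc
      exact absurd (hc2 ▸ isAlgebraic_algebraMap c) (hT.transcendental t)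
    | some k => exact ⟨k, rfl⟩
  choose κ hκ using hTsome
  have hκinj : Function.Injective κ := by
    intro t t' htt
    by_contra hne
    have h1 := hrel t t' (κ t) (hκ t) (by rw [htt]; exact hκ t')
    have h2 := hT.transcendental_adjoin (s := {t}) (i := t') (by
      intro h
      rw [Set.mem_singleton_iff] at h
      exact hne h.symm)
    apply h2
    rw [Set.image_singleton]
    have hmem : z t ∈ Algebra.adjoin ℂ {z t} := Algebra.subset_adjoin rfl
    let ψ : Polynomial ℂ →ₐ[ℂ] Algebra.adjoin ℂ {z t} := Polynomial.aeval ⟨z t, hmem⟩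
    have hcomp : ((Algebra.adjoin ℂ {z t}).val.comp ψ) =
        (Polynomial.aeval (z t) : Polynomial ℂ →ₐ[ℂ] K) := by
      apply Polynomial.algHom_ext
      simp [ψ]
    have hint : IsIntegral (Algebra.adjoin ℂ {z t}) (z t') := by
      refine ⟨(Psi (N t t')).map ψ.toRingHom, (Psi_spec (hN t t')).1.map _, ?_⟩
      rw [Polynomial.eval₂_map, ← h1]
      congr 1
      exact congrArg AlgHom.toRingHom hcomp
    exact hint.isAlgebraic
  by_contra hcon
  push Not at hcon
  -- one prime
  have hone : ∀ m : Fin M, ∃ q : Fin n × Fin n, q.1 ≠ q.2 ∧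
      IsSquare (N q.1 q.2 * (e m q.1 * e m q.2)) := by
    intro m
    obtain ⟨B, hB1, hB2, hB3⟩ := exists_above (O m) (fun j : T => z j) hT
    have hpB : B.valuation ((p m : ℕ) : K) < 1 := by
      have := hB2 _ (hpO m).2.2.1
      rwa [map_natCast] at this
    have hpB0 : 0 < B.valuation ((p m : ℕ) : K) := by
      rw [zero_lt_iff, Valuation.ne_zero_iff]
      exact_mod_cast (hpO m).1.ne_zero
    let A : Finset (Fin n) := Finset.univ.filter fun i =>
      B.valuation (z i) * B.valuation ((p m : ℕ) : K) ^ e m i ≠ 1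
    let Ty : Finset (Fin n) := Finset.univ.filter fun i =>
      B.valuation (z i) * B.valuation ((p m : ℕ) : K) ^ e m i = 1
    have hAcard : A.card ≤ d := card_atypical (O m) B hB1 hB2 (p m) (hpO m).1 (hpO m).2.2.1 f α β
      (fun J _ => hf m J) (hcorv m) (hαβv m) (e m) g (hgm m) z
      (fun J hJ => hz J (f J) (hcor J hJ).1) A (fun i hi => (Finset.mem_filter.1 hi).2)
    have hcards : Ty.card + A.card = n := by
      have := Finset.card_filter_add_card_filter_not (s := (Finset.univ : Finset (Fin n)))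
        (fun i => B.valuation (z i) * B.valuation ((p m : ℕ) : K) ^ e m i = 1)
      rw [Finset.card_univ, Fintype.card_fin] at this
      exact this
    have hTy : ∀ i ∈ Ty, 1 < B.valuation (z i) := by
      intro i hi
      have h1 := (Finset.mem_filter.1 hi).2
      by_contra h2
      push Not at h2
      have h3 : B.valuation ((p m : ℕ) : K) ^ e m i < 1 :=
        pow_lt_one₀ zero_le hpB (heprime m i).ne_zero
      have h4 : B.valuation (z i) * B.valuation ((p m : ℕ) : K) ^ e m i < 1 := by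
        calc B.valuation (z i) * B.valuation ((p m : ℕ) : K) ^ e m i
            ≤ 1 * B.valuation ((p m : ℕ) : K) ^ e m i := by gcongr
          _ = B.valuation ((p m : ℕ) : K) ^ e m i := one_mul _
          _ < 1 := h3
      rw [h1] at h4
      exact lt_irrefl _ h4
    -- the free classes
    let Fr : Finset (Option (Fin r)) := (Finset.univ.filter fun k : Fin r =>
      k ∉ Finset.univ.image κ).image some
    have hFr : Fr.card + T.card = r := by
      have h1 : Fr.card = (Finset.univ.filter fun k : Fin r =>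
          k ∉ Finset.univ.image κ).card :=
        Finset.card_image_of_injective _ (Option.some_injective _)
      have h2 : (Finset.univ.filter fun k : Fin r => k ∈ Finset.univ.image κ).card = T.card := by
        have h3 : (Finset.univ.filter fun k : Fin r => k ∈ Finset.univ.image κ) =
            Finset.univ.image κ := by
          ext k; simp
        rw [h3, Finset.card_image_of_injective _ hκinj, Finset.card_univ, Fintype.card_coe]
      have := Finset.card_filter_add_card_filter_not (s := (Finset.univ : Finset (Fin r)))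
        (fun k => k ∈ Finset.univ.image κ)
      rw [Finset.card_univ, Fintype.card_fin] at this
      rw [h1]
      omega
    have hmaps : ∀ i ∈ Ty, cls i ∈ Fr := by
      intro i hi
      have h1 := hTy i hi
      cases hc : cls i with
      | none =>
        obtain ⟨c, hc1, hc2⟩ := hconst i hc
        have h2 := hB1 c (hΓ m c hc1)
        rw [← hc2] at h2
        exact absurd h1 (not_lt.2 h2)
      | some k =>
        refine Finset.mem_image_of_mem _ (Finset.mem_filter.2 ⟨Finset.mem_univ _, ?_⟩)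
        intro hk
        obtain ⟨t, -, ht⟩ := Finset.mem_image.1 hk
        have h2 := hrel t i k (ht ▸ hκ t) hc
        have h3 := (((Psi_spec (hN t i)).2.2 K B (z t) (z i) h2).1) (hB3 t)
        exact absurd h1 (not_lt.2 h3)
    obtain ⟨i, hi, i', hi', hne, hcls⟩ := Finset.exists_ne_map_eq_of_card_lt_of_maps_to
      (s := Ty) (t := Fr) (by omega) (f := cls) hmaps
    refine ⟨(i, i'), hne, ?_⟩
    obtain ⟨k, -, hk⟩ := Finset.mem_image.1 (hmaps i hi)
    have h2 := hrel i i' k hk.symm (hcls ▸ hk.symm)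
    obtain ⟨a, ha⟩ := (((Psi_spec (hN i i')).2.2 K B (z i) (z i') h2).2) (hTy i hi)
    have h3 := (Finset.mem_filter.1 hi).2
    have h4 := (Finset.mem_filter.1 hi').2
    set w := B.valuation ((p m : ℕ) : K) with hw
    have h5 : w ^ (e m i' * N i i') = w ^ (e m i * a ^ 2) := by
      have h6 : (B.valuation (z i') * w ^ e m i') ^ N i i' = 1 := by rw [h4, one_pow]
      have h7 : (B.valuation (z i) * w ^ e m i) ^ (a ^ 2) = 1 := by rw [h3, one_pow]
      rw [mul_pow, ← pow_mul] at h6 h7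
      rw [ha] at h6
      have h8 : B.valuation (z i) ^ (a ^ 2) ≠ 0 :=
        pow_ne_zero _ (zero_lt_one.trans (hTy i hi)).ne'
      exact mul_left_cancel₀ h8 (h6.trans h7.symm)
    have h6 := exponent_eq B w hpB0 hpB h5
    refine ⟨e m i * a, ?_⟩
    calc N i i' * (e m i * e m i') = e m i * (e m i' * N i i') := by ring
      _ = e m i * (e m i * a ^ 2) := by rw [h6]
      _ = _ := by ring
  choose q hq1 hq2 using hone
  obtain ⟨m, m', hmm, hqq⟩ := Fintype.exists_ne_map_eq_of_card_lt q (by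
    rw [Fintype.card_prod, Fintype.card_fin, Fintype.card_fin]
    omega)
  have h1 := hq2 m
  have h2 := hq2 m'
  rw [← hqq] at h2
  refine four_primes (hN (q m).1 (q m).2) (heprime m (q m).1) (heprime m (q m).2)
    (heprime m' (q m).1) (heprime m' (q m).2) ?_ ?_ ?_ h1 h2
  · intro h
    exact hq1 m (heinj _ _ _ _ h).2
  · intro h
    exact hmm (Fin.ext (heinj _ _ _ _ h).1)
  · intro h
    exact hmm (Fin.ext (heinj _ _ _ _ h).1)

end Pool.Agent.W282.ZP
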