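import Pool.Agent.H294ZP.Main

/-!
# The Newton polygon of the modular equation

For `N ≥ 1` there is a monic polynomial `Ψ` with coefficients in `ℂ[X]` such that `Ψ(j τ, j w) = 0`
whenever `w = g τ` with `g` integral of determinant `N`; and if `Ψ(z₁, z₂) = 0` in a field with a
valuation ring `B`, then `z₂` is in `B` if `z₁` is, and otherwise `v(z₂)^N = v(z₁)^(a²)` for some
natural number `a`.
-/

set_option autoImplicit false

open UpperHalfPlane Function Polynomial

namespace Pool.Agent.W282.ZP

open H294ZP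

theorem lau_prod (hC : TC) {N : ℕ} (hN : 0 < N) {ι : Type} [DecidableEq ι] (G : ι → ℍ → ℂ)
    (e : ι → ℕ) (A : ι → ℂ) (hG : ∀ k, Lau N (e k) (A k) (G k)) (s : Finset ι) :
    Lau N (∑ k ∈ s, e k) (∏ k ∈ s, A k) (fun τ => ∏ k ∈ s, G k τ) := by
  induction s using Finset.induction_on with
  | empty => simpa using hC.1 N 1 hN isIntegral_one
  | insert a s ha ih =>
    have h := hC.2.2.2.1 N (e a) (∑ k ∈ s, e k) (A a) (∏ k ∈ s, A k) _ _ hN (hG a) ih
    rw [Finset.sum_insert ha, Finset.prod_insert ha]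
    simp only [Finset.prod_insert ha]
    exact h

theorem lau_raise (hC : TC) {N : ℕ} (hN : 0 < N) {f : ℍ → ℂ} {m E : ℕ} {A : ℂ} (h : Lau N m A f)
    (hE : m ≤ E) : Lau N E (if m = E then A else 0) f := by
  rcases hE.eq_or_lt with rfl | hlt
  · rw [if_pos rfl]; exact h
  · have h1 := hC.2.1 N m (E - m) A f hN (by omega) h
    rw [show m + (E - m) = E by omega] at h1
    rw [if_neg (by omega)]
    exact h1

theorem lau_sum (hC : TC) {N : ℕ} (hN : 0 < N) {κ : Type} [DecidableEq κ] (F : κ → ℍ → ℂ)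
    (e : κ → ℕ) (A : κ → ℂ) (hF : ∀ S, Lau N (e S) (A S) (F S)) (E : ℕ) (s : Finset κ)
    (hE : ∀ S ∈ s, e S ≤ E) :
    Lau N E (∑ S ∈ s, if e S = E then A S else 0) (fun τ => ∑ S ∈ s, F S τ) := by
  induction s using Finset.induction_on with
  | empty =>
    have h := lau_raise hC hN (hC.1 N 0 hN isIntegral_zero) (Nat.zero_le E)
    simpa using h
  | insert a s ha ih =>
    have h1 := ih fun S hS => hE S (Finset.mem_insert_of_mem hS)
    have h2 := lau_raise hC hN (hF a) (hE a (Finset.mem_insert_self a s))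
    have h3 := hC.2.2.1 N E _ _ _ _ hN h2 h1
    rw [Finset.sum_insert ha]
    simp only [Finset.sum_insert ha]
    exact h3

/-- algebraic integers have valuation at most one -/
theorem val_le_of_integral {K : Type*} [Field K] [Algebra ℂ K] (B : ValuationSubring K) {c : ℂ}
    (h : IsIntegral ℤ c) : B.valuation (algebraMap ℂ K c) ≤ 1 := by
  have h1 : IsIntegral ℤ (algebraMap ℂ K c) := h.algebraMap
  have h2 : IsIntegral B (algebraMap ℂ K c) := h1.tower_top
  obtain ⟨y, hy⟩ := IsIntegrallyClosed.isIntegral_iff.1 h2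
  rw [← hy]
  exact (B.valuation_le_one_iff _).2 y.2

/-- upper bound for the value of a polynomial with integral coefficients -/
theorem val_aeval_le {K : Type*} [Field K] [Algebra ℂ K] (B : ValuationSubring K) (P : ℂ[X])
    (hP : ∀ k, IsIntegral ℤ (P.coeff k)) {E : ℕ} (hE : P.natDegree ≤ E) (z : K)
    (hz : 1 ≤ B.valuation z) : B.valuation (aeval z P) ≤ B.valuation z ^ E := by
  rw [aeval_eq_sum_range' (Nat.lt_succ_of_le hE)]
  refine B.valuation.map_sum_le fun k hk => ?_
  rw [Algebra.smul_def, map_mul, map_pow]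
  calc B.valuation (algebraMap ℂ K (P.coeff k)) * B.valuation z ^ k
      ≤ 1 * B.valuation z ^ k := by gcongr; exact val_le_of_integral B (hP k)
    _ = B.valuation z ^ k := one_mul _
    _ ≤ B.valuation z ^ E := pow_le_pow_right₀ hz (Nat.lt_succ_iff.1 (Finset.mem_range.1 hk))

/-- upper bound for the value of a polynomial with integral coefficients -/
theorem val_aeval_le_one {K : Type*} [Field K] [Algebra ℂ K] (B : ValuationSubring K) (P : ℂ[X])
    (hP : ∀ k, IsIntegral ℤ (P.coeff k)) (z : K)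
    (hz : B.valuation z ≤ 1) : B.valuation (aeval z P) ≤ 1 := by
  rw [aeval_eq_sum_range]
  refine B.valuation.map_sum_le fun k hk => ?_
  rw [Algebra.smul_def, map_mul, map_pow]
  calc B.valuation (algebraMap ℂ K (P.coeff k)) * B.valuation z ^ k
      ≤ 1 * 1 := by
        gcongr
        · exact val_le_of_integral B (hP k)
        · exact pow_le_one' hz k
    _ = 1 := one_mul _

/-- exact value when the top coefficient is a unit -/
theorem val_aeval_eq {K : Type*} [Field K] [Algebra ℂ K] (B : ValuationSubring K) (P : ℂ[X])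
    (hP : ∀ k, IsIntegral ℤ (P.coeff k)) {E : ℕ} (hE : P.natDegree ≤ E) (z : K)
    (hz : 1 < B.valuation z) (h1 : B.valuation (algebraMap ℂ K (P.coeff E)) = 1) :
    B.valuation (aeval z P) = B.valuation z ^ E := by
  rw [aeval_eq_sum_range' (Nat.lt_succ_of_le hE)]
  have key := B.valuation.map_sum_eq_of_lt (s := Finset.range (E + 1))
    (f := fun k => P.coeff k • z ^ k) (j := E) (by simp) (by
      intro k hk
      rw [Finset.mem_sdiff, Finset.mem_singleton, Finset.mem_range] at hk
      have hkE : k < E := by omega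
      rw [Algebra.smul_def, Algebra.smul_def, map_mul, map_mul, h1, one_mul, map_pow, map_pow]
      calc B.valuation (algebraMap ℂ K (P.coeff k)) * B.valuation z ^ k
          ≤ 1 * B.valuation z ^ k := by gcongr; exact val_le_of_integral B (hP k)
        _ = B.valuation z ^ k := one_mul _
        _ < B.valuation z ^ E := pow_lt_pow_right₀ hz hkE)
  rw [key, Algebra.smul_def, map_mul, h1, one_mul, map_pow]

theorem val_root_of_unity {K : Type*} [Field K] (B : ValuationSubring K) {c : K} {m : ℕ}
    (hm : 0 < m) (h : c ^ m = 1) : B.valuation c = 1 := by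
  have h1 : B.valuation c ^ m = 1 := by rw [← map_pow, h, map_one]
  rcases lt_trichotomy (B.valuation c) 1 with h2 | h2 | h2
  · exact absurd h1 (pow_lt_one₀ zero_le h2 hm.ne').ne
  · exact h2
  · exact absurd h1 (one_lt_pow₀ h2 hm.ne').ne'

/-- a set of indices with a strict gap is the unique maximum -/
theorem prod_choice_lt {K : Type*} [Field K] (B : ValuationSubring K) {ι : Type} [Fintype ι]
    [DecidableEq ι] (η : ι → B.ValueGroup) (θ : B.ValueGroup) (hη : ∀ k, 0 < η k) (hθ : 0 < θ)
    (hne : ∀ k, η k ≠ θ) (S : Finset ι) (hS : S ≠ Finset.univ.filter fun k => θ < η k) :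
    (∏ k ∈ S, η k) * θ ^ (Fintype.card ι - S.card) <
      (∏ k ∈ Finset.univ.filter (fun k => θ < η k), η k) *
        θ ^ (Fintype.card ι - (Finset.univ.filter fun k => θ < η k).card) := by
  have hw : ∀ T : Finset ι, (∏ k ∈ T, η k) * θ ^ (Fintype.card ι - T.card) =
      ∏ k, if k ∈ T then η k else θ := by
    intro T
    rw [Finset.prod_ite, Finset.prod_const]
    congr 2
    · ext k; simp
    · rw [← Finset.card_univ, ← Finset.card_sdiff_of_subset (Finset.subset_univ T)]
      congr 1
      ext k; simp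
  rw [hw, hw]
  refine Finset.prod_lt_prod ?_ ?_ ?_
  · intro k _
    split_ifs
    · exact hη k
    · exact hθ
  · intro k _
    simp only [Finset.mem_filter, Finset.mem_univ, true_and]
    split_ifs with h1 h2 h2
    · exact le_rfl
    · exact not_lt.1 h2
    · exact h2.le
    · exact le_rfl
  · by_contra hcon
    push Not at hcon
    apply hS
    ext k
    have h1 := hcon k (Finset.mem_univ k)
    simp only [Finset.mem_filter, Finset.mem_univ, true_and] at h1 ⊢
    by_cases hk : k ∈ S
    · rw [if_pos hk] at h1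
      refine ⟨fun _ => ?_, fun _ => hk⟩
      by_contra h2
      rw [if_neg h2] at h1
      exact h2 (lt_of_le_of_ne h1 (hne k).symm)
    · rw [if_neg hk] at h1
      refine ⟨fun h => absurd h hk, fun h2 => ?_⟩
      rw [if_pos h2] at h1
      exact absurd h2 (not_lt.2 h1)

/-- The coefficients of the modular equation. -/
theorem modular_coeffs (N : ℕ) (hN : 0 < N) : ∃ (ι : Type) (_ : Fintype ι) (_ : DecidableEq ι)
    (α : ι → ℕ) (P : ℕ → ℂ[X]) (E : ℕ → ℕ),
    (∀ m k, IsIntegral ℤ ((P m).coeff k)) ∧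
    (∀ m ≤ Fintype.card ι, (P m).natDegree ≤ E m / N) ∧
    (∀ m ≤ Fintype.card ι, ∃ S : Finset ι, S.card = m ∧ E m = ∑ k ∈ S, α k ^ 2) ∧
    (∀ S₀ : Finset ι, (∀ S : Finset ι, S.card = S₀.card → S ≠ S₀ →
      ∑ k ∈ S, α k ^ 2 < ∑ k ∈ S₀, α k ^ 2) → E S₀.card = ∑ k ∈ S₀, α k ^ 2 ∧
      N ∣ E S₀.card ∧ ∃ r : ℕ, 0 < r ∧ ((P S₀.card).coeff (E S₀.card / N)) ^ r = 1) ∧
    P 0 = 1 ∧
    (∀ (τ w : ℍ) (a b c d : ℤ), a * d - b * c = N → (w : ℂ) * (c * τ + d) = a * τ + b →
      ∑ m ∈ Finset.range (Fintype.card ι + 1), (P m).eval (jj τ) *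
        jj w ^ (Fintype.card ι - m) = 0) := by
  classical
  have hC : TC := tc
  have hA : TA := ⟨ta1.1, ta1.2, ta2⟩
  have hB : TB := TBproof.tb hA hC
  obtain ⟨ι, _, _, α, δ, β, h, h1, h2, h3, h4⟩ := TF676.tf ta1.1 N hN
  set D := Fintype.card ι with hD
  set ζ : ι → ℂ := fun k => Complex.exp (- (2 * Real.pi * Complex.I * β k / δ k)) with hζ
  -- the expansions of the functions `-j (h_k τ)`
  have hG : ∀ k, Lau N (α k ^ 2) (-ζ k) (fun τ => -jj (h k τ)) := by
    intro k
    obtain ⟨ha, hd, had⟩ := h1 k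
    have h5 := (hC.2.2.2.2 hA.2.1 hA.2.2 (α k) (δ k) (β k) ha hd (h k) (h2 k)).1
    rw [had] at h5
    have h6 := hC.2.2.2.1 N 0 (α k ^ 2) (-1) (ζ k) _ _ hN (hC.1 N (-1) hN isIntegral_one.neg) h5
    simpa using h6
  have hGH : ∀ k, Hol (fun τ => -jj (h k τ)) := by
    intro k
    obtain ⟨ha, hd, had⟩ := h1 k
    have h5 := (hC.2.2.2.2 hA.2.1 hA.2.2 (α k) (δ k) (β k) ha hd (h k) (h2 k)).2
    have h6 := TDaux.Hol.mul (TDaux.Hol.const (-1)) h5
    simpa using h6
  let F : Finset ι → ℍ → ℂ := fun S τ => ∏ k ∈ S, -jj (h k τ)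
  let es : Finset ι → ℕ := fun S => ∑ k ∈ S, α k ^ 2
  let As : Finset ι → ℂ := fun S => ∏ k ∈ S, -ζ k
  have hF : ∀ S, Lau N (es S) (As S) (F S) := fun S => lau_prod hC hN _ _ _ hG S
  have hFH : ∀ S, Hol (F S) := by
    intro S
    induction S using Finset.induction_on with
    | empty => simpa [F] using TDaux.Hol.const 1
    | insert a s ha ih =>
      have := TDaux.Hol.mul (hGH a) ih
      simpa only [F, Finset.prod_insert ha] using this
  let E : ℕ → ℕ := fun m => (Finset.powersetCard m (Finset.univ : Finset ι)).sup es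
  have hEle : ∀ m, ∀ S ∈ Finset.powersetCard m (Finset.univ : Finset ι), es S ≤ E m :=
    fun m S hS => Finset.le_sup hS
  -- the coefficient functions
  let R : ℕ → ℍ → ℂ := fun m τ => ∑ S ∈ Finset.powersetCard m (Finset.univ : Finset ι), F S τ
  have hRL : ∀ m, Lau N (E m) (∑ S ∈ Finset.powersetCard m (Finset.univ : Finset ι),
      if es S = E m then As S else 0) (R m) := fun m => lau_sum hC hN F es As hF (E m) _ (hEle m)
  have hRH : ∀ m, Hol (R m) := by
    intro m
    have key : ∀ s : Finset (Finset ι), Hol (fun τ => ∑ S ∈ s, F S τ) := by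
      intro s
      induction s using Finset.induction_on with
      | empty => simpa using TDaux.Hol.const 0
      | insert a s ha ih =>
        have := TDaux.Hol.add (hFH a) ih
        simpa only [Finset.sum_insert ha] using this
    exact key _
  have hprod : ∀ τ : ℍ, ∀ y : ℂ, ∏ k, (y - jj (h k τ)) =
      ∑ m ∈ Finset.range (D + 1), R m τ * y ^ (D - m) := by
    intro τ y
    have e1 : ∏ k, (y - jj (h k τ)) = ∏ k, (-jj (h k τ) + y) :=
      Finset.prod_congr rfl fun k _ => by ring
    rw [e1, Finset.prod_add, Finset.sum_powerset]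
    rw [Finset.card_univ, ← hD]
    refine Finset.sum_congr rfl fun m hm => ?_
    rw [Finset.sum_mul]
    refine Finset.sum_congr rfl fun S hS => ?_
    rw [Finset.prod_const, Finset.card_sdiff_of_subset (Finset.subset_univ S), Finset.card_univ,
      (Finset.mem_powersetCard.1 hS).2]
  have hprodX : ∀ τ : ℍ, ∏ k, (X - C (jj (h k τ))) =
      ∑ m ∈ Finset.range (D + 1), C (R m τ) * X ^ (D - m) := by
    intro τ
    apply Polynomial.funext
    intro y
    rw [eval_prod, eval_finsetSum]
    simp only [eval_sub, eval_X, eval_C, eval_mul, eval_pow]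
    exact hprod τ y
  have hRcoeff : ∀ τ : ℍ, ∀ m ≤ D, R m τ = (∏ k, (X - C (jj (h k τ)))).coeff (D - m) := by
    intro τ m hm
    rw [hprodX, finsetSum_coeff, Finset.sum_eq_single m]
    · rw [coeff_C_mul, coeff_X_pow, if_pos rfl, mul_one]
    · intro m' hm' hne
      rw [coeff_C_mul, coeff_X_pow, if_neg, mul_zero]
      have := Finset.mem_range.1 hm'
      omega
    · intro hm'
      exact absurd (Finset.mem_range.2 (by omega)) hm'
  have hRI : ∀ m ≤ D, Inv (R m) := by
    intro m hm p q r s hps τ w hw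
    obtain ⟨σ, hσ⟩ := h3 p q r s hps τ w hw
    rw [hRcoeff w m hm, hRcoeff τ m hm]
    have e2 : (∏ k, (X - C (jj (h k w)))) = ∏ k, (X - C (jj (h k τ))) := by
      rw [← Equiv.prod_comp σ (fun k => (X - C (jj (h k τ))))]
      exact Finset.prod_congr rfl fun k _ => by rw [hσ k]
    rw [e2]
  have hP : ∀ m : ℕ, ∃ P : ℂ[X], (∀ k, IsIntegral ℤ (P.coeff k)) ∧
      (m ≤ D → (∀ τ, R m τ = P.eval (jj τ)) ∧ P.natDegree ≤ E m / N ∧
      ((∑ S ∈ Finset.powersetCard m (Finset.univ : Finset ι),
        if es S = E m then As S else 0) ≠ 0 → N ∣ E m) ∧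
      (N ∣ E m → P.coeff (E m / N) = ∑ S ∈ Finset.powersetCard m (Finset.univ : Finset ι),
        if es S = E m then As S else 0)) := by
    intro m
    by_cases hm : m ≤ D
    · obtain ⟨P, p1, p2, p3, p4, p5⟩ := hB N hN (E m) _ (R m) (hRI m hm) (hRH m) (hRL m)
      exact ⟨P, p1, fun _ => ⟨p2, p4, p3, p5⟩⟩
    · exact ⟨0, fun k => by simpa using isIntegral_zero, fun h => absurd h hm⟩
  choose P hPint hP' using hP
  -- the vertices of the polygon
  have hvert : ∀ S₀ : Finset ι, (∀ S : Finset ι, S.card = S₀.card → S ≠ S₀ → es S < es S₀) →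
      E S₀.card = es S₀ ∧ (∑ S ∈ Finset.powersetCard S₀.card (Finset.univ : Finset ι),
        if es S = E S₀.card then As S else 0) = As S₀ := by
    intro S₀ hS₀
    have hmem : S₀ ∈ Finset.powersetCard S₀.card (Finset.univ : Finset ι) :=
      Finset.mem_powersetCard.2 ⟨Finset.subset_univ _, rfl⟩
    have e1 : E S₀.card = es S₀ := by
      refine le_antisymm (Finset.sup_le fun S hS => ?_) (hEle _ _ hmem)
      by_cases hne : S = S₀
      · rw [hne]
      · exact (hS₀ S (Finset.mem_powersetCard.1 hS).2 hne).le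
    refine ⟨e1, ?_⟩
    rw [Finset.sum_eq_single S₀, if_pos e1.symm]
    · intro S hS hne
      rw [if_neg]
      rw [e1]
      exact (hS₀ S (Finset.mem_powersetCard.1 hS).2 hne).ne
    · intro h; exact absurd hmem h
  have hζ0 : ∀ k, ζ k ≠ 0 := fun k => Complex.exp_ne_zero _
  have hζpow : ∀ k, (-ζ k) ^ (2 * δ k) = 1 := by
    intro k
    have hd : (δ k : ℂ) ≠ 0 := by exact_mod_cast (h1 k).2.1.ne'
    have e1 : ζ k ^ (2 * δ k) = 1 := by
      change Complex.exp (- (2 * Real.pi * Complex.I * β k / δ k)) ^ (2 * δ k) = 1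
      rw [← Complex.exp_nat_mul, Complex.exp_eq_one_iff]
      refine ⟨-2 * β k, ?_⟩
      push_cast
      field_simp
    rw [pow_mul, neg_sq, ← pow_mul, e1]
  have hAs0 : ∀ S, As S ≠ 0 := fun S => Finset.prod_ne_zero_iff.2 fun k _ => neg_ne_zero.2 (hζ0 k)
  have hAspow : ∀ S, ∃ r : ℕ, 0 < r ∧ As S ^ r = 1 := by
    intro S
    refine ⟨∏ k, (2 * δ k), Finset.prod_pos fun k _ => by have := (h1 k).2.1; omega, ?_⟩
    rw [← Finset.prod_pow]
    refine Finset.prod_eq_one fun k _ => ?_
    obtain ⟨t, ht⟩ := Finset.dvd_prod_of_mem (fun k => 2 * δ k) (Finset.mem_univ k)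
    rw [ht, pow_mul, hζpow, one_pow]
  have hcardle : ∀ S : Finset ι, S.card ≤ D := fun S => Finset.card_le_univ S
  refine ⟨ι, inferInstance, inferInstance, α, P, E, hPint, fun m hm => (hP' m hm).2.1, ?_, ?_,
    ?_, ?_⟩
  · intro m hm
    have hne : (Finset.powersetCard m (Finset.univ : Finset ι)).Nonempty := by
      apply Finset.powersetCard_nonempty_of_le
      rwa [Finset.card_univ]
    obtain ⟨S, hS, hSE⟩ := Finset.exists_mem_eq_sup _ hne es
    exact ⟨S, (Finset.mem_powersetCard.1 hS).2, hSE⟩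
  · intro S₀ hS₀
    obtain ⟨e1, e2⟩ := hvert S₀ hS₀
    obtain ⟨-, -, p3, p4⟩ := hP' S₀.card (hcardle S₀)
    rw [e2] at p3 p4
    have hdvd := p3 (hAs0 S₀)
    refine ⟨e1, hdvd, ?_⟩
    rw [p4 hdvd]
    exact hAspow S₀
  · have hv0 := hvert ∅ (by
      intro S hS hne
      rw [Finset.card_empty, Finset.card_eq_zero] at hS
      exact absurd hS hne)
    rw [Finset.card_empty] at hv0
    have hE0 : E 0 = 0 := by rw [hv0.1]; simp [es]
    obtain ⟨-, h6, -, h7⟩ := hP' 0 (Nat.zero_le D)
    rw [hE0, Nat.zero_div] at h6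
    have h8 := h7 (by rw [hE0]; exact dvd_zero N)
    rw [hv0.2, hE0, Nat.zero_div] at h8
    rw [eq_C_of_natDegree_le_zero h6, h8]
    simp [As]
  · intro τ w a b c d hdet hw
    obtain ⟨k, hk⟩ := h4 a b c d hdet τ w hw
    have e1 : ∀ m ∈ Finset.range (D + 1), (P m).eval (jj τ) * jj w ^ (D - m) =
        R m τ * jj w ^ (D - m) := by
      intro m hm
      rw [(hP' m (Nat.lt_succ_iff.1 (Finset.mem_range.1 hm))).1 τ]
    rw [Finset.sum_congr rfl e1, ← hprod τ (jj w)]
    exact Finset.prod_eq_zero (Finset.mem_univ k) (by rw [hk, sub_self])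

/-- The modular equation and its Newton polygon. -/
theorem modular_relation (N : ℕ) (hN : 0 < N) : ∃ Ψ : ℂ[X][X], Ψ.Monic ∧
    (∀ (τ w : ℍ) (a b c d : ℤ), a * d - b * c = N → (w : ℂ) * (c * τ + d) = a * τ + b →
      eval₂ (aeval (jj τ) : ℂ[X] →ₐ[ℂ] ℂ).toRingHom (jj w) Ψ = 0) ∧
    ∀ (K : Type) [Field K] [Algebra ℂ K] (B : ValuationSubring K) (z₁ z₂ : K),
      eval₂ (aeval z₁ : ℂ[X] →ₐ[ℂ] K).toRingHom z₂ Ψ = 0 →
      (B.valuation z₁ ≤ 1 → B.valuation z₂ ≤ 1) ∧
      (1 < B.valuation z₁ → ∃ a : ℕ, B.valuation z₂ ^ N = B.valuation z₁ ^ (a ^ 2)) := by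
  classical
  obtain ⟨ι, _, _, α, P, E, hint, hdeg, hatt, hvert, hP0, hrel0⟩ := modular_coeffs N hN
  set D := Fintype.card ι with hD
  refine ⟨∑ m ∈ Finset.range (D + 1), C (P m) * X ^ (D - m), ?_, ?_, ?_⟩
  · rw [Finset.sum_range_succ', hP0, C_1, one_mul, Nat.sub_zero, add_comm]
    refine monic_X_pow_add ?_
    refine lt_of_le_of_lt (degree_sum_le _ _) ?_
    rw [Finset.sup_lt_iff (by exact_mod_cast WithBot.bot_lt_coe D)]
    intro m hm
    refine lt_of_le_of_lt (degree_C_mul_X_pow_le _ _) ?_
    have := Finset.mem_range.1 hm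
    exact_mod_cast (by omega : D - (m + 1) < D)
  · intro τ w a b c d hdet hw
    rw [eval₂_finset_sum, ← hrel0 τ w a b c d hdet hw]
    refine Finset.sum_congr rfl fun m hm => ?_
    rw [eval₂_mul, eval₂_C, eval₂_X_pow]
    rfl
  · intro K _ _ B z₁ z₂ hrel
    rw [eval₂_finset_sum] at hrel
    have e1 : ∀ m ∈ Finset.range (D + 1),
        eval₂ (aeval z₁ : ℂ[X] →ₐ[ℂ] K).toRingHom z₂ (C (P m) * X ^ (D - m)) =
        aeval z₁ (P m) * z₂ ^ (D - m) := by
      intro m hm
      rw [eval₂_mul, eval₂_C, eval₂_X_pow]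
      rfl
    rw [Finset.sum_congr rfl e1] at hrel
    constructor
    · intro hz1
      by_contra hz2
      push Not at hz2
      have key := B.valuation.map_sum_eq_of_lt (s := Finset.range (D + 1))
        (f := fun m => aeval z₁ (P m) * z₂ ^ (D - m)) (j := 0) (by simp) (by
          intro m hm
          rw [Finset.mem_sdiff, Finset.mem_singleton, Finset.mem_range] at hm
          rw [map_mul, map_mul, hP0, map_one, map_one, one_mul, map_pow, map_pow]
          calc B.valuation (aeval z₁ (P m)) * B.valuation z₂ ^ (D - m)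
              ≤ 1 * B.valuation z₂ ^ (D - m) := by
                gcongr; exact val_aeval_le_one B (P m) (hint m) z₁ hz1
            _ = B.valuation z₂ ^ (D - m) := one_mul _
            _ < B.valuation z₂ ^ (D - 0) := pow_lt_pow_right₀ hz2 (by omega))
      rw [hrel, map_zero, map_mul, hP0, map_one, map_one, one_mul, map_pow] at key
      exact pow_ne_zero _ (zero_lt_one.trans hz2).ne' key.symm
    · intro hz1
      by_contra hcon
      push Not at hcon
      have hξ0 : B.valuation z₁ ≠ 0 := (zero_lt_one.trans hz1).ne'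
      have hξpos : 0 < B.valuation z₁ := zero_lt_one.trans hz1
      have hmono : ∀ {a b : ℕ}, B.valuation z₁ ^ a < B.valuation z₁ ^ b → a < b := fun {a b} h =>
        (pow_lt_pow_iff_right₀ hz1).1 h
      by_cases hz20 : z₂ = 0
      · -- the constant term
        have hu := hvert Finset.univ (by
          intro S hS hne
          rw [Finset.card_univ] at hS
          exact absurd (Finset.eq_univ_of_card S hS) hne)
        rw [Finset.card_univ, ← hD] at hu
        obtain ⟨e2, hdvd, r, hr, hr1⟩ := hu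
        have h5 : B.valuation (aeval z₁ (P D)) = B.valuation z₁ ^ (E D / N) :=
          val_aeval_eq B (P D) (hint D) (hdeg D le_rfl) z₁ hz1
            (val_root_of_unity B hr (by rw [← map_pow, hr1, map_one]))
        have h6 : aeval z₁ (P D) = 0 := by
          rw [Finset.sum_range_succ, Nat.sub_self, pow_zero, mul_one] at hrel
          rw [← hrel, hz20]
          rw [Finset.sum_eq_zero, zero_add]
          intro m hm
          rw [zero_pow (by have := Finset.mem_range.1 hm; omega), mul_zero]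
        rw [h6, map_zero] at h5
        exact pow_ne_zero _ hξ0 h5.symm
      · have hv2 : 0 < B.valuation z₂ := by
          rw [zero_lt_iff]
          exact (Valuation.ne_zero_iff _).2 hz20
        set θ := B.valuation z₂ ^ N with hθ
        have hθ0 : 0 < θ := pow_pos hv2 N
        let η : ι → B.ValueGroup := fun k => B.valuation z₁ ^ (α k ^ 2)
        have hη0 : ∀ k, 0 < η k := fun k => pow_pos hξpos _
        have hηθ : ∀ k, η k ≠ θ := fun k h => hcon (α k) h.symm
        set S' : Finset ι := Finset.univ.filter fun k => θ < η k with hS'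
        have hlt := prod_choice_lt B η θ hη0 hθ0 hηθ
        rw [← hS', ← hD] at hlt
        have hηprod : ∀ S : Finset ι, ∏ k ∈ S, η k = B.valuation z₁ ^ (∑ k ∈ S, α k ^ 2) := by
          intro S
          rw [Finset.prod_pow_eq_pow_sum]
        -- the vertex
        have hS'c : S'.card ≤ D := Finset.card_le_univ S'
        have hv := hvert S' (by
          intro S hS hne
          have h5 := hlt S hne
          rw [hS, hηprod, hηprod] at h5
          exact hmono (lt_of_mul_lt_mul_right h5 zero_le))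
        obtain ⟨e2, hdvd, r, hr, hr1⟩ := hv
        have hmain : (B.valuation (aeval z₁ (P S'.card) * z₂ ^ (D - S'.card))) ^ N =
            (∏ k ∈ S', η k) * θ ^ (D - S'.card) := by
          have h5 : B.valuation (aeval z₁ (P S'.card)) = B.valuation z₁ ^ (E S'.card / N) :=
            val_aeval_eq B _ (hint _) (hdeg _ hS'c) z₁ hz1
              (val_root_of_unity B hr (by rw [← map_pow, hr1, map_one]))
          rw [map_mul, h5, map_pow, mul_pow, ← pow_mul, Nat.div_mul_cancel hdvd, e2, hηprod, hθ,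
            ← pow_mul, ← pow_mul, mul_comm N]
        have hother : ∀ m ≤ D, m ≠ S'.card →
            B.valuation (aeval z₁ (P m) * z₂ ^ (D - m)) <
              B.valuation (aeval z₁ (P S'.card) * z₂ ^ (D - S'.card)) := by
          intro m hm hne
          obtain ⟨S, hSc, hSE⟩ := hatt m hm
          have hSne : S ≠ S' := by
            rintro rfl
            exact hne hSc.symm
          have h5 := hlt S hSne
          rw [← hmain] at h5
          refine lt_of_pow_lt_pow_left₀ N zero_le (lt_of_le_of_lt ?_ h5)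
          rw [map_mul, map_pow, mul_pow, hSc, hηprod, ← hSE, hθ, ← pow_mul, ← pow_mul,
            mul_comm N]
          refine mul_le_mul' ?_ le_rfl
          calc B.valuation (aeval z₁ (P m)) ^ N ≤ (B.valuation z₁ ^ (E m / N)) ^ N := by
                gcongr
                exact val_aeval_le B (P m) (hint m) (hdeg m hm) z₁ hz1.le
            _ = B.valuation z₁ ^ (E m / N * N) := (pow_mul _ _ _).symm
            _ ≤ B.valuation z₁ ^ E m := pow_le_pow_right₀ hz1.le (Nat.div_mul_le_self _ _)
        have key := B.valuation.map_sum_eq_of_lt (s := Finset.range (D + 1))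
          (f := fun m => aeval z₁ (P m) * z₂ ^ (D - m)) (j := S'.card)
          (Finset.mem_range.2 (Nat.lt_succ_of_le hS'c)) (by
            intro m hm
            rw [Finset.mem_sdiff, Finset.mem_singleton, Finset.mem_range] at hm
            exact hother m (by omega) hm.2)
        rw [hrel, map_zero] at key
        have h7 : 0 < (∏ k ∈ S', η k) * θ ^ (D - S'.card) :=
          mul_pos (Finset.prod_pos fun k _ => hη0 k) (pow_pos hθ0 _)
        rw [← hmain, ← key, zero_pow hN.ne'] at h7
        exact lt_irrefl _ h7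

end Pool.Agent.W282.ZP
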