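import Pool.Agent.W282.ZP.Geo

/-!
# Möbius translates: choice of the data
-/

set_option autoImplicit false

namespace Pool.Agent.W282.ZP

section Corners

open MvPolynomial

/-- For every set `J` of `d + 1` coordinates there is a relation `f J` between the coordinates in
`J`, and integers `α_i`, `β_i` such that `f J` does not vanish at the corners. -/
theorem exists_corners_avoid {n d : ℕ} (P : Ideal (MvPolynomial (Fin n) ℂ)) [P.IsPrime]
    (hd : Algebra.trdeg ℂ (MvPolynomial (Fin n) ℂ ⧸ P) = d) (ξ : Fin n → ℂ) :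
    ∃ (f : ∀ J : Finset (Fin n), MvPolynomial J ℂ) (α β : Fin n → ℤ), (∀ i, α i ≠ β i) ∧
      (∀ i, ((β i : ℤ) : ℂ) ≠ ξ i) ∧
      ∀ J : Finset (Fin n), J.card = d + 1 → rename (Subtype.val : J → Fin n) (f J) ∈ P ∧
        ∀ c : Fin n → Bool,
          eval (fun i : J => (((if c i then α i else β i : ℤ)) : ℂ)) (f J) ≠ 0 := by
  classical
  have h1 : ∀ J : Finset (Fin n), ∃ f : MvPolynomial J ℂ, f ≠ 0 ∧
      (J.card = d + 1 → rename (Subtype.val : J → Fin n) f ∈ P) := by
    intro J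
    by_cases hJ : J.card = d + 1
    · have hdep : ¬ AlgebraicIndependent ℂ
          (fun i : J => (Ideal.Quotient.mk P (X (i : Fin n)) : MvPolynomial (Fin n) ℂ ⧸ P)) := by
        intro h
        have h2 := h.cardinalMk_le_trdeg
        rw [hd, Cardinal.mk_fintype, Fintype.card_coe, hJ] at h2
        have h3 : d + 1 ≤ d := by exact_mod_cast h2
        omega
      rw [algebraicIndependent_iff] at hdep
      push Not at hdep
      obtain ⟨f, hf1, hf2⟩ := hdep
      refine ⟨f, hf2, fun _ => ?_⟩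
      rw [← Ideal.Quotient.eq_zero_iff_mem, ← hf1]
      have h4 : (Ideal.Quotient.mkₐ ℂ P).comp (rename (Subtype.val : J → Fin n)) =
          aeval (fun i : J => (Ideal.Quotient.mk P (X (i : Fin n)))) := by
        ext i
        simp
      exact DFunLike.congr_fun h4 f
    · exact ⟨1, one_ne_zero, fun h => absurd h hJ⟩
  choose f hf0 hfP using h1
  let F : MvPolynomial (Fin n × Bool) ℂ :=
    (∏ J : Finset (Fin n), ∏ c : Fin n → Bool, rename (fun i : J => ((i : Fin n), c i)) (f J)) *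
      (∏ i : Fin n, (X (i, true) - X (i, false))) * ∏ i : Fin n, (X (i, false) - C (ξ i))
  have hF : F ≠ 0 := by
    refine mul_ne_zero (mul_ne_zero (Finset.prod_ne_zero_iff.2 fun J _ =>
      Finset.prod_ne_zero_iff.2 fun c _ => ?_) (Finset.prod_ne_zero_iff.2 fun i _ => ?_))
      (Finset.prod_ne_zero_iff.2 fun i _ => ?_)
    · have hinj : Function.Injective (fun i : J => ((i : Fin n), c i)) := by
        intro i i' h
        exact Subtype.ext (congrArg Prod.fst h)
      intro h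
      exact hf0 J (rename_injective _ hinj (by rw [h, map_zero]))
    · intro h
      rw [sub_eq_zero] at h
      have h2 : ((i, true) : Fin n × Bool) = (i, false) := X_injective h
      simp at h2
    · intro h
      rw [sub_eq_zero] at h
      have h2 := congrArg (eval fun _ => ξ i + 1) h
      rw [eval_X, eval_C] at h2
      simp at h2
  obtain ⟨a, ha⟩ : ∃ a : Fin n × Bool → ℤ, eval (fun i => (a i : ℂ)) F ≠ 0 := by
    by_contra hcon
    push Not at hcon
    apply hF
    refine MvPolynomial.funext_set (fun _ => Set.range fun k : ℤ => (k : ℂ)) (fun _ => ?_) ?_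
    · exact Set.infinite_range_of_injective Int.cast_injective
    · intro x hx
      rw [map_zero]
      have h2 : ∀ i, ∃ k : ℤ, (k : ℂ) = x i := fun i => hx i (Set.mem_univ i)
      choose k hk using h2
      have h3 : x = fun i => (k i : ℂ) := funext fun i => (hk i).symm
      rw [h3]
      exact hcon k
  have hF' := ha
  simp only [F, map_mul, map_prod, map_sub, eval_X, eval_C] at hF'
  have hA := left_ne_zero_of_mul (left_ne_zero_of_mul hF')
  have hB := right_ne_zero_of_mul (left_ne_zero_of_mul hF')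
  have hC := right_ne_zero_of_mul hF'
  rw [Finset.prod_ne_zero_iff] at hA hB hC
  refine ⟨f, fun i => a (i, true), fun i => a (i, false), fun i => ?_, fun i =>
    sub_ne_zero.1 (hC i (Finset.mem_univ i)), fun J hJ => ⟨hfP J hJ, ?_⟩⟩
  · have h2 := hB i (Finset.mem_univ i)
    intro h
    have h' : a (i, true) = a (i, false) := h
    rw [h', sub_self] at h2
    exact h2 rfl
  · intro c
    have h2 := hA J (Finset.mem_univ J)
    rw [Finset.prod_ne_zero_iff] at h2
    have h3 := h2 c (Finset.mem_univ c)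
    rw [eval_rename] at h3
    have h4 : ((fun i => (a i : ℂ)) ∘ fun i : J => ((i : Fin n), c i)) =
        fun i : J => (((if c i then a ((i : Fin n), true) else a ((i : Fin n), false) : ℤ)) : ℂ) := by
      funext i
      simp only [Function.comp_apply]
      cases c i <;> simp
    rw [h4] at h3
    exact h3

end Corners

open H294ZP UpperHalfPlane

/-- **Main theorem for generic points of Möbius translates.** -/
theorem exists_class_moeb {n d : ℕ} (P : Ideal (MvPolynomial (Fin n) ℂ)) [P.IsPrime]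
    (hd : Algebra.trdeg ℂ (MvPolynomial (Fin n) ℂ ⧸ P) = d) (Γ : Finset ℂ) (Q₀ : ℕ) (hQ₀ : 0 < Q₀)
    (g₀ : Fin n → Matrix (Fin 2) (Fin 2) ℤ) :
    ∃ (Q : ℕ) (G : Fin n → Matrix (Fin 2) (Fin 2) ℤ), 0 < Q ∧
      ∀ g : Fin n → Matrix (Fin 2) (Fin 2) ℤ, (∀ i r s, (Q : ℤ) ∣ g i r s - G i r s) →
        (∀ i r s, (Q₀ : ℤ) ∣ g i r s - g₀ i r s) ∧ (∀ i, (g i).det ≠ 0) ∧
        (∀ i, (MvPolynomial.C ((g i 1 0 : ℤ) : ℂ) * MvPolynomial.X i +
          MvPolynomial.C ((g i 1 1 : ℤ) : ℂ) : MvPolynomial (Fin n) ℂ) ∉ P) ∧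
        ∀ (K : Type) [Field K] [Algebra ℂ K] (z : Fin n → K),
          (∀ (J : Finset (Fin n)) (f : MvPolynomial J ℂ),
            MvPolynomial.rename (Subtype.val : J → Fin n) f ∈ P →
              MvPolynomial.aeval z (pull g f) = 0) →
          ∀ (r : ℕ) (cls : Fin n → Option (Fin r)) (N : Fin n → Fin n → ℕ), (∀ i i', 0 < N i i') →
          (∀ i, cls i = none → ∃ c : ℂ, IsIntegral (Algebra.adjoin ℤ (Γ : Set ℂ)) c ∧
            z i = algebraMap ℂ K c) →
          (∀ i i' k, cls i = some k → cls i' = some k → Polynomial.eval₂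
            (Polynomial.aeval (z i) : Polynomial ℂ →ₐ[ℂ] K).toRingHom (z i')
              (Psi (N i i')) = 0) →
          ∀ T : Finset (Fin n), AlgebraicIndependent ℂ (fun j : T => z j) →
            T.card + n ≤ r + d := by
  classical
  have hξ : ∃ ξ : Fin n → ℂ, ∀ i y, (MvPolynomial.X i - MvPolynomial.C y :
      MvPolynomial (Fin n) ℂ) ∈ P → y = ξ i := by
    have h1 : ∀ i, ∃ ξ : ℂ, ∀ y, (MvPolynomial.X i - MvPolynomial.C y :
        MvPolynomial (Fin n) ℂ) ∈ P → y = ξ := by
      intro i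
      by_cases h : ∃ y, (MvPolynomial.X i - MvPolynomial.C y : MvPolynomial (Fin n) ℂ) ∈ P
      · obtain ⟨y, hy⟩ := h
        refine ⟨y, fun y' hy' => ?_⟩
        by_contra hne
        have h2 := P.sub_mem hy hy'
        have h3 : (MvPolynomial.X i - MvPolynomial.C y - (MvPolynomial.X i - MvPolynomial.C y') :
            MvPolynomial (Fin n) ℂ) = MvPolynomial.C (y' - y) := by
          rw [MvPolynomial.C_sub]; ring
        rw [h3] at h2
        have h4 := P.mul_mem_left (MvPolynomial.C (y' - y)⁻¹) h2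
        rw [← MvPolynomial.C_mul, inv_mul_cancel₀ (sub_ne_zero.2 hne), MvPolynomial.C_1] at h4
        exact (Ideal.IsPrime.ne_top inferInstance) ((Ideal.eq_top_iff_one P).2 h4)
      · exact ⟨0, fun y hy => absurd ⟨y, hy⟩ h⟩
    choose ξ hξ using h1
    exact ⟨ξ, hξ⟩
  obtain ⟨ξ, hξ⟩ := hξ
  obtain ⟨f, α, β, hαβ, hβξ, hcor⟩ := exists_corners_avoid P hd ξ
  -- the elements that have to be units
  let s : Finset ℂ := (Finset.univ.biUnion fun J : Finset (Fin n) =>
      (f J).support.image (f J).coeff) ∪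
    (Finset.univ.biUnion fun J : Finset (Fin n) => Finset.univ.image fun c : Fin n → Bool =>
      MvPolynomial.eval (fun i : J => (((if c i then α i else β i : ℤ)) : ℂ)) (f J)) ∪
    (Finset.univ.image fun i : Fin n => (((α i - β i : ℤ)) : ℂ)) ∪ Γ ∪
    (Finset.univ.image ξ) ∪ (Finset.univ.image fun i : Fin n => ((β i : ℤ) : ℂ) - ξ i)
  obtain ⟨p, O, hpinj, hpO⟩ := exists_primes s Q₀
  obtain ⟨e, heprime, heinj⟩ := exists_exponents n
  set M := n * n + 1 with hM
  obtain ⟨Q, G, hQ, hclass⟩ := exists_residue_class (M := M) α β (fun m => p m)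
    (fun m => (hpO m).1) (fun m m' h => Fin.ext (hpinj h)) (fun m => e m) Q₀ hQ₀
    (fun m => (hpO m).2.1) g₀
  refine ⟨Q, G, hQ, fun g hg => ?_⟩
  obtain ⟨hg0, hgm⟩ := hclass g hg
  have hunit : ∀ m : ℕ, ∀ u ∈ s, u ≠ 0 → (O m).valuation u = 1 := fun m => (hpO m).2.2.2
  have hf : ∀ m : ℕ, ∀ J : Finset (Fin n), ∀ k, (O m).valuation ((f J).coeff k) ≤ 1 := by
    intro m J k
    by_cases h0 : (f J).coeff k = 0
    · rw [h0, map_zero]; exact zero_le_one
    · refine (hunit m _ ?_ h0).le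
      refine Finset.mem_union_left _ (Finset.mem_union_left _ (Finset.mem_union_left _
        (Finset.mem_union_left _ (Finset.mem_union_left _ ?_))))
      exact Finset.mem_biUnion.2 ⟨J, Finset.mem_univ _, Finset.mem_image_of_mem _
        (MvPolynomial.mem_support_iff.2 h0)⟩
  have hcorv : ∀ m : ℕ, ∀ J : Finset (Fin n), J.card = d + 1 → ∀ c : Fin n → Bool,
      (O m).valuation
        (MvPolynomial.eval (fun i : J => (((if c i then α i else β i : ℤ)) : ℂ)) (f J)) = 1 := by
    intro m J hJ c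
    refine hunit m _ ?_ ((hcor J hJ).2 c)
    refine Finset.mem_union_left _ (Finset.mem_union_left _ (Finset.mem_union_left _
      (Finset.mem_union_left _ (Finset.mem_union_right _ ?_))))
    exact Finset.mem_biUnion.2 ⟨J, Finset.mem_univ _, Finset.mem_image_of_mem
      (fun c : Fin n → Bool =>
        MvPolynomial.eval (fun i : J => (((if c i then α i else β i : ℤ)) : ℂ)) (f J))
      (Finset.mem_univ c)⟩
  have hαβv : ∀ m : ℕ, ∀ i, (O m).valuation (((α i - β i : ℤ)) : ℂ) = 1 := by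
    intro m i
    refine hunit m _ ?_ (by exact_mod_cast sub_ne_zero.2 (hαβ i))
    refine Finset.mem_union_left _ (Finset.mem_union_left _ (Finset.mem_union_left _
      (Finset.mem_union_right _ ?_)))
    exact Finset.mem_image_of_mem (fun i : Fin n => (((α i - β i : ℤ)) : ℂ)) (Finset.mem_univ i)
  have hΓ : ∀ m : ℕ, ∀ c : ℂ, IsIntegral (Algebra.adjoin ℤ (Γ : Set ℂ)) c →
      (O m).valuation c ≤ 1 := by
    intro m c hc
    have hle : ∀ y ∈ Algebra.adjoin ℤ (Γ : Set ℂ), y ∈ O m := by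
      intro y hy
      induction hy using Algebra.adjoin_induction with
      | mem t ht =>
        rw [← (O m).valuation_le_one_iff]
        by_cases h0 : t = 0
        · rw [h0, map_zero]; exact zero_le_one
        · exact (hunit m t (Finset.mem_union_left _ (Finset.mem_union_left _
            (Finset.mem_union_right _ ht))) h0).le
      | algebraMap t => exact intCast_mem (O m) t
      | add s t _ _ hs ht => exact (O m).add_mem _ _ hs ht
      | mul s t _ _ hs ht => exact (O m).mul_mem _ _ hs ht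
    obtain ⟨q, hq, hqe⟩ := hc
    let φ : Algebra.adjoin ℤ (Γ : Set ℂ) →+* O m :=
      { toFun := fun y => ⟨y, hle y y.2⟩
        map_one' := rfl
        map_mul' := fun _ _ => rfl
        map_zero' := rfl
        map_add' := fun _ _ => rfl }
    have hB : IsIntegral (O m) c := by
      refine ⟨q.map φ, hq.map φ, ?_⟩
      rw [Polynomial.eval₂_map]
      exact hqe
    obtain ⟨y, hy⟩ := IsIntegrallyClosed.isIntegral_iff.1 hB
    rw [← hy]
    exact ((O m).valuation_le_one_iff _).2 y.2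
  have hdet : ∀ i, (g i).det ≠ 0 := by
    intro i h0
    have hm0 : 0 < M := Nat.succ_pos _
    obtain ⟨h1, h2, h3, h4⟩ := hgm ⟨0, hm0⟩ i
    rw [Matrix.det_fin_two] at h0
    have hp := (hpO 0).1
    change ((p 0 : ℕ) : ℤ) ^ (e 0 i + 1) ∣ g i 0 0 - 1 at h1
    change ((p 0 : ℕ) : ℤ) ^ (e 0 i + 1) ∣ g i 0 1 + α i at h2
    change ((p 0 : ℕ) : ℤ) ^ (e 0 i + 1) ∣ g i 1 0 - (p 0 : ℤ) ^ e 0 i at h3
    change ((p 0 : ℕ) : ℤ) ^ (e 0 i + 1) ∣ g i 1 1 + (p 0 : ℤ) ^ e 0 i * β i at h4
    have h5 : ((p 0 : ℕ) : ℤ) ^ (e 0 i + 1) ∣ (p 0 : ℤ) ^ e 0 i * (α i - β i) := by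
      have h6 : (p 0 : ℤ) ^ e 0 i * (α i - β i) = -((g i 0 0 - 1) * g i 1 1 +
          (g i 1 1 + (p 0 : ℤ) ^ e 0 i * β i) - (g i 0 1 + α i) * g i 1 0 +
          α i * (g i 1 0 - (p 0 : ℤ) ^ e 0 i)) := by linear_combination h0
      rw [h6, dvd_neg]
      exact dvd_add (dvd_sub (dvd_add (h1.mul_right _) h4) (h2.mul_right _)) (h3.mul_left _)
    rw [pow_succ] at h5
    have h7 : ((p 0 : ℕ) : ℤ) ∣ α i - β i :=
      (mul_dvd_mul_iff_left (pow_ne_zero _ (by exact_mod_cast hp.ne_zero))).1 h5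
    obtain ⟨k, hk⟩ := h7
    have h8 := hαβv 0 i
    rw [hk, Int.cast_mul, map_mul, Int.cast_natCast] at h8
    have h9 : (O 0).valuation ((k : ℤ) : ℂ) ≤ 1 :=
      ((O 0).valuation_le_one_iff _).2 (intCast_mem (O 0) k)
    have h10 : (O 0).valuation ((p 0 : ℕ) : ℂ) * (O 0).valuation ((k : ℤ) : ℂ) < 1 := by
      calc (O 0).valuation ((p 0 : ℕ) : ℂ) * (O 0).valuation ((k : ℤ) : ℂ)
          ≤ (O 0).valuation ((p 0 : ℕ) : ℂ) * 1 := by gcongr
        _ = (O 0).valuation ((p 0 : ℕ) : ℂ) := mul_one _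
        _ < 1 := (hpO 0).2.2.1
    rw [h8] at h10
    exact lt_irrefl _ h10
  have hden : ∀ i, (MvPolynomial.C ((g i 1 0 : ℤ) : ℂ) * MvPolynomial.X i +
      MvPolynomial.C ((g i 1 1 : ℤ) : ℂ) : MvPolynomial (Fin n) ℂ) ∉ P := by
    intro i h0
    have hm0 : 0 < M := Nat.succ_pos _
    obtain ⟨-, -, h3, h4⟩ := hgm ⟨0, hm0⟩ i
    have hp := (hpO 0).1
    change ((p 0 : ℕ) : ℤ) ^ (e 0 i + 1) ∣ g i 1 0 - (p 0 : ℤ) ^ e 0 i at h3
    change ((p 0 : ℕ) : ℤ) ^ (e 0 i + 1) ∣ g i 1 1 + (p 0 : ℤ) ^ e 0 i * β i at h4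
    set v := (O 0).valuation with hv
    have hvint : ∀ a : ℤ, v (a : ℂ) ≤ 1 := fun a =>
      ((O 0).valuation_le_one_iff _).2 (intCast_mem (O 0) a)
    have hvp : v ((p 0 : ℕ) : ℂ) < 1 := (hpO 0).2.2.1
    have hvp0 : 0 < v ((p 0 : ℕ) : ℂ) := by
      rw [zero_lt_iff, Valuation.ne_zero_iff]
      exact_mod_cast hp.ne_zero
    have hdvd : ∀ a : ℤ, ((p 0 : ℕ) : ℤ) ^ (e 0 i + 1) ∣ a →
        v (a : ℂ) < v ((p 0 : ℕ) : ℂ) ^ e 0 i := by
      rintro a ⟨b, rfl⟩
      push_cast
      rw [map_mul, map_pow, pow_succ, mul_assoc]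
      calc v ((p 0 : ℕ) : ℂ) ^ e 0 i * (v ((p 0 : ℕ) : ℂ) * v (b : ℂ))
          ≤ v ((p 0 : ℕ) : ℂ) ^ e 0 i * (v ((p 0 : ℕ) : ℂ) * 1) := by
            gcongr; exact hvint b
        _ < v ((p 0 : ℕ) : ℂ) ^ e 0 i * 1 := by
            rw [mul_one]
            exact mul_lt_mul_of_pos_left hvp (pow_pos hvp0 _)
        _ = _ := mul_one _
    have hc0 : ((g i 1 0 : ℤ) : ℂ) ≠ 0 := by
      intro h
      have h5 : g i 1 0 = 0 := by exact_mod_cast h
      rw [h5, zero_sub, dvd_neg, pow_succ] at h3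
      have hpe : ((p 0 : ℕ) : ℤ) ^ e 0 i ≠ 0 := pow_ne_zero _ (by exact_mod_cast hp.ne_zero)
      have h6 : ((p 0 : ℕ) : ℤ) ∣ 1 := by
        have h7 : ((p 0 : ℕ) : ℤ) ^ e 0 i * ((p 0 : ℕ) : ℤ) ∣ ((p 0 : ℕ) : ℤ) ^ e 0 i * 1 := by
          rw [mul_one]; exact h3
        exact (mul_dvd_mul_iff_left hpe).1 h7
      have h8 : (p 0 : ℕ) ∣ 1 := by exact_mod_cast h6
      exact hp.one_lt.ne' (Nat.dvd_one.1 h8)
    have h5 := hξ i (-((g i 1 1 : ℤ) : ℂ) / ((g i 1 0 : ℤ) : ℂ)) (by
      have h6 := P.mul_mem_left (MvPolynomial.C (((g i 1 0 : ℤ) : ℂ))⁻¹) h0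
      have h7 : (MvPolynomial.C (((g i 1 0 : ℤ) : ℂ))⁻¹ * (MvPolynomial.C ((g i 1 0 : ℤ) : ℂ) *
          MvPolynomial.X i + MvPolynomial.C ((g i 1 1 : ℤ) : ℂ)) : MvPolynomial (Fin n) ℂ) =
          MvPolynomial.X i - MvPolynomial.C (-((g i 1 1 : ℤ) : ℂ) / ((g i 1 0 : ℤ) : ℂ)) := by
        rw [mul_add, ← mul_assoc, ← MvPolynomial.C_mul, ← MvPolynomial.C_mul,
          inv_mul_cancel₀ hc0, MvPolynomial.C_1, one_mul, sub_eq_add_neg, ← MvPolynomial.C_neg]
        congr 2
        ring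
      rwa [h7] at h6)
    have h6 : ((g i 1 0 : ℤ) : ℂ) * ξ i + ((g i 1 1 : ℤ) : ℂ) = 0 := by
      rw [← h5]; field_simp; ring
    have hξv : v (ξ i) ≤ 1 := by
      by_cases h0 : ξ i = 0
      · rw [h0, map_zero]; exact zero_le_one
      · exact (hunit 0 _ (Finset.mem_union_left _ (Finset.mem_union_right _
          (Finset.mem_image_of_mem _ (Finset.mem_univ i)))) h0).le
    have hβv : v (((β i : ℤ) : ℂ) - ξ i) = 1 := by
      refine hunit 0 _ (Finset.mem_union_right _ ?_) (sub_ne_zero.2 (hβξ i))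
      exact Finset.mem_image_of_mem (fun i : Fin n => ((β i : ℤ) : ℂ) - ξ i) (Finset.mem_univ i)
    have h7 : ((p 0 : ℕ) : ℂ) ^ e 0 i * (((β i : ℤ) : ℂ) - ξ i) =
        ((g i 1 0 - (p 0 : ℤ) ^ e 0 i : ℤ) : ℂ) * ξ i +
          ((g i 1 1 + (p 0 : ℤ) ^ e 0 i * β i : ℤ) : ℂ) := by
      push_cast
      linear_combination -h6
    have h8 : v (((p 0 : ℕ) : ℂ) ^ e 0 i * (((β i : ℤ) : ℂ) - ξ i)) =
        v ((p 0 : ℕ) : ℂ) ^ e 0 i := by
      rw [map_mul, map_pow, hβv, mul_one]
    have h9 : v (((g i 1 0 - (p 0 : ℤ) ^ e 0 i : ℤ) : ℂ) * ξ i +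
          ((g i 1 1 + (p 0 : ℤ) ^ e 0 i * β i : ℤ) : ℂ)) < v ((p 0 : ℕ) : ℂ) ^ e 0 i := by
      refine lt_of_le_of_lt (Valuation.map_add _ _ _) (max_lt ?_ (hdvd _ h4))
      rw [map_mul]
      calc v ((g i 1 0 - (p 0 : ℤ) ^ e 0 i : ℤ) : ℂ) * v (ξ i)
          ≤ v ((g i 1 0 - (p 0 : ℤ) ^ e 0 i : ℤ) : ℂ) * 1 := by gcongr
        _ = v ((g i 1 0 - (p 0 : ℤ) ^ e 0 i : ℤ) : ℂ) := mul_one _
        _ < _ := hdvd _ h3
    rw [← h7, h8] at h9
    exact lt_irrefl _ h9
  refine ⟨hg0, hdet, hden, ?_⟩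
  intro K _ _ z hz r cls N hN hconst hrel T hT
  have hchar : CharZero K := charZero_of_injective_algebraMap (algebraMap ℂ K).injective
  -- the classes of the coordinates in `T`
  have hTsome : ∀ t : T, ∃ k, cls t = some k := by
    intro t
    cases hc : cls t with
    | none =>
      obtain ⟨c, -, hc2⟩ := hconst t hc
      exact absurd (hc2 ▸ isAlgebraic_algebraMap c) (hT.transcendental t)
    | some k => exact ⟨k, rfl⟩
  choose κ hκ using hTsome
  have hκinj : Function.Injective κ := by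
    intro t t' htt
    by_contra hne
    have h1 := hrel t t' (κ t) (hκ t) (by rw [htt]; exact hκ t')
    have h2 := hT.transcendental_adjoin (s := {t}) (i := t') (by
      intro h
      rw [Set.mem_singleton_iff] at h
      exact hne h.symm)
    apply h2
    rw [Set.image_singleton]
    have hmem : z t ∈ Algebra.adjoin ℂ {z t} := Algebra.subset_adjoin rfl
    let ψ : Polynomial ℂ →ₐ[ℂ] Algebra.adjoin ℂ {z t} := Polynomial.aeval ⟨z t, hmem⟩
    have hcomp : ((Algebra.adjoin ℂ {z t}).val.comp ψ) =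
        (Polynomial.aeval (z t) : Polynomial ℂ →ₐ[ℂ] K) := by
      apply Polynomial.algHom_ext
      simp [ψ]
    have hint : IsIntegral (Algebra.adjoin ℂ {z t}) (z t') := by
      refine ⟨(Psi (N t t')).map ψ.toRingHom, (Psi_spec (hN t t')).1.map _, ?_⟩
      rw [Polynomial.eval₂_map, ← h1]
      congr 1
      exact congrArg AlgHom.toRingHom hcomp
    exact hint.isAlgebraic
  by_contra hcon
  push Not at hcon
  -- one prime
  have hone : ∀ m : Fin M, ∃ q : Fin n × Fin n, q.1 ≠ q.2 ∧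
      IsSquare (N q.1 q.2 * (e m q.1 * e m q.2)) := by
    intro m
    obtain ⟨B, hB1, hB2, hB3⟩ := exists_above (O m) (fun j : T => z j) hT
    have hpB : B.valuation ((p m : ℕ) : K) < 1 := by
      have := hB2 _ (hpO m).2.2.1
      rwa [map_natCast] at this
    have hpB0 : 0 < B.valuation ((p m : ℕ) : K) := by
      rw [zero_lt_iff, Valuation.ne_zero_iff]
      exact_mod_cast (hpO m).1.ne_zero
    let A : Finset (Fin n) := Finset.univ.filter fun i =>
      B.valuation (z i) * B.valuation ((p m : ℕ) : K) ^ e m i ≠ 1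
    let Ty : Finset (Fin n) := Finset.univ.filter fun i =>
      B.valuation (z i) * B.valuation ((p m : ℕ) : K) ^ e m i = 1
    have hAcard : A.card ≤ d := card_atypical (O m) B hB1 hB2 (p m) (hpO m).1 (hpO m).2.2.1 f α β
      (fun J _ => hf m J) (hcorv m) (hαβv m) (e m) g (hgm m) z
      (fun J hJ => hz J (f J) (hcor J hJ).1) A (fun i hi => (Finset.mem_filter.1 hi).2)
    have hcards : Ty.card + A.card = n := by
      have := Finset.card_filter_add_card_filter_not (s := (Finset.univ : Finset (Fin n)))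
        (fun i => B.valuation (z i) * B.valuation ((p m : ℕ) : K) ^ e m i = 1)
      rw [Finset.card_univ, Fintype.card_fin] at this
      exact this
    have hTy : ∀ i ∈ Ty, 1 < B.valuation (z i) := by
      intro i hi
      have h1 := (Finset.mem_filter.1 hi).2
      by_contra h2
      push Not at h2
      have h3 : B.valuation ((p m : ℕ) : K) ^ e m i < 1 :=
        pow_lt_one₀ zero_le hpB (heprime m i).ne_zero
      have h4 : B.valuation (z i) * B.valuation ((p m : ℕ) : K) ^ e m i < 1 := by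
        calc B.valuation (z i) * B.valuation ((p m : ℕ) : K) ^ e m i
            ≤ 1 * B.valuation ((p m : ℕ) : K) ^ e m i := by gcongr
          _ = B.valuation ((p m : ℕ) : K) ^ e m i := one_mul _
          _ < 1 := h3
      rw [h1] at h4
      exact lt_irrefl _ h4
    -- the free classes
    let Fr : Finset (Option (Fin r)) := (Finset.univ.filter fun k : Fin r =>
      k ∉ Finset.univ.image κ).image some
    have hFr : Fr.card + T.card = r := by
      have h1 : Fr.card = (Finset.univ.filter fun k : Fin r =>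
          k ∉ Finset.univ.image κ).card :=
        Finset.card_image_of_injective _ (Option.some_injective _)
      have h2 : (Finset.univ.filter fun k : Fin r => k ∈ Finset.univ.image κ).card = T.card := by
        have h3 : (Finset.univ.filter fun k : Fin r => k ∈ Finset.univ.image κ) =
            Finset.univ.image κ := by
          ext k; simp
        rw [h3, Finset.card_image_of_injective _ hκinj, Finset.card_univ, Fintype.card_coe]
      have := Finset.card_filter_add_card_filter_not (s := (Finset.univ : Finset (Fin r)))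
        (fun k => k ∈ Finset.univ.image κ)
      rw [Finset.card_univ, Fintype.card_fin] at this
      rw [h1]
      omega
    have hmaps : ∀ i ∈ Ty, cls i ∈ Fr := by
      intro i hi
      have h1 := hTy i hi
      cases hc : cls i with
      | none =>
        obtain ⟨c, hc1, hc2⟩ := hconst i hc
        have h2 := hB1 c (hΓ m c hc1)
        rw [← hc2] at h2
        exact absurd h1 (not_lt.2 h2)
      | some k =>
        refine Finset.mem_image_of_mem _ (Finset.mem_filter.2 ⟨Finset.mem_univ _, ?_⟩)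
        intro hk
        obtain ⟨t, -, ht⟩ := Finset.mem_image.1 hk
        have h2 := hrel t i k (ht ▸ hκ t) hc
        have h3 := (((Psi_spec (hN t i)).2.2 K B (z t) (z i) h2).1) (hB3 t)
        exact absurd h1 (not_lt.2 h3)
    obtain ⟨i, hi, i', hi', hne, hcls⟩ := Finset.exists_ne_map_eq_of_card_lt_of_maps_to
      (s := Ty) (t := Fr) (by omega) (f := cls) hmaps
    refine ⟨(i, i'), hne, ?_⟩
    obtain ⟨k, -, hk⟩ := Finset.mem_image.1 (hmaps i hi)
    have h2 := hrel i i' k hk.symm (hcls ▸ hk.symm)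
    obtain ⟨a, ha⟩ := (((Psi_spec (hN i i')).2.2 K B (z i) (z i') h2).2) (hTy i hi)
    have h3 := (Finset.mem_filter.1 hi).2
    have h4 := (Finset.mem_filter.1 hi').2
    set w := B.valuation ((p m : ℕ) : K) with hw
    have h5 : w ^ (e m i' * N i i') = w ^ (e m i * a ^ 2) := by
      have h6 : (B.valuation (z i') * w ^ e m i') ^ N i i' = 1 := by rw [h4, one_pow]
      have h7 : (B.valuation (z i) * w ^ e m i) ^ (a ^ 2) = 1 := by rw [h3, one_pow]
      rw [mul_pow, ← pow_mul] at h6 h7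
      rw [ha] at h6
      have h8 : B.valuation (z i) ^ (a ^ 2) ≠ 0 :=
        pow_ne_zero _ (zero_lt_one.trans (hTy i hi)).ne'
      exact mul_left_cancel₀ h8 (h6.trans h7.symm)
    have h6 := exponent_eq B w hpB0 hpB h5
    refine ⟨e m i * a, ?_⟩
    calc N i i' * (e m i * e m i') = e m i * (e m i' * N i i') := by ring
      _ = e m i * (e m i * a ^ 2) := by rw [h6]
      _ = _ := by ring
  choose q hq1 hq2 using hone
  obtain ⟨m, m', hmm, hqq⟩ := Fintype.exists_ne_map_eq_of_card_lt q (by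
    rw [Fintype.card_prod, Fintype.card_fin, Fintype.card_fin]
    omega)
  have h1 := hq2 m
  have h2 := hq2 m'
  rw [← hqq] at h2
  refine four_primes (hN (q m).1 (q m).2) (heprime m (q m).1) (heprime m (q m).2)
    (heprime m' (q m).1) (heprime m' (q m).2) ?_ ?_ ?_ h1 h2
  · intro h
    exact hq1 m (heinj _ _ _ _ h).2
  · intro h
    exact hmm (Fin.ext (heinj _ _ _ _ h).1)
  · intro h
    exact hmm (Fin.ext (heinj _ _ _ _ h).1)

end Pool.Agent.W282.ZP
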