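import Pool.Agent.W282.ZP.Moeb

/-!
# Möbius translates: irreducibility and dimension
-/

set_option autoImplicit false

namespace Pool.Agent.W282.ZP

open MvPolynomial

section

variable {ι : Type}

/-- Field of rational functions of a prime ideal. -/
theorem generic_frac [Finite ι] (Q : Ideal (MvPolynomial ι ℂ)) [Q.IsPrime] :
    ∃ (K : Type) (_ : Field K) (_ : Algebra ℂ K) (z : ι → K), (∀ f, aeval z f = 0 ↔ f ∈ Q) ∧
      ∀ ω : K, ∃ p q : MvPolynomial ι ℂ, ω = aeval z p / aeval z q := by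
  let B := MvPolynomial ι ℂ ⧸ Q
  let Ω := FractionRing B
  let ev : MvPolynomial ι ℂ →ₐ[ℂ] Ω :=
    (IsScalarTower.toAlgHom ℂ B Ω).comp (Ideal.Quotient.mkₐ ℂ Q)
  have hev : ∀ f, ev f = 0 ↔ f ∈ Q := by
    intro f
    change algebraMap B Ω (Ideal.Quotient.mk Q f) = 0 ↔ _
    rw [← Ideal.Quotient.eq_zero_iff_mem]
    exact map_eq_zero_iff _ (IsFractionRing.injective B Ω)
  set z : ι → Ω := fun j => ev (X j) with hzdef
  have hevz : ∀ f, ev f = aeval z f := by
    intro f
    have h1 : ev = aeval z := by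
      ext j
      simp [hzdef]
    rw [h1]
  refine ⟨Ω, inferInstance, inferInstance, z, fun f => by rw [← hevz, hev], fun ω => ?_⟩
  obtain ⟨p, q, hq, rfl⟩ := IsFractionRing.div_surjective (A := B) ω
  obtain ⟨p, rfl⟩ := Ideal.Quotient.mk_surjective p
  obtain ⟨q, rfl⟩ := Ideal.Quotient.mk_surjective q
  exact ⟨p, q, by rw [← hevz, ← hevz]; rfl⟩

/-- The transcendence degree of the coordinate ring of the locus of a point `y` over which `K` is
algebraic. -/
theorem trdeg_eq_of_algebraic (Q : Ideal (MvPolynomial ι ℂ)) [Q.IsPrime] {K : Type} [Field K]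
    [Algebra ℂ K] (y : ι → K) (hy : ∀ f, aeval y f = 0 ↔ f ∈ Q)
    (halg : Algebra.IsAlgebraic (Algebra.adjoin ℂ (Set.range y)) K) :
    Algebra.trdeg ℂ (MvPolynomial ι ℂ ⧸ Q) = Algebra.trdeg ℂ K := by
  let φ : (MvPolynomial ι ℂ ⧸ Q) →ₐ[ℂ] K :=
    Ideal.Quotient.liftₐ Q (aeval y) (fun f hf => (hy f).2 hf)
  have hφ : ∀ f, φ (Ideal.Quotient.mk Q f) = aeval y f := fun f => rfl
  have hinj : Function.Injective φ := by
    rw [injective_iff_map_eq_zero]
    intro a ha
    obtain ⟨f, rfl⟩ := Ideal.Quotient.mk_surjective a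
    rw [hφ, hy] at ha
    exact Ideal.Quotient.eq_zero_iff_mem.2 ha
  refine le_antisymm (trdeg_le_of_injective φ hinj) ?_
  obtain ⟨t, hts, ht⟩ := exists_isTranscendenceBasis_subset (R := ℂ) (Set.range y)
  have hc : ∀ e : t, ∃ j, y j = e := fun e => hts e.2
  choose c hc using hc
  rw [← ht.cardinalMk_eq_trdeg]
  have h1 : AlgebraicIndependent ℂ (fun e : t => (Ideal.Quotient.mk Q (X (c e)) :
      MvPolynomial ι ℂ ⧸ Q)) := by
    apply AlgebraicIndependent.of_comp φ
    have h2 : (φ ∘ fun e : t => (Ideal.Quotient.mk Q (X (c e)) : MvPolynomial ι ℂ ⧸ Q)) =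
        fun e : t => (e : K) := by
      funext e
      simp only [Function.comp_apply, hφ, aeval_X]
      exact hc e
    rw [h2]
    exact ht.1
  exact h1.cardinalMk_le_trdeg

end

/-- the value of the Möbius transformation `g` -/
noncomputable def moeb {K : Type} [Field K] (g : Matrix (Fin 2) (Fin 2) ℤ) (x : K) : K :=
  ((g 0 0 : K) * x + (g 0 1 : K)) / ((g 1 0 : K) * x + (g 1 1 : K))

/-- The translate of `V` by the Möbius transformations `g_i` of the coordinates. -/
def translate {n : ℕ} (g : Fin n → Matrix (Fin 2) (Fin 2) ℤ) (V : Set (Fin n → ℂ)) :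
    Set (Fin n → ℂ) :=
  {y | ∃ x ∈ V, ∀ i, ((g i 1 0 : ℤ) : ℂ) * x i + ((g i 1 1 : ℤ) : ℂ) ≠ 0 ∧
    y i = moeb (g i) (x i)}

/-- clearing denominators -/
theorem exists_clear {n : ℕ} (g : Fin n → Matrix (Fin 2) (Fin 2) ℤ)
    (f : MvPolynomial (Fin n) ℂ) : ∃ (F : MvPolynomial (Fin n) ℂ) (N : ℕ),
      ∀ (K : Type) [Field K] [Algebra ℂ K] (x : Fin n → K),
        (∀ i, ((g i 1 0 : ℤ) : K) * x i + ((g i 1 1 : ℤ) : K) ≠ 0) →
        aeval x F = (∏ i, (((g i 1 0 : ℤ) : K) * x i + ((g i 1 1 : ℤ) : K))) ^ N *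
          aeval (fun i => moeb (g i) (x i)) f := by
  classical
  let D : Fin n → ℕ := fun _ => 1
  let c : Idx D → ℤ := fun a => if a.2.1 = 0 then (if (a.2.2 : ℕ) = 0 then g a.1 0 1 else g a.1 0 0)
    else (if (a.2.2 : ℕ) = 0 then g a.1 1 1 else g a.1 1 0)
  let f' : MvPolynomial (Finset.univ : Finset (Fin n)) ℂ :=
    rename (fun i => ⟨i, Finset.mem_univ i⟩) f
  have hp0 : ∀ (K : Type) [Field K] (i : Fin n) (x : K),
      pev (fun l => c ⟨i, 0, l⟩) x = ((g i 0 0 : ℤ) : K) * x + ((g i 0 1 : ℤ) : K) := by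
    intro K _ i x
    change ∑ l : Fin (1 + 1), ((c ⟨i, 0, l⟩ : ℤ) : K) * x ^ (l : ℕ) = _
    rw [Fin.sum_univ_two]
    simp [c]
    ring
  have hp1 : ∀ (K : Type) [Field K] (i : Fin n) (x : K),
      pev (fun l => c ⟨i, 1, l⟩) x = ((g i 1 0 : ℤ) : K) * x + ((g i 1 1 : ℤ) : K) := by
    intro K _ i x
    change ∑ l : Fin (1 + 1), ((c ⟨i, 1, l⟩ : ℤ) : K) * x ^ (l : ℕ) = _
    rw [Fin.sum_univ_two]
    simp [c]
    ring
  refine ⟨rpull c f', f'.totalDegree, ?_⟩
  intro K _ _ x hx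
  rw [aeval_rpull c f' x (fun i _ => by rw [hp1]; exact hx i)]
  simp only [hp0, hp1]
  congr 1
  · congr 1
    exact Finset.prod_coe_sort (Finset.univ : Finset (Fin n))
      (fun i => ((g i 1 0 : ℤ) : K) * x i + ((g i 1 1 : ℤ) : K))
  · rw [aeval_rename]
    rfl

/-- A Möbius translate of an irreducible set is irreducible, of the same dimension. -/
theorem translate_prime_dim {n : ℕ} (g : Fin n → Matrix (Fin 2) (Fin 2) ℤ)
    (hdet : ∀ i, (g i).det ≠ 0) (V : Set (Fin n → ℂ)) (hV : (idealOf V).IsPrime)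
    (hden : ∀ i, (C ((g i 1 0 : ℤ) : ℂ) * X i + C ((g i 1 1 : ℤ) : ℂ) :
      MvPolynomial (Fin n) ℂ) ∉ idealOf V) :
    (idealOf (translate g V)).IsPrime ∧ zdim (translate g V) = zdim V := by
  classical
  obtain ⟨K, _, _, x, hx, hfrac⟩ := generic_frac (idealOf V)
  have hchar : CharZero K := charZero_of_injective_algebraMap (algebraMap ℂ K).injective
  have hdx : ∀ i, ((g i 1 0 : ℤ) : K) * x i + ((g i 1 1 : ℤ) : K) ≠ 0 := by
    intro i h
    apply hden i
    rw [← hx]
    simpa using h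
  set y : Fin n → K := fun i => moeb (g i) (x i) with hy
  have hker : ∀ f, aeval y f = 0 ↔ f ∈ idealOf (translate g V) := by
    intro f
    obtain ⟨F, N, hF⟩ := exists_clear g f
    have hFK := hF K x hdx
    constructor
    · intro h
      have h1 : F ∈ idealOf V := by
        rw [← hx, hFK]
        change _ * aeval y f = 0
        rw [h, mul_zero]
      rw [mem_idealOf]
      rintro w ⟨v, hv, hw⟩
      have h2 := hF ℂ v (fun i => (hw i).1)
      rw [aeval_eq_eval] at h2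
      change eval v F = _ at h2
      rw [mem_idealOf.1 h1 v hv] at h2
      have h3 : (∏ i, (((g i 1 0 : ℤ) : ℂ) * v i + ((g i 1 1 : ℤ) : ℂ))) ^ N ≠ 0 :=
        pow_ne_zero _ (Finset.prod_ne_zero_iff.2 fun i _ => (hw i).1)
      have h4 := (mul_eq_zero.1 h2.symm).resolve_left h3
      have h5 : (fun i => moeb (g i) (v i)) = w := funext fun i => ((hw i).2).symm
      rw [h5, aeval_eq_eval] at h4
      exact h4
    · intro h
      have h1 : F * ∏ i, (C ((g i 1 0 : ℤ) : ℂ) * X i + C ((g i 1 1 : ℤ) : ℂ)) ∈ idealOf V := by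
        rw [mem_idealOf]
        intro v hv
        rw [map_mul]
        by_cases hd : ∀ i, ((g i 1 0 : ℤ) : ℂ) * v i + ((g i 1 1 : ℤ) : ℂ) ≠ 0
        · have h2 := hF ℂ v hd
          rw [aeval_eq_eval] at h2
          change eval v F = _ at h2
          have h3 := mem_idealOf.1 h (fun i => moeb (g i) (v i)) ⟨v, hv, fun i => ⟨hd i, rfl⟩⟩
          rw [aeval_eq_eval] at h2
          change eval v F = _ * eval (fun i => moeb (g i) (v i)) f at h2
          rw [h2, h3, mul_zero, zero_mul]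
        · push Not at hd
          obtain ⟨i, hi⟩ := hd
          have h2 : eval v (∏ i, (C ((g i 1 0 : ℤ) : ℂ) * X i + C ((g i 1 1 : ℤ) : ℂ))) = 0 := by
            rw [map_prod]
            refine Finset.prod_eq_zero (Finset.mem_univ i) ?_
            simpa using hi
          rw [h2, mul_zero]
      have h2 := (hx _).2 h1
      rw [map_mul, hFK, map_prod] at h2
      have h3 : (∏ i, aeval x (C ((g i 1 0 : ℤ) : ℂ) * X i + C ((g i 1 1 : ℤ) : ℂ))) ≠ 0 := by
        refine Finset.prod_ne_zero_iff.2 fun i _ => ?_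
        simpa using hdx i
      have h4 := (mul_eq_zero.1 h2).resolve_right h3
      exact (mul_eq_zero.1 h4).resolve_left
        (pow_ne_zero _ (Finset.prod_ne_zero_iff.2 fun i _ => hdx i))
  have hprime : (idealOf (translate g V)).IsPrime := by
    have h1 : idealOf (translate g V) = RingHom.ker (aeval y : MvPolynomial (Fin n) ℂ →ₐ[ℂ] K) := by
      ext f
      rw [RingHom.mem_ker, hker]
    rw [h1]
    exact RingHom.ker_isPrime _
  refine ⟨hprime, ?_⟩
  -- `x` is algebraic over `y`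
  set S := Algebra.adjoin ℂ (Set.range y) with hS
  have hyS : ∀ i, IsAlgebraic S (y i) := fun i =>
    isAlgebraic_algebraMap (⟨y i, Algebra.subset_adjoin ⟨i, rfl⟩⟩ : S)
  have hcS : ∀ c : ℂ, IsAlgebraic S (algebraMap ℂ K c) := fun c =>
    isAlgebraic_algebraMap (algebraMap ℂ S c)
  have hintS : ∀ c : ℤ, IsAlgebraic S ((c : ℤ) : K) := fun c => by
    have := hcS (c : ℂ)
    rwa [map_intCast] at this
  have hyi : ∀ i, y i * (((g i 1 0 : ℤ) : K) * x i + ((g i 1 1 : ℤ) : K)) =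
      ((g i 0 0 : ℤ) : K) * x i + ((g i 0 1 : ℤ) : K) := fun i => div_mul_cancel₀ _ (hdx i)
  have hxS : ∀ i, IsAlgebraic S (x i) := by
    intro i
    have h1 : x i * (((g i 0 0 : ℤ) : K) - ((g i 1 0 : ℤ) : K) * y i) =
        ((g i 1 1 : ℤ) : K) * y i - ((g i 0 1 : ℤ) : K) := by
      linear_combination -(hyi i)
    have h3 : ((g i 0 0 : ℤ) : K) - ((g i 1 0 : ℤ) : K) * y i ≠ 0 := by
      intro h
      have h4 : (((g i 0 0 : ℤ) : K) - ((g i 1 0 : ℤ) : K) * y i) *
          (((g i 1 0 : ℤ) : K) * x i + ((g i 1 1 : ℤ) : K)) = (((g i).det : ℤ) : K) := by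
        rw [Matrix.det_fin_two]
        push_cast
        linear_combination -((g i 1 0 : ℤ) : K) * hyi i
      rw [h, zero_mul] at h4
      have h5 : (((g i).det : ℤ) : K) ≠ 0 := by exact_mod_cast hdet i
      exact h5 h4.symm
    have h4 : x i = (((g i 1 1 : ℤ) : K) * y i - ((g i 0 1 : ℤ) : K)) *
        (((g i 0 0 : ℤ) : K) - ((g i 1 0 : ℤ) : K) * y i)⁻¹ := by
      rw [← h1, mul_inv_cancel_right₀ h3]
    rw [h4]
    exact (((hintS _).mul (hyS i)).sub (hintS _)).mul (((hintS _).sub ((hintS _).mul (hyS i))).inv)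
  have hpS : ∀ p : MvPolynomial (Fin n) ℂ, IsAlgebraic S (aeval x p) := by
    intro p
    induction p using MvPolynomial.induction_on with
    | C a => rw [aeval_C]; exact hcS a
    | add p q hp hq => rw [map_add]; exact hp.add hq
    | mul_X p i hp => rw [map_mul, aeval_X]; exact hp.mul (hxS i)
  have halg : Algebra.IsAlgebraic S K := by
    refine ⟨fun ω => ?_⟩
    obtain ⟨p, q, rfl⟩ := hfrac ω
    rw [div_eq_mul_inv]
    exact (hpS p).mul (hpS q).inv
  have halgx : Algebra.IsAlgebraic (Algebra.adjoin ℂ (Set.range x)) K := by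
    have hmem : ∀ p : MvPolynomial (Fin n) ℂ, aeval x p ∈ Algebra.adjoin ℂ (Set.range x) := by
      intro p
      rw [Algebra.adjoin_range_eq_range_aeval]
      exact ⟨p, rfl⟩
    refine ⟨fun ω => ?_⟩
    obtain ⟨p, q, rfl⟩ := hfrac ω
    rw [div_eq_mul_inv]
    have hp' : IsAlgebraic (Algebra.adjoin ℂ (Set.range x)) (aeval x p) :=
      isAlgebraic_algebraMap (⟨_, hmem p⟩ : Algebra.adjoin ℂ (Set.range x))
    have hq' : IsAlgebraic (Algebra.adjoin ℂ (Set.range x)) (aeval x q) :=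
      isAlgebraic_algebraMap (⟨_, hmem q⟩ : Algebra.adjoin ℂ (Set.range x))
    exact hp'.mul hq'.inv
  rw [zdim, zdim, trdeg_eq_of_algebraic _ y hker halg, trdeg_eq_of_algebraic _ x hx halgx]

end Pool.Agent.W282.ZP
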