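import Pool.Agent.W282.ZP.Rat

/-!
# Pull-backs under random rational maps in all variables of `Y(1)^n × G_m^k`
-/

set_option autoImplicit false

namespace Pool.Agent.W282.ZP.RM

open H294ZP UpperHalfPlane MvPolynomial Pool.Agent.W282.ZP

/-- exponent vectors of multidegree at most `D` -/
abbrev Ex {ι : Type} (D : ι → ℕ) : Type := (i : ι) → Fin (D i + 1)

section Basic

variable {ι : Type} [Fintype ι] [DecidableEq ι]

/-- the value of the polynomial with coefficients `F` -/
def mv {R : Type*} [CommRing R] {D : ι → ℕ} (F : Ex D → ℤ) (x : ι → R) : R :=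
  ∑ e : Ex D, (F e : R) * ∏ i, x i ^ (e i : ℕ)

theorem map_mv {R S : Type*} [CommRing R] [CommRing S] (φ : R →+* S) {D : ι → ℕ}
    (F : Ex D → ℤ) (x : ι → R) : φ (mv F x) = mv F (fun i => φ (x i)) := by
  simp [mv, map_sum, map_prod]

theorem mv_sub {R : Type*} [CommRing R] {D : ι → ℕ} (F G : Ex D → ℤ) (a : ℤ)
    (x : ι → R) : mv (fun e => F e - a * G e) x = mv F x - (a : R) * mv G x := by
  rw [mv, mv, mv, Finset.mul_sum, ← Finset.sum_sub_distrib]
  refine Finset.sum_congr rfl fun e _ => ?_
  push_cast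
  ring

/-- The exponent vector attached to a labelling and a set of labels. -/
def lex {L : Type} [DecidableEq L] (D : ι → ℕ) (lam : ι → Option L) (S : Finset L) : Ex D :=
  fun i => match lam i with
    | none => 0
    | some l => if l ∈ S then Fin.last (D i) else 0

/-- The coefficients of `∏_l (1 + c w_l y_l)`, where `y_l` is the product of the `x_i ^ (D i)` over
the coordinates `i` with label `l`. -/
def lco {L : Type} [Fintype L] [DecidableEq L] (D : ι → ℕ) (lam : ι → Option L) (w : L → ℤ)
    (c : ℤ) (e : Ex D) : ℤ :=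
  ∑ S : Finset L, if lex D lam S = e then ∏ l ∈ S, (c * w l) else 0

theorem mv_lco {K : Type*} [Field K] {L : Type} [Fintype L] [DecidableEq L] (D : ι → ℕ)
    (lam : ι → Option L) (w : L → ℤ) (c : ℤ) (x : ι → K) :
    mv (lco D lam w c) x = ∏ l : L, (1 + (c : K) * ((w l : K) *
      ∏ i, if lam i = some l then x i ^ D i else 1)) := by
  classical
  have h1 : ∏ l : L, (1 + (c : K) * ((w l : K) *
      ∏ i, if lam i = some l then x i ^ D i else 1)) =
      ∑ S : Finset L, (∏ l ∈ S, ((c : K) * (w l : K))) * ∏ i, x i ^ ((lex D lam S i : ℕ)) := by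
    have h0 : ∀ l : L, (1 + (c : K) * ((w l : K) *
        ∏ i, if lam i = some l then x i ^ D i else 1)) =
        ((c : K) * (w l : K)) * (∏ i, if lam i = some l then x i ^ D i else 1) + 1 := by
      intro l; ring
    rw [Finset.prod_congr rfl fun l _ => h0 l, Finset.prod_add, Finset.powerset_univ]
    refine Finset.sum_congr rfl fun S _ => ?_
    rw [Finset.prod_const_one, mul_one, Finset.prod_mul_distrib,
      Finset.prod_comm]
    congr 1
    refine Finset.prod_congr rfl fun i _ => ?_
    unfold lex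
    cases hl : lam i with
    | none => simp
    | some l =>
      by_cases hlS : l ∈ S
      · rw [Finset.prod_eq_single l]
        · simp [hlS]
        · intro b _ hb
          rw [if_neg]
          intro h
          exact hb (Option.some_injective _ h).symm
        · intro h; exact absurd hlS h
      · rw [Finset.prod_eq_one]
        · simp [hlS]
        · intro b hb
          rw [if_neg]
          intro h
          have := Option.some_injective _ h
          subst this
          exact hlS hb
  rw [h1, mv]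
  simp only [lco]
  push_cast
  simp only [Finset.sum_mul]
  rw [Finset.sum_comm]
  refine Finset.sum_congr rfl fun S _ => ?_
  rw [Finset.sum_eq_single (lex D lam S)]
  · simp
  · intro e _ he
    rw [if_neg (fun h => he h.symm)]
    simp
  · intro h; exact absurd (Finset.mem_univ _) h

/-- All monomials are dominated. -/
theorem val_mv_le {K : Type*} [Field K] (B : ValuationSubring K) {L : Type} [Fintype L]
    [DecidableEq L] (D : ι → ℕ) (lam : ι → Option L) (x : ι → K)
    (hnone : ∀ i, lam i = none → B.valuation (x i) ≤ 1) (y : L → K) (ρ : L → B.ValueGroup)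
    (hρ : ∀ l, ρ l * ∏ i, (if lam i = some l then max 1 (B.valuation (x i)) ^ D i else 1) ≤
      max 1 (B.valuation (y l))) (F : Ex D → ℤ) (w : B.ValueGroup)
    (hF : ∀ e, B.valuation ((F e : ℤ) : K) ≤ w * ∏ l, ρ l) :
    B.valuation (mv F x) ≤ w * ∏ l : L, max 1 (B.valuation (y l)) := by
  classical
  set v := B.valuation with hv
  refine v.map_sum_le fun e _ => ?_
  rw [map_mul]
  have h1 : v (∏ i, x i ^ (e i : ℕ)) ≤ ∏ i, max 1 (v (x i)) ^ (D i) := by
    rw [map_prod]
    refine Finset.prod_le_prod' fun i _ => ?_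
    rw [map_pow]
    calc v (x i) ^ (e i : ℕ) ≤ max 1 (v (x i)) ^ (e i : ℕ) := by gcongr; exact le_max_right _ _
      _ ≤ max 1 (v (x i)) ^ D i :=
        pow_le_pow_right₀ (le_max_left _ _) (Nat.lt_succ_iff.1 (e i).2)
  have h2 : ∀ i, max 1 (v (x i)) ^ (D i) = ∏ l : L,
      if lam i = some l then max 1 (v (x i)) ^ (D i) else 1 := by
    intro i
    cases hl : lam i with
    | none =>
      have : max 1 (v (x i)) = 1 := max_eq_left (hnone i hl)
      simp [this]
    | some l =>
      rw [Finset.prod_eq_single l]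
      · simp
      · intro b _ hb
        rw [if_neg]
        intro h
        exact hb (Option.some_injective _ h).symm
      · intro h; exact absurd (Finset.mem_univ _) h
  calc v ((F e : ℤ) : K) * v (∏ i, x i ^ (e i : ℕ))
      ≤ (w * ∏ l, ρ l) * ∏ i, max 1 (v (x i)) ^ (D i) := mul_le_mul' (hF e) h1
    _ = w * ∏ l, (ρ l * ∏ i, (if lam i = some l then max 1 (v (x i)) ^ D i else 1)) := by
        rw [Finset.prod_congr rfl fun i _ => h2 i, Finset.prod_comm, Finset.prod_mul_distrib,
          mul_assoc]
    _ ≤ w * ∏ l : L, max 1 (v (y l)) := by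
        exact mul_le_mul' le_rfl (Finset.prod_le_prod' fun l _ => hρ l)

/-- a factor is large unless the monomial is a unit -/
theorem factor_eq {K : Type*} [Field K] (B : ValuationSubring K) (y : K) (c : ℤ)
    (hc : B.valuation ((c : ℤ) : K) = 1) (hy : B.valuation y ≠ 1) :
    B.valuation (1 + (c : K) * y) = max 1 (B.valuation y) := by
  rcases lt_or_gt_of_ne hy with h | h
  · rw [max_eq_left h.le, Valuation.map_add_eq_of_lt_left, map_one]
    rw [map_one, map_mul, hc, one_mul]
    exact h
  · rw [max_eq_right h.le, add_comm, Valuation.map_add_eq_of_lt_left]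
    · rw [map_mul, hc, one_mul]
    · rw [map_mul, hc, one_mul, map_one]; exact h

/-- The number of the `∏_l (1 + c_j y_l)` which are not of maximal size. -/
theorem card_small {K : Type*} [Field K] (B : ValuationSubring K) {L : Type} [Fintype L]
    [DecidableEq L] {m : ℕ} (y : L → K) (c : Fin m → ℤ)
    (hc : ∀ j, B.valuation ((c j : ℤ) : K) = 1)
    (hcc : ∀ j j', j ≠ j' → B.valuation (((c j - c j' : ℤ)) : K) = 1) (S : Finset (Fin m))
    (hS : ∀ j ∈ S, B.valuation (∏ l, (1 + (c j : K) * y l)) ≠
      ∏ l : L, max 1 (B.valuation (y l))) :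
    S.card ≤ Nat.card {l : L // B.valuation (y l) = 1} := by
  classical
  have h1 : ∀ j : S, ∃ l : L, B.valuation (1 + (c j : K) * y l) ≠
        max 1 (B.valuation (y l)) := by
    intro j
    by_contra hcon
    push Not at hcon
    apply hS j j.2
    rw [map_prod]
    exact Finset.prod_congr rfl fun l _ => hcon l
  choose l hl using h1
  have hl1 : ∀ j : S, B.valuation (y (l j)) = 1 := by
    intro j
    by_contra hne
    exact hl j (factor_eq B _ (c j) (hc j) hne)
  have hinj : Function.Injective (fun j : S => (⟨l j, hl1 j⟩ : {l : L // B.valuation (y l) = 1})) := by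
    intro j j' hjj
    have hjj' : l j = l j' := congrArg Subtype.val hjj
    by_contra hne
    have h2 := hl j'
    rw [← hjj'] at h2
    exact factor_large B _ (c j) (c j') (hc j) (hc j') (hcc j j' fun h => hne (Subtype.ext h))
      (hl j) h2
  have := Nat.card_le_card_of_injective _ hinj
  simpa using this

/-- The congruence conditions. -/
def LC {L : Type} [Fintype L] [DecidableEq L] {m : ℕ} (D : ι → ℕ) (q : ℤ) (lam : ι → Option L)
    (w : L → ℤ) (α : Fin m → ℤ) (c : Fin m × Fin 2 × Ex D → ℤ) : Prop :=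
  ∀ (j : Fin m) (e : Ex D),
    q ∣ c (j, 0, e) - α j * lco D lam w ((j : ℕ) + 1) e ∧
    q ∣ c (j, 1, e) - lco D lam w ((j : ℕ) + 1) e

/-- One prime: contradiction. -/
theorem lc_absurd {m d : ℕ} (D : ι → ℕ) {K : Type} [Field K] [Algebra ℂ K]
    (O : ValuationSubring ℂ) (B : ValuationSubring K)
    (hOB : ∀ c : ℂ, O.valuation c ≤ 1 → B.valuation (algebraMap ℂ K c) ≤ 1)
    (hOB' : ∀ c : ℂ, O.valuation c < 1 → B.valuation (algebraMap ℂ K c) < 1)
    (p : ℕ) (hp : p.Prime) (hpm : m < p) (hpO : O.valuation ((p : ℕ) : ℂ) < 1)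
    (f : ∀ J : Finset (Fin m), MvPolynomial J ℂ) (α : Fin m → ℤ)
    (hf : ∀ J : Finset (Fin m), J.card = d + 1 → ∀ l, O.valuation ((f J).coeff l) ≤ 1)
    (hcor : ∀ J : Finset (Fin m), J.card = d + 1 → O.valuation
      (eval (fun j : J => ((α j : ℤ) : ℂ)) (f J)) = 1)
    {L : Type} [Fintype L] [DecidableEq L] (lam : ι → Option L) (w : L → ℤ) (q : ℤ)
    (c : Fin m × Fin 2 × Ex D → ℤ) (hc : LC D q lam w α c) (z : ι → K)
    (hk : Nat.card {l : L // B.valuation ((w l : K) *
      ∏ i, if lam i = some l then z i ^ D i else 1) = 1} + (d + 1) ≤ m)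
    (hz : ∀ J : Finset (Fin m), J.card = d + 1 → aeval z (gpull
      (fun j => mv (fun e => c (j, 0, e)) (X : ι → MvPolynomial ι ℂ))
      (fun j => mv (fun e => c (j, 1, e)) (X : ι → MvPolynomial ι ℂ)) (f J)) = 0)
    (hnone : ∀ i, lam i = none → B.valuation (z i) ≤ 1) (ρ : L → B.ValueGroup)
    (hρ : ∀ l, ρ l * ∏ i, (if lam i = some l then max 1 (B.valuation (z i)) ^ D i else 1) ≤
      max 1 (B.valuation ((w l : K) * ∏ i, if lam i = some l then z i ^ D i else 1)))
    (hq : B.valuation ((q : ℤ) : K) ≤ B.valuation ((p : ℕ) : K) * ∏ l, ρ l) : False := by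
  classical
  have hchar : CharZero K := charZero_of_injective_algebraMap (algebraMap ℂ K).injective
  have hunit : ∀ c : ℂ, O.valuation c = 1 → B.valuation (algebraMap ℂ K c) = 1 := by
    intro c hc
    have hc0 : c ≠ 0 := by
      rintro rfl
      rw [map_zero] at hc
      exact zero_ne_one hc
    refine le_antisymm (hOB c hc.le) ?_
    have h1 := hOB c⁻¹ (by rw [map_inv₀, hc, inv_one])
    have h2 : B.valuation (algebraMap ℂ K c) * B.valuation (algebraMap ℂ K c⁻¹) = 1 := by
      rw [← map_mul, ← map_mul, mul_inv_cancel₀ hc0, map_one, map_one]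
    calc (1 : B.ValueGroup) = B.valuation (algebraMap ℂ K c) * B.valuation (algebraMap ℂ K c⁻¹) :=
          h2.symm
      _ ≤ B.valuation (algebraMap ℂ K c) * 1 := by gcongr
      _ = _ := mul_one _
  have hpB : B.valuation ((p : ℕ) : K) < 1 := by
    have := hOB' _ hpO
    rwa [map_natCast] at this
  have hint : ∀ b : ℤ, B.valuation ((b : ℤ) : K) ≤ 1 := fun b =>
    (B.valuation_le_one_iff _).2 (intCast_mem B b)
  set v := B.valuation with hv
  set y : L → K := fun l => (w l : K) * ∏ i, if lam i = some l then z i ^ D i else 1 with hy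
  set Y : B.ValueGroup := ∏ l : L, max 1 (v (y l)) with hY
  have hY1 : 1 ≤ Y := Finset.one_le_prod' fun l _ => le_max_left _ _
  have hY0 : 0 < Y := zero_lt_one.trans_le hY1
  let cj : Fin m → ℤ := fun j => (j : ℕ) + 1
  let Pj : Fin m → K := fun j => mv (lco D lam w (cj j)) z
  have hPj : ∀ j, Pj j = ∏ l, (1 + (cj j : K) * y l) := fun j => mv_lco D lam w (cj j) z
  have hcj : ∀ j, v ((cj j : ℤ) : K) = 1 := by
    intro j
    refine val_int_unit B hp hpB ?_
    intro h
    have h1 : ((p : ℕ) : ℤ) ≤ (j : ℕ) + 1 := Int.le_of_dvd (by positivity) h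
    have := j.2
    omega
  have hcjj : ∀ j j', j ≠ j' → v (((cj j - cj j' : ℤ)) : K) = 1 := by
    intro j j' hne
    refine val_int_unit B hp hpB ?_
    intro h
    have hne' : (j : ℕ) ≠ j' := fun h => hne (Fin.ext h)
    have h1 := Int.natAbs_dvd_natAbs.2 h
    have h2 : (cj j - cj j').natAbs ≠ 0 := by
      simp only [cj]
      omega
    have h3 := Nat.le_of_dvd (Nat.pos_of_ne_zero h2) h1
    simp only [cj, Int.natAbs_natCast] at h3
    have := j.2
    have := j'.2
    omega
  have hsmall := card_small B y cj hcj hcjj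
    (Finset.univ.filter fun j => v (Pj j) ≠ Y)
    (fun j hj => by
      have h := (Finset.mem_filter.1 hj).2
      rwa [hPj] at h)
  have hlarge : d + 1 ≤ (Finset.univ.filter fun j => v (Pj j) = Y).card := by
    have := Finset.card_filter_add_card_filter_not (s := (Finset.univ : Finset (Fin m)))
      (fun j => v (Pj j) = Y)
    rw [Finset.card_univ, Fintype.card_fin] at this
    have h2 : (Finset.univ.filter fun j : Fin m => ¬ v (Pj j) = Y).card ≤
      Nat.card {l : L // v (y l) = 1} := hsmall
    have h3 : Nat.card {l : L // v (y l) = 1} + (d + 1) ≤ m := hk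
    omega
  obtain ⟨J, hJ, hJc⟩ := Finset.exists_subset_card_eq hlarge
  have hJv : ∀ j ∈ J, v (Pj j) = Y := fun j hj => (Finset.mem_filter.1 (hJ hj)).2
  -- the reductions
  have hdiff : ∀ (F : Ex D → ℤ), (∀ e, q ∣ F e) → v (mv F z) < Y := by
    intro F hF
    have h1 := val_mv_le B D lam z hnone y ρ hρ F (v ((p : ℕ) : K)) (by
      intro e
      obtain ⟨b, hb⟩ := hF e
      rw [hb]
      push_cast
      rw [map_mul]
      calc v (q : K) * v (b : K) ≤ v (q : K) * 1 := by gcongr; exact hint b
        _ = v (q : K) := mul_one _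
        _ ≤ _ := hq)
    refine lt_of_le_of_lt h1 ?_
    calc v ((p : ℕ) : K) * Y < 1 * Y := mul_lt_mul_of_pos_right hpB hY0
      _ = Y := one_mul _
  set Nz : Fin m → K := fun j => mv (fun e => c (j, 0, e)) z with hNz
  set Mz : Fin m → K := fun j => mv (fun e => c (j, 1, e)) z with hMz
  have hred : ∀ j ∈ J, Mz j ≠ 0 ∧ v (Nz j / Mz j - (α j : K)) < 1 := by
    intro j hj
    have hP0 : Pj j ≠ 0 := by
      intro h0
      have := hJv j hj
      rw [h0, map_zero] at this
      exact hY0.ne this
    have h1 : v (Nz j - (α j : K) * Pj j) < Y := by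
      have := hdiff (fun e => c (j, 0, e) - α j * lco D lam w (cj j) e) (fun e => (hc j e).1)
      rwa [mv_sub] at this
    have h2 : v (Mz j - Pj j) < Y := by
      have := hdiff (fun e => c (j, 1, e) - 1 * lco D lam w (cj j) e) (fun e => by
        rw [one_mul]; exact (hc j e).2)
      rwa [mv_sub, Int.cast_one, one_mul] at this
    have h3 : v (Nz j / Pj j - (α j : K)) < 1 := by
      have h4 : Nz j / Pj j - (α j : K) = (Nz j - (α j : K) * Pj j) / Pj j := by field_simp
      rw [h4, map_div₀, hJv j hj]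
      exact (div_lt_one₀ hY0).2 h1
    have h4 : v (Mz j / Pj j - 1) < 1 := by
      have h5 : Mz j / Pj j - 1 = (Mz j - Pj j) / Pj j := by field_simp
      rw [h5, map_div₀, hJv j hj]
      exact (div_lt_one₀ hY0).2 h2
    obtain ⟨h5, h6⟩ := val_div_sub_lt B (Nz j / Pj j) (Mz j / Pj j) (α j : K) (hint _) h3 h4
    rw [div_div_div_cancel_right₀ hP0] at h6
    refine ⟨?_, h6⟩
    intro h7
    rw [h7, zero_div] at h5
    exact h5 rfl
  have hNe : ∀ j, aeval z (mv (fun e => c (j, 0, e)) (X : ι → MvPolynomial ι ℂ)) =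
      Nz j := by
    intro j
    have h := map_mv (aeval z : MvPolynomial ι ℂ →ₐ[ℂ] K).toRingHom
      (fun e => c (j, 0, e)) X
    change aeval z _ = _ at h
    rw [h, hNz]
    simp only
    congr 1
    funext i
    exact aeval_X z i
  have hMe : ∀ j, aeval z (mv (fun e => c (j, 1, e)) (X : ι → MvPolynomial ι ℂ)) =
      Mz j := by
    intro j
    have h := map_mv (aeval z : MvPolynomial ι ℂ →ₐ[ℂ] K).toRingHom
      (fun e => c (j, 1, e)) X
    change aeval z _ = _ at h
    rw [h, hMz]
    simp only
    congr 1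
    funext i
    exact aeval_X z i
  have h1 := hz J hJc
  rw [aeval_gpull _ _ (f J) z (fun j hj => by rw [hMe]; exact (hred j hj).1)] at h1
  simp only [hNe, hMe] at h1
  have h2 : aeval (fun j : J => Nz j / Mz j) (f J) = 0 := by
    refine (mul_eq_zero.1 h1).resolve_left (pow_ne_zero _ ?_)
    exact Finset.prod_ne_zero_iff.2 fun j _ => (hred j j.2).1
  have h3 := val_aeval_sub_lt B (f J) (fun l => hOB _ (hf J hJc l)) (fun j : J => Nz j / Mz j)
    (fun j : J => ((α j : ℤ) : K)) (fun j => (hred j j.2).2) (fun j => hint _)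
  rw [h2, zero_sub, Valuation.map_neg] at h3
  have h4 : aeval (fun j : J => ((α j : ℤ) : K)) (f J) =
      algebraMap ℂ K (eval (fun j : J => ((α j : ℤ) : ℂ)) (f J)) := by
    rw [← aeval_eq_eval, ← aeval_algebraMap_apply]
    congr 2
    funext j
    exact (map_intCast (algebraMap ℂ K) _).symm
  rw [h4, hunit _ (hcor J hJc)] at h3
  exact lt_irrefl _ h3

end Basic

end Pool.Agent.W282.ZP.RM
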