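import Pool.Agent.W282.ZP.RMix

/-!
# Main theorem for generic points: rational maps in all variables of `Y(1)^n × G_m^k`
-/

set_option autoImplicit false

namespace Pool.Agent.W282.ZP.RM

open H294ZP UpperHalfPlane MvPolynomial Pool.Agent.W282.ZP

/-- the labelling of all the coordinates -/
def labOf {n k : ℕ} (lam0 : Fin n → Option (Finset (Fin n))) :
    Fin n ⊕ Fin k → Option (Finset (Fin n) ⊕ Fin k) :=
  Sum.elim (fun i => (lam0 i).map Sum.inl) (fun i => some (Sum.inr i))

open Classical in
/-- the weights of the labels -/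
noncomputable def wtOf {n k : ℕ} (lam0 : Fin n → Option (Finset (Fin n))) (p : ℕ)
    (ω : Fin k → ℕ) : Finset (Fin n) ⊕ Fin k → ℤ :=
  Sum.elim (fun l => if ∃ i, lam0 i = some l then 1 else 0) (fun i => (p : ℤ) ^ ω i)

/-- many primes with the same set of break points -/
theorem exists_good {k : ℕ} {D : Fin k → ℕ} {V : Type*} [LinearOrderedCommGroupWithZero V]
    {L : ℕ} (hL : k * 2 ^ k < L) (ω : ℕ → Fin k → ℕ)
    (hevan : ∀ (s : Finset ℕ) (a : Fin k → ℤ), k ≤ s.card →
      (∀ m ∈ s, ∑ i, a i * (ω m i : ℤ) = 0) → a = 0)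
    (Λ' : Submodule ℤ (Fin k → ℤ)) (I : Fin L → Finset (Fin k))
    (h : ∀ (s : Fin L) (a : Fin k → ℤ), a ∈ Λ' → (∀ i, i ∉ I s → a i = 0) →
      ∑ i, (a i * ∏ j ∈ (I s).erase i, (D j : ℤ)) * (ω s i : ℤ) = 0)
    (hD : ∀ s, ∀ i ∈ I s, 0 < D i) :
    ∃ s, Module.finrank ℤ Λ' + (I s).card ≤ k := by
  classical
  by_contra hcon
  push Not at hcon
  obtain ⟨Y, hY⟩ := Fintype.exists_lt_card_fiber_of_mul_lt_card I (n := k) (by
    rw [Fintype.card_finset, Fintype.card_fin, Fintype.card_fin]
    rw [mul_comm]
    exact hL)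
  set S := Finset.univ.filter fun s => I s = Y with hS
  obtain ⟨s₀, hs₀⟩ := Finset.card_pos.1 (show 0 < S.card by omega)
  have hs₀Y : I s₀ = Y := (Finset.mem_filter.1 hs₀).2
  obtain ⟨a, ha, ha0, haY⟩ := exists_supported Λ' Y (by rw [← hs₀Y]; exact hcon s₀)
  have h1 : (fun i => a i * ∏ j ∈ Y.erase i, (D j : ℤ)) = 0 := by
    refine hevan (S.image fun m : Fin L => (m : ℕ)) _ ?_ ?_
    · rw [Finset.card_image_of_injective _ Fin.val_injective]
      omega
    · intro m hm
      obtain ⟨m', hm', rfl⟩ := Finset.mem_image.1 hm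
      have h2 := (Finset.mem_filter.1 hm').2
      have h3 := h m' a ha (fun i hi => haY i (by rwa [h2] at hi))
      rwa [h2] at h3
  apply ha0
  funext i
  have h2 := congrFun h1 i
  simp only [Pi.zero_apply, mul_eq_zero] at h2
  rcases h2 with h2 | h2
  · exact h2
  · exfalso
    refine Finset.prod_ne_zero_iff.2 (fun j hj => ?_) h2
    have := hD s₀ j (by rw [hs₀Y]; exact Finset.mem_of_mem_erase hj)
    exact_mod_cast this.ne'

/-- **Main theorem for generic points** of pull-backs under rational maps from `Y(1)^n × G_m^k` to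
`ℂ^m`. -/
theorem exists_class_rm {n k m d : ℕ} (D : Fin n ⊕ Fin k → ℕ)
    (P : Ideal (MvPolynomial (Fin m) ℂ)) [P.IsPrime]
    (hd : Algebra.trdeg ℂ (MvPolynomial (Fin m) ℂ ⧸ P) = d) (Γ : Finset ℂ)
    (Q₀ : ℕ) (hQ₀ : 0 < Q₀) (c₀ : Fin m × Fin 2 × Ex D → ℤ) :
    ∃ (Q : ℕ) (G : Fin m × Fin 2 × Ex D → ℤ), 0 < Q ∧
      ∀ c : Fin m × Fin 2 × Ex D → ℤ, (∀ a, (Q : ℤ) ∣ c a - G a) →
        (∀ a, (Q₀ : ℤ) ∣ c a - c₀ a) ∧
        ∀ (K : Type) [Field K] [Algebra ℂ K] (z : Fin n ⊕ Fin k → K),
          (∀ (J : Finset (Fin m)) (f : MvPolynomial J ℂ),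
            rename (Subtype.val : J → Fin m) f ∈ P → aeval z (gpull
              (fun j => mv (fun e => c (j, 0, e)) (X : _ → MvPolynomial (Fin n ⊕ Fin k) ℂ))
              (fun j => mv (fun e => c (j, 1, e)) (X : _ → MvPolynomial (Fin n ⊕ Fin k) ℂ)) f)
                = 0) →
          ∀ (r : ℕ) (cls : Fin n → Option (Fin r)) (N : Fin n → Fin n → ℕ), (∀ i i', 0 < N i i') →
          (∀ i, cls i = none → ∃ c : ℂ, IsIntegral (Algebra.adjoin ℤ (Γ : Set ℂ)) c ∧
            z (Sum.inl i) = algebraMap ℂ K c) →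
          (∀ i i' l, cls i = some l → cls i' = some l → Polynomial.eval₂
            (Polynomial.aeval (z (Sum.inl i)) : Polynomial ℂ →ₐ[ℂ] K).toRingHom (z (Sum.inl i'))
              (Psi (N i i')) = 0) →
          (∀ i, z (Sum.inr i) ≠ 0) →
          ∀ (Λ : Submodule ℤ (Fin k → ℤ)) (η : Fin k → ℂ), (∀ i, DivHull Γ (η i)) →
          (∀ a ∈ Λ, chi (fun i => z (Sum.inr i)) a = algebraMap ℂ K (chi η a)) →
          ∀ T : Finset (Fin n ⊕ Fin k), AlgebraicIndependent ℂ (fun j : T => z j) →
            T.card + m + Module.finrank ℤ Λ ≤ r + k + d := by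
  classical
  obtain ⟨f, α, β, -, hcor⟩ := exists_corners' P hd
  obtain ⟨e, he0, -, -, hevan⟩ := exists_exponents' 0 k
  set ω : ℕ → Fin k → ℕ := fun s i => e s (Sum.inr i) with hω
  let s : Finset ℂ := (Finset.univ.biUnion fun J : Finset (Fin m) =>
      (f J).support.image (f J).coeff) ∪
    (Finset.univ.image fun J : Finset (Fin m) => eval (fun j : J => ((α j : ℤ) : ℂ)) (f J)) ∪ Γ
  obtain ⟨p, O, hpinj, hpO⟩ := exists_primes s (Q₀ + m)
  set L := k * 2 ^ k + 1 with hL
  let II := (Fin n → Option (Finset (Fin n))) × Fin L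
  set M := Fintype.card II with hM
  let eI : II ≃ Fin M := Fintype.equivFin _
  obtain ⟨Q, G, hQ, hclass⟩ := exists_residue_class' (κ := Fin m × Fin 2 × Ex D) (M := M)
    (fun i => p i) (fun i => (hpO i).1) (fun i i' h => Fin.ext (hpinj h))
    (fun i _ => (∑ t, ω (eI.symm i).2 t) + 1)
    (fun i x => if x.2.1 = 0 then α x.1 * lco D (labOf (eI.symm i).1)
        (wtOf (eI.symm i).1 (p i) (ω (eI.symm i).2)) ((x.1 : ℕ) + 1) x.2.2 else
      lco D (labOf (eI.symm i).1)
        (wtOf (eI.symm i).1 (p i) (ω (eI.symm i).2)) ((x.1 : ℕ) + 1) x.2.2) Q₀ hQ₀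
    (fun i => lt_of_le_of_lt (Nat.le_add_right _ _) (hpO i).2.1) c₀
  refine ⟨Q, G, hQ, fun c hc => ?_⟩
  obtain ⟨hc0, hcong⟩ := hclass c hc
  refine ⟨hc0, ?_⟩
  intro K _ _ z hz r cls N hN hconst hrel hz0 Λ η hη hΛ T hT
  have hchar : CharZero K := charZero_of_injective_algebraMap (algebraMap ℂ K).injective
  have hunit : ∀ i : ℕ, ∀ u ∈ s, u ≠ 0 → (O i).valuation u = 1 := fun i => (hpO i).2.2.2
  -- the modular part of `T`
  have hTsome : ∀ t : T.toLeft, ∃ l, cls t = some l := by
    intro t
    cases hc : cls t with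
    | none =>
      obtain ⟨c, -, hc2⟩ := hconst t hc
      have h1 := hT.transcendental ⟨Sum.inl (t : Fin n), Finset.mem_toLeft.1 t.2⟩
      exact absurd (hc2 ▸ isAlgebraic_algebraMap c) h1
    | some l => exact ⟨l, rfl⟩
  choose κ hκ using hTsome
  have hκinj : Function.Injective κ := by
    intro t t' htt
    by_contra hne
    have h1 := hrel t t' (κ t) (hκ t) (by rw [htt]; exact hκ t')
    have h2 := hT.transcendental_adjoin (s := {⟨Sum.inl (t : Fin n), Finset.mem_toLeft.1 t.2⟩})
      (i := ⟨Sum.inl (t' : Fin n), Finset.mem_toLeft.1 t'.2⟩) (by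
      intro h
      rw [Set.mem_singleton_iff] at h
      have h3 := Sum.inl_injective (congrArg Subtype.val h)
      exact hne (Subtype.ext h3.symm))
    apply h2
    rw [Set.image_singleton]
    set y : K := z (Sum.inl (t : Fin n)) with hy
    have hmem : y ∈ Algebra.adjoin ℂ {y} := Algebra.subset_adjoin rfl
    let ψ : Polynomial ℂ →ₐ[ℂ] Algebra.adjoin ℂ {y} := Polynomial.aeval ⟨y, hmem⟩
    have hcomp : ((Algebra.adjoin ℂ {y}).val.comp ψ) =
        (Polynomial.aeval y : Polynomial ℂ →ₐ[ℂ] K) := by
      apply Polynomial.algHom_ext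
      simp [ψ]
    have hint : IsIntegral (Algebra.adjoin ℂ {y}) (z (Sum.inl (t' : Fin n))) := by
      refine ⟨(Psi (N t t')).map ψ.toRingHom, (Psi_spec (hN t t')).1.map _, ?_⟩
      rw [Polynomial.eval₂_map, ← h1]
      congr 1
      exact congrArg AlgHom.toRingHom hcomp
    exact hint.isAlgebraic
  -- the torus part of `T`
  set zt : Fin k → K := fun i => z (Sum.inr i) with hzt
  have hTind : AlgebraicIndependent ℂ (fun j : T.toRight => zt j) := by
    have h1 := hT.comp (fun j : T.toRight =>
      (⟨Sum.inr (j : Fin k), Finset.mem_toRight.1 j.2⟩ : T)) (by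
        intro j j' h
        have h3 := Sum.inr_injective (congrArg Subtype.val h)
        exact Subtype.ext h3)
    exact h1
  set Λ' : Submodule ℤ (Fin k → ℤ) := Λ ⊔ Submodule.span ℤ
    ((fun j : Fin k => (Pi.single j (1 : ℤ) : Fin k → ℤ)) '' (T.toRight : Set (Fin k))) with hΛ'
  have hrank : Module.finrank ℤ Λ + T.toRight.card ≤ Module.finrank ℤ Λ' := by
    refine finrank_add_card' zt hz0 T.toRight hTind Λ (fun a ha => ⟨_, hΛ a ha⟩) Λ' le_sup_left ?_
    intro j hj
    exact Submodule.mem_sup_right (Submodule.subset_span ⟨j, hj, rfl⟩)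
  have hTcard : T.toLeft.card + T.toRight.card = T.card := Finset.card_toLeft_add_card_toRight
  by_contra hcon
  push Not at hcon
  -- the free classes
  let Cc : Finset (Fin r) := Finset.univ.filter fun l => l ∉ Finset.univ.image κ
  have hCc : Cc.card + T.toLeft.card = r := by
    have h2 : (Finset.univ.filter fun l : Fin r => l ∈ Finset.univ.image κ).card =
        T.toLeft.card := by
      have h3 : (Finset.univ.filter fun l : Fin r => l ∈ Finset.univ.image κ) =
          Finset.univ.image κ := by
        ext l; simp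
      rw [h3, Finset.card_image_of_injective _ hκinj, Finset.card_univ, Fintype.card_coe]
    have h5 : (Finset.univ.filter fun l : Fin r => l ∈ Finset.univ.image κ).card + Cc.card =
        (Finset.univ : Finset (Fin r)).card :=
      Finset.card_filter_add_card_filter_not (s := (Finset.univ : Finset (Fin r)))
        (fun l => l ∈ Finset.univ.image κ)
    rw [Finset.card_univ, Fintype.card_fin, h2] at h5
    omega
  let lam0 : Fin n → Option (Finset (Fin n)) := fun i =>
    match cls i with
    | none => none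
    | some l => if l ∈ Cc then some (Finset.univ.filter fun i' => cls i' = some l) else none
  have hlam0 : ∀ i Y, lam0 i = some Y → ∃ l ∈ Cc, cls i = some l ∧
      Y = Finset.univ.filter fun i' => cls i' = some l := by
    intro i Y h
    cases hc : cls i with
    | none => simp [lam0, hc] at h
    | some l =>
      simp only [lam0, hc] at h
      split_ifs at h with h1
      exact ⟨l, h1, rfl, (Option.some_injective _ h).symm⟩
  -- the valuation rings
  have hB : ∀ t : Fin L, ∃ B : ValuationSubring K,
      (∀ c : ℂ, (O (eI (lam0, t))).valuation c ≤ 1 → B.valuation (algebraMap ℂ K c) ≤ 1) ∧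
      (∀ c : ℂ, (O (eI (lam0, t))).valuation c < 1 → B.valuation (algebraMap ℂ K c) < 1) ∧
      ∀ j : T, B.valuation (z j) = 1 := fun t => exists_above_unit _ (fun j : T => z j) hT
  choose B hB1 hB2 hB3 using hB
  -- the break points
  let brk : Fin L → Finset (Fin k) := fun t => Finset.univ.filter fun i =>
    (B t).valuation ((((p (eI (lam0, t)) : ℕ) : K)) ^ ω t i * zt i ^ D (Sum.inr i)) = 1
  have hpB : ∀ t, (B t).valuation ((p (eI (lam0, t)) : ℕ) : K) < 1 := by
    intro t
    have := hB2 t _ (hpO (eI (lam0, t))).2.2.1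
    rwa [map_natCast] at this
  have hpB0 : ∀ t, 0 < (B t).valuation ((p (eI (lam0, t)) : ℕ) : K) := by
    intro t
    rw [zero_lt_iff, Valuation.ne_zero_iff]
    exact_mod_cast (hpO (eI (lam0, t))).1.ne_zero
  have hω0 : ∀ t i, 0 < ω t i := fun t i => he0 t _
  obtain ⟨t, ht⟩ := exists_good (D := fun i => D (Sum.inr i)) (V := (B ⟨0, by omega⟩).ValueGroup)
    (L := L) (by omega) ω hevan Λ' brk (by
      intro t a ha haY
      set w := (B t).valuation ((p (eI (lam0, t)) : ℕ) : K) with hw
      have hv0 : ∀ i, (B t).valuation (zt i) ≠ 0 := fun i => (Valuation.ne_zero_iff _).2 (hz0 i)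
      have hΓu : ∀ γ ∈ Γ, γ ≠ 0 → (O (eI (lam0, t))).valuation γ = 1 := fun γ hγ h0 =>
        hunit _ γ (Finset.mem_union_right _ hγ) h0
      have hle : Λ' ≤ oneLat (fun i => (B t).valuation (zt i)) hv0 := by
        refine sup_le ?_ (Submodule.span_le.2 ?_)
        · intro b hb
          change chi (fun i => (B t).valuation (zt i)) b = 1
          have h1 : chi (fun i => (B t).valuation (zt i)) b = (B t).valuation (chi zt b) := by
            simp [chi]
          rw [h1, hΛ b hb]
          have h2 : ∀ i, (B t).valuation (algebraMap ℂ K (η i)) = 1 := by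
            intro i
            have h3 := (hη i).val (O (eI (lam0, t))) hΓu
            have h4 := (hη i).ne_zero
            refine le_antisymm (hB1 t _ h3.le) ?_
            have h5 := hB1 t (η i)⁻¹ (by rw [map_inv₀, h3, inv_one])
            have h6 : (B t).valuation (algebraMap ℂ K (η i)) *
                (B t).valuation (algebraMap ℂ K (η i)⁻¹) = 1 := by
              rw [← map_mul, ← map_mul, mul_inv_cancel₀ h4, map_one, map_one]
            calc (1 : (B t).ValueGroup) = _ := h6.symm
              _ ≤ (B t).valuation (algebraMap ℂ K (η i)) * 1 := by gcongr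
              _ = _ := mul_one _
          simp only [chi, map_prod, map_zpow₀, h2, one_zpow, Finset.prod_const_one]
        · rintro _ ⟨j, hj, rfl⟩
          change chi (fun i => (B t).valuation (zt i)) (Pi.single j (1 : ℤ)) = 1
          rw [chi_single]
          exact hB3 t ⟨Sum.inr j, Finset.mem_toRight.1 hj⟩
      have h1 : chi (fun i => (B t).valuation (zt i)) a = 1 := hle ha
      set Δ : ℕ := ∏ j ∈ brk t, D (Sum.inr j) with hΔ
      have hw0 : w ≠ 0 := (hpB0 t).ne'
      have h3 : ∀ i, ((B t).valuation (zt i) ^ a i) ^ Δ =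
          w ^ (-((a i * ∏ j ∈ (brk t).erase i, ((D (Sum.inr j) : ℕ) : ℤ)) * (ω t i : ℤ))) := by
        intro i
        by_cases hi : i ∈ brk t
        · have h4 := (Finset.mem_filter.1 hi).2
          rw [map_mul, map_pow, map_pow, ← hw] at h4
          have h5 : (B t).valuation (zt i) ^ (D (Sum.inr i)) = w ^ (-(ω t i : ℤ)) := by
            rw [zpow_neg, zpow_natCast]
            exact eq_inv_of_mul_eq_one_right h4
          have h6 : Δ = D (Sum.inr i) * ∏ j ∈ (brk t).erase i, D (Sum.inr j) := by
            rw [hΔ, Finset.mul_prod_erase (brk t) (fun j => D (Sum.inr j)) hi]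
          rw [h6, ← zpow_natCast, ← zpow_mul]
          have h7 : a i * ((D (Sum.inr i) * ∏ j ∈ (brk t).erase i, D (Sum.inr j) : ℕ) : ℤ) =
              (D (Sum.inr i) : ℤ) * (a i * ∏ j ∈ (brk t).erase i, ((D (Sum.inr j) : ℕ) : ℤ)) := by
            push_cast
            ring
          rw [h7, zpow_mul, zpow_natCast, h5, ← zpow_mul]
          congr 1
          ring
        · rw [haY i hi]
          simp
      have h4 : chi (fun i => (B t).valuation (zt i)) a ^ Δ =
          w ^ (-∑ i, (a i * ∏ j ∈ (brk t).erase i, ((D (Sum.inr j) : ℕ) : ℤ)) * (ω t i : ℤ)) := by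
        rw [chi, ← Finset.prod_pow, Finset.prod_congr rfl fun i _ => h3 i,
          ← Finset.sum_neg_distrib]
        have h5 : ∀ S : Finset (Fin k), ∏ i ∈ S, w ^ (-((a i * ∏ j ∈ (brk t).erase i,
            ((D (Sum.inr j) : ℕ) : ℤ)) * (ω t i : ℤ))) =
            w ^ (∑ i ∈ S, -((a i * ∏ j ∈ (brk t).erase i,
              ((D (Sum.inr j) : ℕ) : ℤ)) * (ω t i : ℤ))) := by
          intro S
          induction S using Finset.induction_on with
          | empty => simp
          | insert j S hj ih =>
            rw [Finset.prod_insert hj, Finset.sum_insert hj, zpow_add₀ hw0, ih]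
        exact h5 _
      rw [h1, one_pow] at h4
      have h5 := zpow_eq_one (B t) w (hpB0 t) (hpB t) h4.symm
      exact neg_eq_zero.1 h5) (by
      intro t i hi
      have h4 := (Finset.mem_filter.1 hi).2
      by_contra hD0
      have hD0' : D (Sum.inr i) = 0 := by
        change ¬ 0 < D (Sum.inr i) at hD0
        omega
      rw [hD0', pow_zero, mul_one, map_pow] at h4
      exact (pow_lt_one₀ zero_le (hpB t) (hω0 t i).ne').ne h4)
  -- the contradiction at the prime `t`
  set i₀ : Fin M := eI (lam0, t) with hi₀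
  have hsymm : eI.symm i₀ = (lam0, t) := eI.symm_apply_apply _
  set v := (B t).valuation with hv
  have hΓv : ∀ γ ∈ Γ, γ ≠ 0 → (O i₀).valuation γ = 1 := fun γ hγ h0 =>
    hunit i₀ γ (Finset.mem_union_right _ hγ) h0
  have hnone : ∀ i, lam0 i = none → v (z (Sum.inl i)) ≤ 1 := by
    intro i hi
    cases hc : cls i with
    | none =>
      obtain ⟨c, hc1, hc2⟩ := hconst i hc
      rw [hc2]
      exact hB1 t c (val_le_one_of_adjoin (O i₀) hΓv hc1)
    | some l =>
      simp only [lam0, hc] at hi
      split_ifs at hi with hmem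
      simp only [Cc, Finset.mem_filter, Finset.mem_univ, true_and, not_not,
        Finset.mem_image] at hmem
      obtain ⟨t', ht'⟩ := hmem
      have h2 := hrel t' i l (ht' ▸ hκ t') hc
      exact (((Psi_spec (hN t' i)).2.2 K (B t) _ _ h2).1)
        (hB3 t ⟨Sum.inl (t' : Fin n), Finset.mem_toLeft.1 t'.2⟩).le
  have hcl : ∀ i i' Y, lam0 i = some Y → lam0 i' = some Y → v (z (Sum.inl i)) ≤ 1 →
      v (z (Sum.inl i')) ≤ 1 := by
    intro i i' Y hi hi' hxi
    obtain ⟨l, hl1, hl2, hl3⟩ := hlam0 i Y hi
    obtain ⟨l', hl1', hl2', hl3'⟩ := hlam0 i' Y hi'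
    have h1 : i ∈ Finset.univ.filter fun i' => cls i' = some l' := by
      rw [← hl3', hl3]
      exact Finset.mem_filter.2 ⟨Finset.mem_univ _, hl2⟩
    have h2 := (Finset.mem_filter.1 h1).2
    have h5 := hrel i i' l' h2 hl2'
    exact (((Psi_spec (hN i i')).2.2 K (B t) _ _ h5).1) hxi
  set W := wtOf (k := k) lam0 (p i₀) (ω t) with hW
  set w := v ((p i₀ : ℕ) : K) with hw
  let ρ : Finset (Fin n) ⊕ Fin k → (B t).ValueGroup := Sum.elim (fun _ => 1) (fun i => w ^ ω t i)
  -- the products over the labels
  have hprodl : ∀ (g : Fin n ⊕ Fin k → (B t).ValueGroup) (l : Finset (Fin n)),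
      (∏ i, if labOf (k := k) lam0 i = some (Sum.inl l) then g i else 1) =
        ∏ i, if lam0 i = some l then g (Sum.inl i) else 1 := by
    intro g l
    rw [Fintype.prod_sum_type]
    have h1 : (∏ i : Fin k, if labOf (k := k) lam0 (Sum.inr i) = some (Sum.inl l) then
        g (Sum.inr i) else 1) = 1 := by
      refine Finset.prod_eq_one fun i _ => ?_
      rw [if_neg]
      simp [labOf]
    rw [h1, mul_one]
    refine Finset.prod_congr rfl fun i _ => ?_
    congr 1
    simp [labOf]
  have hprodr : ∀ (R : Type) [CommMonoid R] (g : Fin n ⊕ Fin k → R) (l : Fin k),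
      (∏ i, if labOf (k := k) lam0 i = some (Sum.inr l) then g i else 1) = g (Sum.inr l) := by
    intro R _ g l
    rw [Fintype.prod_sum_type]
    have h1 : (∏ i : Fin n, if labOf (k := k) lam0 (Sum.inl i) = some (Sum.inr l) then
        g (Sum.inl i) else 1) = 1 := by
      refine Finset.prod_eq_one fun i _ => ?_
      rw [if_neg]
      simp [labOf]
    rw [h1, one_mul, Finset.prod_eq_single l]
    · simp [labOf]
    · intro b _ hb
      rw [if_neg]
      simp [labOf, hb]
    · intro h; exact absurd (Finset.mem_univ _) h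
  have hprodl' : ∀ (l : Finset (Fin n)),
      v (∏ i, if labOf (k := k) lam0 i = some (Sum.inl l) then z i ^ D i else 1) =
        ∏ i, if lam0 i = some l then v (z (Sum.inl i)) ^ D (Sum.inl i) else 1 := by
    intro l
    rw [map_prod, ← hprodl (fun i => v (z i) ^ D i) l]
    refine Finset.prod_congr rfl fun i _ => ?_
    split_ifs
    · rw [map_pow]
    · rw [map_one]
  have hyr : ∀ l : Fin k, ((W (Sum.inr l) : ℤ) : K) *
      (∏ i, if labOf (k := k) lam0 i = some (Sum.inr l) then z i ^ D i else 1) =
      ((p i₀ : ℕ) : K) ^ ω t l * zt l ^ D (Sum.inr l) := by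
    intro l
    rw [hprodr K (fun i => z i ^ D i) l]
    simp [hW, wtOf, hzt]
  refine lc_absurd D (O i₀) (B t) (hB1 t) (hB2 t) (p i₀) (hpO i₀).1
    (lt_of_le_of_lt (Nat.le_add_left _ _) (hpO i₀).2.1) (hpO i₀).2.2.1 f α ?_ ?_
    (labOf lam0) W ((p i₀ : ℤ) ^ ((∑ i, ω t i) + 1)) c ?_ z ?_
    (fun J hJ => hz J (f J) (hcor J hJ).1) ?_ ρ ?_ ?_
  · intro J _ l
    by_cases h0 : (f J).coeff l = 0
    · rw [h0, map_zero]; exact zero_le_one
    · refine (hunit i₀ _ ?_ h0).le
      refine Finset.mem_union_left _ (Finset.mem_union_left _ ?_)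
      exact Finset.mem_biUnion.2 ⟨J, Finset.mem_univ _, Finset.mem_image_of_mem _
        (mem_support_iff.2 h0)⟩
  · intro J hJ
    have h1 := (hcor J hJ).2 (fun _ => true)
    refine hunit i₀ _ ?_ (by simpa using h1)
    refine Finset.mem_union_left _ (Finset.mem_union_right _ ?_)
    exact Finset.mem_image_of_mem
      (fun J : Finset (Fin m) => eval (fun j : J => ((α j : ℤ) : ℂ)) (f J)) (Finset.mem_univ J)
  · intro j e'
    constructor
    · have h1 := hcong i₀ (j, 0, e')
      simp only [if_true] at h1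
      rw [hsymm] at h1
      exact h1
    · have h1 := hcong i₀ (j, 1, e')
      simp only [one_ne_zero, if_false] at h1
      rw [hsymm] at h1
      exact h1
  · -- the number of the break points
    have hcount : Nat.card {l : Finset (Fin n) ⊕ Fin k // v (((W l : ℤ) : K) *
        ∏ i, if labOf (k := k) lam0 i = some l then z i ^ D i else 1) = 1} ≤
        Cc.card + (brk t).card := by
      let U : Finset (Finset (Fin n) ⊕ Fin k) :=
        (Cc.image fun l => (Sum.inl (Finset.univ.filter fun i' => cls i' = some l) :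
          Finset (Fin n) ⊕ Fin k)) ∪ (brk t).image Sum.inr
      have hU : U.card ≤ Cc.card + (brk t).card :=
        (Finset.card_union_le _ _).trans
          (add_le_add Finset.card_image_le Finset.card_image_le)
      refine le_trans ?_ hU
      rw [Nat.card_eq_fintype_card, Fintype.card_subtype]
      refine Finset.card_le_card ?_
      intro l hl
      have hl1 := (Finset.mem_filter.1 hl).2
      rcases l with l | l
      · refine Finset.mem_union_left _ ?_
        have hused : ∃ i, lam0 i = some l := by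
          by_contra hno
          have : W (Sum.inl l) = 0 := by simp only [hW, wtOf, Sum.elim_inl]; rw [if_neg hno]
          rw [this] at hl1
          simp at hl1
        obtain ⟨i, hi⟩ := hused
        obtain ⟨l', h1, -, h3⟩ := hlam0 i l hi
        rw [h3]
        exact Finset.mem_image_of_mem _ h1
      · refine Finset.mem_union_right _ ?_
        refine Finset.mem_image_of_mem _ (Finset.mem_filter.2 ⟨Finset.mem_univ _, ?_⟩)
        rw [hyr] at hl1
        exact hl1
    refine (Nat.add_le_add_right hcount _).trans ?_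
    omega
  · intro i hi
    rcases i with i | i
    · refine hnone i ?_
      simpa [labOf] using hi
    · simp [labOf] at hi
  · rintro (l | l)
    · rw [hprodl (fun i => max 1 (v (z i)) ^ D i) l]
      simp only [ρ, Sum.elim_inl, one_mul]
      by_cases hused : ∃ i, lam0 i = some l
      · have hWl : W (Sum.inl l) = 1 := by simp only [hW, wtOf, Sum.elim_inl]; rw [if_pos hused]
        rw [hWl, Int.cast_one, one_mul, hprodl']
        by_cases hint : ∃ i, lam0 i = some l ∧ v (z (Sum.inl i)) ≤ 1
        · obtain ⟨i₁, hi₁, hi₁'⟩ := hint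
          rw [Finset.prod_eq_one]
          · exact le_max_left _ _
          · intro i _
            split_ifs with h
            · rw [max_eq_left (hcl i₁ i l hi₁ h hi₁'), one_pow]
            · rfl
        · push Not at hint
          refine le_trans (le_of_eq ?_) (le_max_right _ _)
          refine Finset.prod_congr rfl fun i _ => ?_
          split_ifs with h
          · rw [max_eq_right (hint i h).le]
          · rfl
      · rw [Finset.prod_eq_one]
        · exact le_max_left _ _
        · intro i _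
          rw [if_neg]
          intro h
          exact hused ⟨i, h⟩
    · rw [hprodr (B t).ValueGroup (fun i => max 1 (v (z i)) ^ D i) l, hyr, map_mul, map_pow,
        map_pow]
      simp only [ρ, Sum.elim_inr]
      rcases le_total (v (z (Sum.inr l))) 1 with h | h
      · rw [max_eq_left h, one_pow, mul_one]
        exact (pow_le_one' (hpB t).le _).trans (le_max_left _ _)
      · rw [max_eq_right h]
        exact le_max_right _ _
  · push_cast
    rw [map_pow, pow_succ, mul_comm, Fintype.prod_sum_type]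
    simp only [ρ, Sum.elim_inl, Sum.elim_inr, Finset.prod_const_one, one_mul]
    rw [Finset.prod_pow_eq_pow_sum]

end Pool.Agent.W282.ZP.RM
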