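import Pool.Agent.W282.ZP.Geo

/-!
# Pull-backs under random rational maps in all variables
-/

set_option autoImplicit false

namespace Pool.Agent.W282.ZP

open H294ZP UpperHalfPlane MvPolynomial

/-- exponent vectors of multidegree at most `D` -/
abbrev Expo {n : ℕ} (D : Fin n → ℕ) : Type := (i : Fin n) → Fin (D i + 1)

/-- the value of the polynomial with coefficients `F` -/
def mev {R : Type*} [CommRing R] {n : ℕ} {D : Fin n → ℕ} (F : Expo D → ℤ) (x : Fin n → R) : R :=
  ∑ e : Expo D, (F e : R) * ∏ i, x i ^ (e i : ℕ)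

theorem map_mev {R S : Type*} [CommRing R] [CommRing S] (φ : R →+* S) {n : ℕ} {D : Fin n → ℕ}
    (F : Expo D → ℤ) (x : Fin n → R) : φ (mev F x) = mev F (fun i => φ (x i)) := by
  simp [mev, map_sum, map_prod]

/-- The polynomial `∑ coeff_k ∏ N_j^(k_j) M_j^(deg - k_j)`. -/
noncomputable def gpull {ι κ : Type} (Nm Mm : κ → MvPolynomial ι ℂ) {J : Finset κ}
    (f : MvPolynomial J ℂ) : MvPolynomial ι ℂ :=
  ∑ k ∈ f.support, C (f.coeff k) * ∏ j : J, (Nm j ^ (k j) * Mm j ^ (f.totalDegree - k j))

theorem aeval_gpull {K : Type*} [Field K] [Algebra ℂ K] {ι κ : Type}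
    (Nm Mm : κ → MvPolynomial ι ℂ) {J : Finset κ} (f : MvPolynomial J ℂ) (z : ι → K)
    (ht : ∀ j ∈ J, aeval z (Mm j) ≠ 0) :
    aeval z (gpull Nm Mm f) = (∏ j : J, aeval z (Mm j)) ^ f.totalDegree *
      aeval (fun j : J => aeval z (Nm j) / aeval z (Mm j)) f := by
  classical
  rw [gpull, map_sum, aeval_def, eval₂_eq', Finset.mul_sum]
  refine Finset.sum_congr rfl fun k hk => ?_
  rw [map_mul, map_prod, aeval_C]
  simp only [map_mul, map_pow]
  rw [← Finset.prod_pow, mul_left_comm]
  congr 1
  rw [← Finset.prod_mul_distrib]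
  refine Finset.prod_congr rfl fun i _ => ?_
  have hk' : k i ≤ f.totalDegree := by
    refine le_trans ?_ (le_totalDegree hk)
    rw [Finsupp.sum_fintype _ _ (fun _ => rfl)]
    exact Finset.single_le_sum (f := fun i => k i) (fun _ _ => Nat.zero_le _) (Finset.mem_univ i)
  have hti := ht i i.2
  rw [div_pow, ← mul_div_assoc, eq_div_iff (pow_ne_zero _ hti), mul_assoc, ← pow_add,
    Nat.sub_add_cancel hk', mul_comm]

/-- The exponent vector attached to a labelling and a set of labels. -/
def lexpo {n k : ℕ} (D : Fin n → ℕ) (lam : Fin n → Option (Fin k)) (S : Finset (Fin k)) :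
    Expo D :=
  fun i => match lam i with
    | none => 0
    | some l => if l ∈ S then Fin.last (D i) else 0

/-- The coefficients of `∏_l (1 + c y_l)`, where `y_l` is the product of the `x_i ^ (D i)` over the
coordinates `i` with label `l`. -/
def lcoef {n k : ℕ} (D : Fin n → ℕ) (lam : Fin n → Option (Fin k)) (c : ℤ) (e : Expo D) : ℤ :=
  ∑ S : Finset (Fin k), if lexpo D lam S = e then c ^ S.card else 0

theorem mev_lcoef {K : Type*} [Field K] {n k : ℕ} (D : Fin n → ℕ)
    (lam : Fin n → Option (Fin k)) (c : ℤ) (x : Fin n → K) :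
    mev (lcoef D lam c) x = ∏ l : Fin k, (1 + (c : K) *
      ∏ i, if lam i = some l then x i ^ D i else 1) := by
  classical
  have h1 : ∏ l : Fin k, (1 + (c : K) * ∏ i, if lam i = some l then x i ^ D i else 1) =
      ∑ S : Finset (Fin k), (c : K) ^ S.card * ∏ i, x i ^ ((lexpo D lam S i : ℕ)) := by
    rw [Finset.prod_congr rfl fun l _ => add_comm (1 : K) _, Finset.prod_add, Finset.powerset_univ]
    refine Finset.sum_congr rfl fun S _ => ?_
    rw [Finset.prod_const_one, mul_one, Finset.prod_mul_distrib, Finset.prod_const,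
      Finset.prod_comm]
    congr 1
    refine Finset.prod_congr rfl fun i _ => ?_
    unfold lexpo
    cases hl : lam i with
    | none => simp
    | some l =>
      by_cases hlS : l ∈ S
      · rw [Finset.prod_eq_single l]
        · simp [hlS]
        · intro b _ hb
          rw [if_neg]
          intro h
          exact hb (Option.some_injective _ h).symm
        · intro h; exact absurd hlS h
      · rw [Finset.prod_eq_one]
        · simp [hlS]
        · intro b hb
          rw [if_neg]
          intro h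
          have := Option.some_injective _ h
          subst this
          exact hlS hb
  rw [h1, mev]
  simp only [lcoef]
  push_cast
  simp only [Finset.sum_mul]
  rw [Finset.sum_comm]
  refine Finset.sum_congr rfl fun S _ => ?_
  rw [Finset.sum_eq_single (lexpo D lam S)]
  · simp
  · intro e _ he
    rw [if_neg (fun h => he h.symm)]
    simp
  · intro h; exact absurd (Finset.mem_univ _) h

/-- All monomials are dominated. -/
theorem val_mev_le {K : Type*} [Field K] (B : ValuationSubring K) {n k : ℕ} (D : Fin n → ℕ)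
    (lam : Fin n → Option (Fin k)) (x : Fin n → K)
    (hnone : ∀ i, lam i = none → B.valuation (x i) ≤ 1)
    (hcl : ∀ i i' l, lam i = some l → lam i' = some l → B.valuation (x i) ≤ 1 →
      B.valuation (x i') ≤ 1) (F : Expo D → ℤ) (w : B.ValueGroup)
    (hF : ∀ e, B.valuation ((F e : ℤ) : K) ≤ w) :
    B.valuation (mev F x) ≤ w *
      ∏ l : Fin k, max 1 (B.valuation (∏ i, if lam i = some l then x i ^ D i else 1)) := by
  classical
  set v := B.valuation with hv
  refine v.map_sum_le fun e _ => ?_
  rw [map_mul]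
  refine mul_le_mul' (hF e) ?_
  rw [map_prod]
  -- split the monomial according to the labels
  have h1 : ∏ i, v (x i ^ (e i : ℕ)) ≤ ∏ i, max 1 (v (x i)) ^ (D i) := by
    refine Finset.prod_le_prod' fun i _ => ?_
    rw [map_pow]
    calc v (x i) ^ (e i : ℕ) ≤ max 1 (v (x i)) ^ (e i : ℕ) := by gcongr; exact le_max_right _ _
      _ ≤ max 1 (v (x i)) ^ D i :=
        pow_le_pow_right₀ (le_max_left _ _) (Nat.lt_succ_iff.1 (e i).2)
  refine h1.trans ?_
  have h2 : ∀ i, max 1 (v (x i)) ^ (D i) = ∏ l : Fin k,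
      if lam i = some l then max 1 (v (x i)) ^ (D i) else 1 := by
    intro i
    cases hl : lam i with
    | none =>
      have : max 1 (v (x i)) = 1 := max_eq_left (hnone i hl)
      simp [this]
    | some l =>
      rw [Finset.prod_eq_single l]
      · simp
      · intro b _ hb
        rw [if_neg]
        intro h
        exact hb (Option.some_injective _ h).symm
      · intro h; exact absurd (Finset.mem_univ _) h
  rw [Finset.prod_congr rfl fun i _ => h2 i, Finset.prod_comm]
  refine Finset.prod_le_prod' fun l _ => ?_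
  by_cases hint : ∃ i, lam i = some l ∧ v (x i) ≤ 1
  · obtain ⟨i₀, hi₀, hi₀'⟩ := hint
    rw [Finset.prod_eq_one]
    · exact le_max_left _ _
    · intro i _
      split_ifs with h
      · rw [max_eq_left (hcl i₀ i l hi₀ h hi₀'), one_pow]
      · rfl
  · push Not at hint
    refine le_trans (le_of_eq ?_) (le_max_right _ _)
    rw [map_prod]
    refine Finset.prod_congr rfl fun i _ => ?_
    split_ifs with h
    · rw [max_eq_right (hint i h).le, map_pow]
    · rw [map_one]

/-- the `l`-th factor is large for all but one `c` -/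
theorem factor_large {K : Type*} [Field K] (B : ValuationSubring K) (y : K) (c c' : ℤ)
    (hc : B.valuation ((c : ℤ) : K) = 1) (hc' : B.valuation ((c' : ℤ) : K) = 1)
    (hcc : B.valuation (((c - c' : ℤ)) : K) = 1)
    (h : B.valuation (1 + (c : K) * y) ≠ max 1 (B.valuation y))
    (h' : B.valuation (1 + (c' : K) * y) ≠ max 1 (B.valuation y)) : False := by
  set v := B.valuation with hv
  have hy1 : v y ≤ 1 := by
    by_contra hcon
    push Not at hcon
    apply h
    rw [max_eq_right hcon.le, add_comm, Valuation.map_add_eq_of_lt_left]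
    · rw [map_mul, hc, one_mul]
    · rw [map_mul, hc, one_mul, map_one]; exact hcon
  rw [max_eq_left hy1] at h h'
  have hle : ∀ a : ℤ, v ((a : ℤ) : K) = 1 → v (1 + (a : K) * y) ≤ 1 := by
    intro a ha
    refine (Valuation.map_add _ _ _).trans (max_le (by rw [map_one]) ?_)
    rw [map_mul, ha, one_mul]; exact hy1
  have h1 : v (1 + (c : K) * y) < 1 := lt_of_le_of_ne (hle c hc) h
  have h2 : v (1 + (c' : K) * y) < 1 := lt_of_le_of_ne (hle c' hc') h'
  have h3 : v y < 1 := by
    have h4 : v (((c - c' : ℤ) : K) * y) < 1 := by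
      have h5 : ((c - c' : ℤ) : K) * y = (1 + (c : K) * y) - (1 + (c' : K) * y) := by
        push_cast; ring
      rw [h5]
      exact lt_of_le_of_lt (Valuation.map_sub _ _ _) (max_lt h1 h2)
    rwa [map_mul, hcc, one_mul] at h4
  have h4 : v (1 + (c : K) * y) = 1 := by
    rw [Valuation.map_add_eq_of_lt_left, map_one]
    rw [map_one, map_mul, hc, one_mul]
    exact h3
  exact h h4

/-- At most `k` of the polynomials `∏_l (1 + c_j y_l)` are not of maximal size. -/
theorem card_small {K : Type*} [Field K] (B : ValuationSubring K) {n k m : ℕ} (D : Fin n → ℕ)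
    (lam : Fin n → Option (Fin k)) (x : Fin n → K) (c : Fin m → ℤ)
    (hc : ∀ j, B.valuation ((c j : ℤ) : K) = 1)
    (hcc : ∀ j j', j ≠ j' → B.valuation (((c j - c j' : ℤ)) : K) = 1) (S : Finset (Fin m))
    (hS : ∀ j ∈ S, B.valuation (mev (lcoef D lam (c j)) x) ≠
      ∏ l : Fin k, max 1 (B.valuation (∏ i, if lam i = some l then x i ^ D i else 1))) :
    S.card ≤ k := by
  classical
  have h1 : ∀ j : S, ∃ l : Fin k, B.valuation (1 + (c j : K) *
      ∏ i, if lam i = some l then x i ^ D i else 1) ≠
        max 1 (B.valuation (∏ i, if lam i = some l then x i ^ D i else 1)) := by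
    intro j
    by_contra hcon
    push Not at hcon
    apply hS j j.2
    rw [mev_lcoef, map_prod]
    exact Finset.prod_congr rfl fun l _ => hcon l
  choose l hl using h1
  have hinj : Function.Injective l := by
    intro j j' hjj
    by_contra hne
    have h2 := hl j'
    rw [← hjj] at h2
    exact factor_large B _ (c j) (c j') (hc j) (hc j') (hcc j j' fun h => hne (Subtype.ext h))
      (hl j) h2
  have := Fintype.card_le_of_injective l hinj
  simpa using this

theorem val_int_unit {K : Type*} [Field K] (B : ValuationSubring K) {p : ℕ} (hp : p.Prime)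
    (hpB : B.valuation ((p : ℕ) : K) < 1) {a : ℤ} (ha : ¬ ((p : ℕ) : ℤ) ∣ a) :
    B.valuation ((a : ℤ) : K) = 1 := by
  have hint : ∀ b : ℤ, B.valuation ((b : ℤ) : K) ≤ 1 := fun b =>
    (B.valuation_le_one_iff _).2 (intCast_mem B b)
  have hcop : IsCoprime ((p : ℕ) : ℤ) a := by
    rw [Int.isCoprime_iff_gcd_eq_one]
    have h1 : Nat.Coprime p a.natAbs := by
      rw [hp.coprime_iff_not_dvd]
      intro h
      exact ha (Int.natCast_dvd.2 h)
    simpa [Int.gcd] using h1
  obtain ⟨u, w, h⟩ := hcop
  refine le_antisymm (hint a) ?_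
  by_contra hcon
  push Not at hcon
  have h1 : B.valuation ((u * p + w * a : ℤ) : K) < 1 := by
    push_cast
    refine lt_of_le_of_lt (Valuation.map_add _ _ _) (max_lt ?_ ?_)
    · rw [map_mul]
      calc B.valuation (u : K) * B.valuation (p : K) ≤ 1 * B.valuation (p : K) := by
            gcongr; exact hint u
        _ < 1 := by rw [one_mul]; exact hpB
    · rw [map_mul]
      calc B.valuation (w : K) * B.valuation (a : K) ≤ 1 * B.valuation (a : K) := by
            gcongr; exact hint w
        _ < 1 := by rw [one_mul]; exact hcon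
  rw [h, Int.cast_one, map_one] at h1
  exact lt_irrefl _ h1

theorem mev_sub {R : Type*} [CommRing R] {n : ℕ} {D : Fin n → ℕ} (F G : Expo D → ℤ) (a : ℤ)
    (x : Fin n → R) : mev (fun e => F e - a * G e) x = mev F x - (a : R) * mev G x := by
  rw [mev, mev, mev, Finset.mul_sum, ← Finset.sum_sub_distrib]
  refine Finset.sum_congr rfl fun e _ => ?_
  push_cast
  ring

/-- The congruence conditions at the prime `p`. -/
def LCong {n k m : ℕ} (D : Fin n → ℕ) (p : ℕ) (lam : Fin n → Option (Fin k)) (α : Fin m → ℤ)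
    (c : Fin m × Fin 2 × Expo D → ℤ) : Prop :=
  ∀ (j : Fin m) (e : Expo D),
    (p : ℤ) ∣ c (j, 0, e) - α j * lcoef D lam ((j : ℕ) + 1) e ∧
    (p : ℤ) ∣ c (j, 1, e) - lcoef D lam ((j : ℕ) + 1) e

/-- One prime: contradiction. -/
theorem lcong_absurd {n k m d : ℕ} (D : Fin n → ℕ) {K : Type} [Field K] [Algebra ℂ K]
    (O : ValuationSubring ℂ) (B : ValuationSubring K)
    (hOB : ∀ c : ℂ, O.valuation c ≤ 1 → B.valuation (algebraMap ℂ K c) ≤ 1)
    (hOB' : ∀ c : ℂ, O.valuation c < 1 → B.valuation (algebraMap ℂ K c) < 1)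
    (p : ℕ) (hp : p.Prime) (hpm : m < p) (hpO : O.valuation ((p : ℕ) : ℂ) < 1)
    (f : ∀ J : Finset (Fin m), MvPolynomial J ℂ) (α : Fin m → ℤ)
    (hf : ∀ J : Finset (Fin m), J.card = d + 1 → ∀ l, O.valuation ((f J).coeff l) ≤ 1)
    (hcor : ∀ J : Finset (Fin m), J.card = d + 1 → O.valuation
      (eval (fun j : J => ((α j : ℤ) : ℂ)) (f J)) = 1)
    (hk : k + (d + 1) ≤ m) (lam : Fin n → Option (Fin k)) (c : Fin m × Fin 2 × Expo D → ℤ)
    (hc : LCong D p lam α c) (z : Fin n → K)
    (hz : ∀ J : Finset (Fin m), J.card = d + 1 → aeval z (gpull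
      (fun j => mev (fun e => c (j, 0, e)) (X : Fin n → MvPolynomial (Fin n) ℂ))
      (fun j => mev (fun e => c (j, 1, e)) (X : Fin n → MvPolynomial (Fin n) ℂ)) (f J)) = 0)
    (hnone : ∀ i, lam i = none → B.valuation (z i) ≤ 1)
    (hcl : ∀ i i' l, lam i = some l → lam i' = some l → B.valuation (z i) ≤ 1 →
      B.valuation (z i') ≤ 1) : False := by
  classical
  have hchar : CharZero K := charZero_of_injective_algebraMap (algebraMap ℂ K).injective
  have hunit : ∀ c : ℂ, O.valuation c = 1 → B.valuation (algebraMap ℂ K c) = 1 := by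
    intro c hc
    have hc0 : c ≠ 0 := by
      rintro rfl
      rw [map_zero] at hc
      exact zero_ne_one hc
    refine le_antisymm (hOB c hc.le) ?_
    have h1 := hOB c⁻¹ (by rw [map_inv₀, hc, inv_one])
    have h2 : B.valuation (algebraMap ℂ K c) * B.valuation (algebraMap ℂ K c⁻¹) = 1 := by
      rw [← map_mul, ← map_mul, mul_inv_cancel₀ hc0, map_one, map_one]
    calc (1 : B.ValueGroup) = B.valuation (algebraMap ℂ K c) * B.valuation (algebraMap ℂ K c⁻¹) :=
          h2.symm
      _ ≤ B.valuation (algebraMap ℂ K c) * 1 := by gcongr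
      _ = _ := mul_one _
  have hpB : B.valuation ((p : ℕ) : K) < 1 := by
    have := hOB' _ hpO
    rwa [map_natCast] at this
  have hint : ∀ b : ℤ, B.valuation ((b : ℤ) : K) ≤ 1 := fun b =>
    (B.valuation_le_one_iff _).2 (intCast_mem B b)
  set v := B.valuation with hv
  set Y : B.ValueGroup := ∏ l : Fin k, max 1 (v (∏ i, if lam i = some l then z i ^ D i else 1))
    with hY
  have hY1 : 1 ≤ Y := Finset.one_le_prod' fun l _ => le_max_left _ _
  have hY0 : 0 < Y := zero_lt_one.trans_le hY1
  let cj : Fin m → ℤ := fun j => (j : ℕ) + 1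
  let Pj : Fin m → K := fun j => mev (lcoef D lam (cj j)) z
  have hcj : ∀ j, v ((cj j : ℤ) : K) = 1 := by
    intro j
    refine val_int_unit B hp hpB ?_
    intro h
    have h1 : ((p : ℕ) : ℤ) ≤ (j : ℕ) + 1 := Int.le_of_dvd (by positivity) h
    have := j.2
    omega
  have hcjj : ∀ j j', j ≠ j' → v (((cj j - cj j' : ℤ)) : K) = 1 := by
    intro j j' hne
    refine val_int_unit B hp hpB ?_
    intro h
    have hne' : (j : ℕ) ≠ j' := fun h => hne (Fin.ext h)
    have h1 := Int.natAbs_dvd_natAbs.2 h
    have h2 : (cj j - cj j').natAbs ≠ 0 := by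
      simp only [cj]
      omega
    have h3 := Nat.le_of_dvd (Nat.pos_of_ne_zero h2) h1
    simp only [cj, Int.natAbs_natCast] at h3
    have := j.2
    have := j'.2
    omega
  have hsmall := card_small B D lam z cj hcj hcjj
    (Finset.univ.filter fun j => v (mev (lcoef D lam (cj j)) z) ≠ Y)
    (fun j hj => (Finset.mem_filter.1 hj).2)
  have hlarge : d + 1 ≤ (Finset.univ.filter fun j =>
      v (mev (lcoef D lam (cj j)) z) = Y).card := by
    have := Finset.card_filter_add_card_filter_not (s := (Finset.univ : Finset (Fin m)))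
      (fun j => v (mev (lcoef D lam (cj j)) z) = Y)
    rw [Finset.card_univ, Fintype.card_fin] at this
    have h2 : (Finset.univ.filter fun j : Fin m =>
      ¬ v (mev (lcoef D lam (cj j)) z) = Y).card ≤ k := hsmall
    omega
  obtain ⟨J, hJ, hJc⟩ := Finset.exists_subset_card_eq hlarge
  have hJv : ∀ j ∈ J, v (Pj j) = Y := fun j hj => (Finset.mem_filter.1 (hJ hj)).2
  -- the reductions
  have hdiff : ∀ (F : Expo D → ℤ), (∀ e, (p : ℤ) ∣ F e) → v (mev F z) < Y := by
    intro F hF
    have h1 := val_mev_le B D lam z hnone hcl F (v ((p : ℕ) : K)) (by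
      intro e
      obtain ⟨b, hb⟩ := hF e
      rw [hb]
      push_cast
      rw [map_mul]
      calc v (p : K) * v (b : K) ≤ v (p : K) * 1 := by gcongr; exact hint b
        _ = _ := mul_one _)
    refine lt_of_le_of_lt h1 ?_
    calc v ((p : ℕ) : K) * Y < 1 * Y := mul_lt_mul_of_pos_right hpB hY0
      _ = Y := one_mul _
  set Nz : Fin m → K := fun j => mev (fun e => c (j, 0, e)) z with hNz
  set Mz : Fin m → K := fun j => mev (fun e => c (j, 1, e)) z with hMz
  have hred : ∀ j ∈ J, Mz j ≠ 0 ∧ v (Nz j / Mz j - (α j : K)) < 1 := by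
    intro j hj
    have hP0 : Pj j ≠ 0 := by
      intro h0
      have := hJv j hj
      rw [h0, map_zero] at this
      exact hY0.ne this
    have h1 : v (Nz j - (α j : K) * Pj j) < Y := by
      have := hdiff (fun e => c (j, 0, e) - α j * lcoef D lam (cj j) e) (fun e => (hc j e).1)
      rwa [mev_sub] at this
    have h2 : v (Mz j - Pj j) < Y := by
      have := hdiff (fun e => c (j, 1, e) - 1 * lcoef D lam (cj j) e) (fun e => by
        rw [one_mul]; exact (hc j e).2)
      rwa [mev_sub, Int.cast_one, one_mul] at this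
    have h3 : v (Nz j / Pj j - (α j : K)) < 1 := by
      have h4 : Nz j / Pj j - (α j : K) = (Nz j - (α j : K) * Pj j) / Pj j := by field_simp
      rw [h4, map_div₀, hJv j hj]
      exact (div_lt_one₀ hY0).2 h1
    have h4 : v (Mz j / Pj j - 1) < 1 := by
      have h5 : Mz j / Pj j - 1 = (Mz j - Pj j) / Pj j := by field_simp
      rw [h5, map_div₀, hJv j hj]
      exact (div_lt_one₀ hY0).2 h2
    obtain ⟨h5, h6⟩ := val_div_sub_lt B (Nz j / Pj j) (Mz j / Pj j) (α j : K) (hint _) h3 h4
    rw [div_div_div_cancel_right₀ hP0] at h6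
    refine ⟨?_, h6⟩
    intro h7
    rw [h7, zero_div] at h5
    exact h5 rfl
  have hNe : ∀ j, aeval z (mev (fun e => c (j, 0, e)) (X : Fin n → MvPolynomial (Fin n) ℂ)) =
      Nz j := by
    intro j
    have h := map_mev (aeval z : MvPolynomial (Fin n) ℂ →ₐ[ℂ] K).toRingHom
      (fun e => c (j, 0, e)) X
    change aeval z _ = _ at h
    rw [h, hNz]
    simp only
    congr 1
    funext i
    exact aeval_X z i
  have hMe : ∀ j, aeval z (mev (fun e => c (j, 1, e)) (X : Fin n → MvPolynomial (Fin n) ℂ)) =
      Mz j := by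
    intro j
    have h := map_mev (aeval z : MvPolynomial (Fin n) ℂ →ₐ[ℂ] K).toRingHom
      (fun e => c (j, 1, e)) X
    change aeval z _ = _ at h
    rw [h, hMz]
    simp only
    congr 1
    funext i
    exact aeval_X z i
  have h1 := hz J hJc
  rw [aeval_gpull _ _ (f J) z (fun j hj => by rw [hMe]; exact (hred j hj).1)] at h1
  simp only [hNe, hMe] at h1
  have h2 : aeval (fun j : J => Nz j / Mz j) (f J) = 0 := by
    refine (mul_eq_zero.1 h1).resolve_left (pow_ne_zero _ ?_)
    exact Finset.prod_ne_zero_iff.2 fun j _ => (hred j j.2).1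
  have h3 := val_aeval_sub_lt B (f J) (fun l => hOB _ (hf J hJc l)) (fun j : J => Nz j / Mz j)
    (fun j : J => ((α j : ℤ) : K)) (fun j => (hred j j.2).2) (fun j => hint _)
  rw [h2, zero_sub, Valuation.map_neg] at h3
  have h4 : aeval (fun j : J => ((α j : ℤ) : K)) (f J) =
      algebraMap ℂ K (eval (fun j : J => ((α j : ℤ) : ℂ)) (f J)) := by
    rw [← aeval_eq_eval, ← aeval_algebraMap_apply]
    congr 2
    funext j
    exact (map_intCast (algebraMap ℂ K) _).symm
  rw [h4, hunit _ (hcor J hJc)] at h3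
  exact lt_irrefl _ h3

/-- integral elements over `ℤ[Γ]` are in `O` when `Γ` is -/
theorem val_le_one_of_adjoin {Γ : Finset ℂ} (O : ValuationSubring ℂ)
    (hΓ : ∀ γ ∈ Γ, γ ≠ 0 → O.valuation γ = 1) {c : ℂ}
    (hc : IsIntegral (Algebra.adjoin ℤ (Γ : Set ℂ)) c) : O.valuation c ≤ 1 := by
  have hle : ∀ y ∈ Algebra.adjoin ℤ (Γ : Set ℂ), y ∈ O := by
    intro y hy
    induction hy using Algebra.adjoin_induction with
    | mem t ht =>
      rw [← O.valuation_le_one_iff]
      by_cases h0 : t = 0
      · rw [h0, map_zero]; exact zero_le_one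
      · exact (hΓ t ht h0).le
    | algebraMap t => exact intCast_mem O t
    | add s t _ _ hs ht => exact O.add_mem _ _ hs ht
    | mul s t _ _ hs ht => exact O.mul_mem _ _ hs ht
  obtain ⟨q, hq, hqe⟩ := hc
  let φ : Algebra.adjoin ℤ (Γ : Set ℂ) →+* O :=
    { toFun := fun y => ⟨y, hle y y.2⟩
      map_one' := rfl
      map_mul' := fun _ _ => rfl
      map_zero' := rfl
      map_add' := fun _ _ => rfl }
  have hB : IsIntegral O c := by
    refine ⟨q.map φ, hq.map φ, ?_⟩
    rw [Polynomial.eval₂_map]
    exact hqe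
  obtain ⟨y, hy⟩ := IsIntegrallyClosed.isIntegral_iff.1 hB
  rw [← hy]
  exact (O.valuation_le_one_iff _).2 y.2

/-- **Main theorem for generic points** of pull-backs under rational maps `ℂ^n → ℂ^m`. -/
theorem exists_class_rat {n m d : ℕ} (D : Fin n → ℕ)
    (P : Ideal (MvPolynomial (Fin m) ℂ)) [P.IsPrime]
    (hd : Algebra.trdeg ℂ (MvPolynomial (Fin m) ℂ ⧸ P) = d) (Γ : Finset ℂ)
    (Q₀ : ℕ) (hQ₀ : 0 < Q₀) (c₀ : Fin m × Fin 2 × Expo D → ℤ) :
    ∃ (Q : ℕ) (G : Fin m × Fin 2 × Expo D → ℤ), 0 < Q ∧
      ∀ c : Fin m × Fin 2 × Expo D → ℤ, (∀ a, (Q : ℤ) ∣ c a - G a) →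
        (∀ a, (Q₀ : ℤ) ∣ c a - c₀ a) ∧
        ∀ (K : Type) [Field K] [Algebra ℂ K] (z : Fin n → K),
          (∀ (J : Finset (Fin m)) (f : MvPolynomial J ℂ),
            rename (Subtype.val : J → Fin m) f ∈ P → aeval z (gpull
              (fun j => mev (fun e => c (j, 0, e)) (X : Fin n → MvPolynomial (Fin n) ℂ))
              (fun j => mev (fun e => c (j, 1, e)) (X : Fin n → MvPolynomial (Fin n) ℂ)) f)
                = 0) →
          ∀ (r : ℕ) (cls : Fin n → Option (Fin r)) (N : Fin n → Fin n → ℕ), (∀ i i', 0 < N i i') →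
          (∀ i, cls i = none → ∃ c : ℂ, IsIntegral (Algebra.adjoin ℤ (Γ : Set ℂ)) c ∧
            z i = algebraMap ℂ K c) →
          (∀ i i' l, cls i = some l → cls i' = some l → Polynomial.eval₂
            (Polynomial.aeval (z i) : Polynomial ℂ →ₐ[ℂ] K).toRingHom (z i')
              (Psi (N i i')) = 0) →
          ∀ T : Finset (Fin n), AlgebraicIndependent ℂ (fun j : T => z j) →
            T.card + m ≤ r + d := by
  classical
  obtain ⟨f, α, β, -, hcor⟩ := exists_corners' P hd
  set k := m - d - 1 with hk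
  let s : Finset ℂ := (Finset.univ.biUnion fun J : Finset (Fin m) =>
      (f J).support.image (f J).coeff) ∪
    (Finset.univ.image fun J : Finset (Fin m) => eval (fun j : J => ((α j : ℤ) : ℂ)) (f J)) ∪ Γ
  obtain ⟨p, O, hpinj, hpO⟩ := exists_primes s (Q₀ + m)
  set M := Fintype.card (Fin n → Option (Fin k)) with hM
  let eL : (Fin n → Option (Fin k)) ≃ Fin M := Fintype.equivFin _
  obtain ⟨Q, G, hQ, hclass⟩ := exists_residue_class' (κ := Fin m × Fin 2 × Expo D) (M := M)
    (fun i => p i) (fun i => (hpO i).1) (fun i i' h => Fin.ext (hpinj h)) (fun _ _ => 1)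
    (fun i x => if x.2.1 = 0 then α x.1 * lcoef D (eL.symm i) ((x.1 : ℕ) + 1) x.2.2 else
      lcoef D (eL.symm i) ((x.1 : ℕ) + 1) x.2.2) Q₀ hQ₀
    (fun i => lt_of_le_of_lt (Nat.le_add_right _ _) (hpO i).2.1) c₀
  refine ⟨Q, G, hQ, fun c hc => ?_⟩
  obtain ⟨hc0, hcong⟩ := hclass c hc
  refine ⟨hc0, ?_⟩
  intro K _ _ z hz r cls N hN hconst hrel T hT
  have hunit : ∀ i : ℕ, ∀ u ∈ s, u ≠ 0 → (O i).valuation u = 1 := fun i => (hpO i).2.2.2
  have hTsome : ∀ t : T, ∃ l, cls t = some l := by
    intro t
    cases hc : cls t with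
    | none =>
      obtain ⟨c, -, hc2⟩ := hconst t hc
      exact absurd (hc2 ▸ isAlgebraic_algebraMap c) (hT.transcendental t)
    | some l => exact ⟨l, rfl⟩
  choose κ hκ using hTsome
  have hκinj : Function.Injective κ := by
    intro t t' htt
    by_contra hne
    have h1 := hrel t t' (κ t) (hκ t) (by rw [htt]; exact hκ t')
    have h2 := hT.transcendental_adjoin (s := {t}) (i := t') (by
      intro h
      rw [Set.mem_singleton_iff] at h
      exact hne h.symm)
    apply h2
    rw [Set.image_singleton]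
    have hmem : z t ∈ Algebra.adjoin ℂ {z t} := Algebra.subset_adjoin rfl
    let ψ : Polynomial ℂ →ₐ[ℂ] Algebra.adjoin ℂ {z t} := Polynomial.aeval ⟨z t, hmem⟩
    have hcomp : ((Algebra.adjoin ℂ {z t}).val.comp ψ) =
        (Polynomial.aeval (z t) : Polynomial ℂ →ₐ[ℂ] K) := by
      apply Polynomial.algHom_ext
      simp [ψ]
    have hint : IsIntegral (Algebra.adjoin ℂ {z t}) (z t') := by
      refine ⟨(Psi (N t t')).map ψ.toRingHom, (Psi_spec (hN t t')).1.map _, ?_⟩
      rw [Polynomial.eval₂_map, ← h1]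
      congr 1
      exact congrArg AlgHom.toRingHom hcomp
    exact hint.isAlgebraic
  have hTr : T.card ≤ r := by
    have := Fintype.card_le_of_injective κ hκinj
    simpa using this
  by_contra hcon
  push Not at hcon
  -- the free classes
  let Cc : Finset (Fin r) := Finset.univ.filter fun l => l ∉ Finset.univ.image κ
  have hCc : Cc.card + T.card = r := by
    have h2 : (Finset.univ.filter fun l : Fin r => l ∈ Finset.univ.image κ).card = T.card := by
      have h3 : (Finset.univ.filter fun l : Fin r => l ∈ Finset.univ.image κ) =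
          Finset.univ.image κ := by
        ext l; simp
      rw [h3, Finset.card_image_of_injective _ hκinj, Finset.card_univ, Fintype.card_coe]
    have h5 : (Finset.univ.filter fun l : Fin r => l ∈ Finset.univ.image κ).card + Cc.card =
        (Finset.univ : Finset (Fin r)).card :=
      Finset.card_filter_add_card_filter_not (s := (Finset.univ : Finset (Fin r)))
        (fun l => l ∈ Finset.univ.image κ)
    rw [Finset.card_univ, Fintype.card_fin, h2] at h5
    omega
  have hCk : Cc.card ≤ k := by omega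
  have hkm : k + (d + 1) ≤ m := by omega
  let lam : Fin n → Option (Fin k) := fun i =>
    match cls i with
    | none => none
    | some l => if h : l ∈ Cc then some (Fin.castLE hCk (Cc.equivFin ⟨l, h⟩)) else none
  set i₀ := eL lam with hi₀
  have hlam : eL.symm i₀ = lam := eL.symm_apply_apply lam
  obtain ⟨B, hB1, hB2, hB3⟩ := exists_above_unit (O i₀) (fun j : T => z j) hT
  have hΓv : ∀ γ ∈ Γ, γ ≠ 0 → (O i₀).valuation γ = 1 := fun γ hγ h0 =>
    hunit i₀ γ (Finset.mem_union_right _ hγ) h0
  have hnone : ∀ i, lam i = none → B.valuation (z i) ≤ 1 := by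
    intro i hi
    cases hc : cls i with
    | none =>
      obtain ⟨c, hc1, hc2⟩ := hconst i hc
      rw [hc2]
      exact hB1 c (val_le_one_of_adjoin (O i₀) hΓv hc1)
    | some l =>
      simp only [lam, hc] at hi
      split_ifs at hi with hmem
      simp only [Cc, Finset.mem_filter, Finset.mem_univ, true_and, not_not,
        Finset.mem_image] at hmem
      obtain ⟨t, ht⟩ := hmem
      have h2 := hrel t i l (ht ▸ hκ t) hc
      exact (((Psi_spec (hN t i)).2.2 K B _ _ h2).1) (hB3 t).le
  have hcl : ∀ i i' l, lam i = some l → lam i' = some l → B.valuation (z i) ≤ 1 →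
      B.valuation (z i') ≤ 1 := by
    intro i i' j hi hi' hxi
    cases hc : cls i with
    | none => simp [lam, hc] at hi
    | some l =>
      cases hc' : cls i' with
      | none => simp [lam, hc'] at hi'
      | some l' =>
        simp only [lam, hc] at hi
        simp only [lam, hc'] at hi'
        split_ifs at hi with h1
        split_ifs at hi' with h2
        have h3 : Fin.castLE hCk (Cc.equivFin ⟨l, h1⟩) = Fin.castLE hCk (Cc.equivFin ⟨l', h2⟩) :=
          Option.some_injective _ (hi.trans hi'.symm)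
        have h4 := Cc.equivFin.injective (Fin.castLE_injective hCk h3)
        rw [Subtype.mk.injEq] at h4
        subst h4
        have h5 := hrel i i' l hc hc'
        exact (((Psi_spec (hN i i')).2.2 K B _ _ h5).1) hxi
  refine lcong_absurd D (O i₀) B hB1 hB2 (p i₀) (hpO i₀).1
    (lt_of_le_of_lt (Nat.le_add_left _ _) (hpO i₀).2.1) (hpO i₀).2.2.1 f α ?_ ?_ hkm lam c ?_ z
    (fun J hJ => hz J (f J) (hcor J hJ).1) hnone hcl
  · intro J _ l
    by_cases h0 : (f J).coeff l = 0
    · rw [h0, map_zero]; exact zero_le_one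
    · refine (hunit i₀ _ ?_ h0).le
      refine Finset.mem_union_left _ (Finset.mem_union_left _ ?_)
      exact Finset.mem_biUnion.2 ⟨J, Finset.mem_univ _, Finset.mem_image_of_mem _
        (mem_support_iff.2 h0)⟩
  · intro J hJ
    have h1 := (hcor J hJ).2 (fun _ => true)
    refine hunit i₀ _ ?_ (by simpa using h1)
    refine Finset.mem_union_left _ (Finset.mem_union_right _ ?_)
    exact Finset.mem_image_of_mem
      (fun J : Finset (Fin m) => eval (fun j : J => ((α j : ℤ) : ℂ)) (f J)) (Finset.mem_univ J)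
  · intro j e
    constructor
    · have h1 := hcong i₀ (j, 0, e)
      rw [pow_one, hlam] at h1
      simpa using h1
    · have h1 := hcong i₀ (j, 1, e)
      rw [pow_one, hlam] at h1
      simpa using h1

end Pool.Agent.W282.ZP
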